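import Pool.Agent.H31.S3.Defs

/-!
# Powers tending to infinity
-/

open Filter Topology Set
open scoped Pointwise

namespace Pool.Agent.H31.S3

variable {H : Type*} [Group H] [TopologicalSpace H] [IsTopologicalGroup H]

/-- if the powers `t^n`, `n ≥ 1`, avoid a neighbourhood of `1` they tend to infinity -/
theorem toInf_of_avoid {t : H} {S : Set H} (hS : S ∈ 𝓝 (1 : H))
    (h : ∀ n : ℕ, 1 ≤ n → t ^ n ∉ S) : ToInf t := by
  unfold ToInf
  rw [hasBasis_cocompact.tendsto_right_iff]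
  intro C hC
  -- neighbourhood `V` with `V * V⁻¹ ⊆ S`
  have hc : Tendsto (fun x : H × H => x.1 * x.2⁻¹) (𝓝 (1, 1)) (𝓝 (1 * 1⁻¹)) :=
    (continuous_fst.mul continuous_snd.inv).continuousAt
  rw [inv_one, mul_one] at hc
  have hV := hc hS
  rw [nhds_prod_eq] at hV
  obtain ⟨V, hV1, hV2⟩ := mem_prod_same_iff.1 (mem_map.1 hV)
  obtain ⟨I, hI1, hI2⟩ := hC.elim_nhds_subcover (fun g => (fun x => x * g⁻¹) ⁻¹' V)
    (fun g _ => (continuous_mul_const g⁻¹).continuousAt.preimage_mem_nhds (by simpa using hV1))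
  have hfin : {n : ℕ | t ^ n ∈ C}.Finite := by
    have : {n : ℕ | t ^ n ∈ C} ⊆ ⋃ g ∈ I, {n : ℕ | t ^ n * g⁻¹ ∈ V} := by
      intro n hn
      have := hI2 hn
      simpa using this
    refine Set.Finite.subset ?_ this
    refine Set.Finite.biUnion I.finite_toSet fun g _ => ?_
    refine Set.Subsingleton.finite ?_
    intro n hn m hm
    by_contra hne
    rcases lt_or_gt_of_ne hne with hlt | hlt
    · have h1 := hV2 (mk_mem_prod hm hn)
      have h2 : t ^ m * g⁻¹ * (t ^ n * g⁻¹)⁻¹ = t ^ (m - n) := by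
        rw [mul_inv_rev, inv_inv, mul_assoc, inv_mul_cancel_left, ← pow_sub t hlt.le]
      have h3 : t ^ (m - n) ∈ S := by rw [← h2]; exact h1
      exact h _ (by omega) h3
    · have h1 := hV2 (mk_mem_prod hn hm)
      have h2 : t ^ n * g⁻¹ * (t ^ m * g⁻¹)⁻¹ = t ^ (n - m) := by
        rw [mul_inv_rev, inv_inv, mul_assoc, inv_mul_cancel_left, ← pow_sub t hlt.le]
      have h3 : t ^ (n - m) ∈ S := by rw [← h2]; exact h1
      exact h _ (by omega) h3
  obtain ⟨N, hN⟩ := hfin.bddAbove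
  filter_upwards [eventually_gt_atTop N] with n hn hn2
  exact absurd (hN hn2) (not_le.2 hn)

theorem ToInf.eventually_notMem {t : H} (h : ToInf t) {C : Set H} (hC : IsCompact C) :
    ∃ N : ℕ, ∀ n ≥ N, t ^ n ∉ C := by
  have := h (hC.compl_mem_cocompact)
  obtain ⟨N, hN⟩ := eventually_atTop.1 this
  exact ⟨N, fun n hn => hN n hn⟩

theorem ToInf.inv {t : H} (h : ToInf t) : ToInf t⁻¹ := by
  unfold ToInf
  rw [hasBasis_cocompact.tendsto_right_iff]
  intro C hC
  obtain ⟨N, hN⟩ := h.eventually_notMem hC.inv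
  filter_upwards [eventually_ge_atTop N] with n hn hn2
  refine hN n hn ?_
  rw [Set.mem_inv, ← inv_pow]
  exact hn2

theorem ToInf.pow {t : H} (h : ToInf t) {k : ℕ} (hk : 1 ≤ k) : ToInf (t ^ k) := by
  unfold ToInf
  have : (fun n : ℕ => (t ^ k) ^ n) = (fun n => t ^ n) ∘ fun n => k * n := by
    funext n; simp [pow_mul]
  rw [this]
  refine h.comp ?_
  exact tendsto_id.const_mul_atTop' (by omega)

/-- the powers of an element of a compact set closed under powers return to `1` -/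
theorem exists_pow_mem {a : H} {C : Set H} (hC : IsCompact C) (h : ∀ n : ℕ, a ^ n ∈ C)
    {U : Set H} (hU : U ∈ 𝓝 (1 : H)) : ∃ n : ℕ, 1 ≤ n ∧ a ^ n ∈ U := by
  by_contra hcon
  push Not at hcon
  obtain ⟨N, hN⟩ := (toInf_of_avoid hU hcon).eventually_notMem hC
  exact hN N le_rfl (h N)

theorem mem_pow_of_closure {S : Set H} (hinv : ∀ s ∈ S, s⁻¹ ∈ S) {u : H}
    (hu : u ∈ Subgroup.closure S) : ∃ m : ℕ, u ∈ S ^ m := by
  induction hu using Subgroup.closure_induction_left with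
  | one => exact ⟨0, by simp⟩
  | mul_left x hx y hy ih =>
    obtain ⟨m, hm⟩ := ih
    exact ⟨m + 1, by rw [pow_succ']; exact Set.mul_mem_mul hx hm⟩
  | inv_mul_cancel x hx y hy ih =>
    obtain ⟨m, hm⟩ := ih
    exact ⟨m + 1, by rw [pow_succ']; exact Set.mul_mem_mul (hinv x hx) hm⟩

omit [TopologicalSpace H] [IsTopologicalGroup H] in
theorem pow_mono' {S : Set H} (h1 : (1 : H) ∈ S) {m n : ℕ} (h : m ≤ n) : S ^ m ⊆ S ^ n :=
  Set.pow_subset_pow_right h1 h

/-- a compact set contained in the group generated by `S` lies in some `S^m` -/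
theorem exists_pow_superset {S : Set H} (hS : S ∈ 𝓝 (1 : H)) (hinv : ∀ s ∈ S, s⁻¹ ∈ S)
    {C : Set H} (hC : IsCompact C) :
    ∃ m : ℕ, ∀ u ∈ C, u ∈ Subgroup.closure S → u ∈ S ^ m := by
  have h1 : (1 : H) ∈ S := mem_of_mem_nhds hS
  have hop : IsOpen (Subgroup.closure S : Set H) :=
    Subgroup.isOpen_of_mem_nhds _ (mem_of_superset hS Subgroup.subset_closure)
  have hcl : IsClosed (Subgroup.closure S : Set H) := Subgroup.isClosed_of_isOpen _ hop
  have hcomp : IsCompact (C ∩ (Subgroup.closure S : Set H)) := hC.inter_right hcl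
  have hcov : C ∩ (Subgroup.closure S : Set H) ⊆ ⋃ m : ℕ, interior (S ^ m) := by
    rintro u ⟨-, hu⟩
    obtain ⟨m, hm⟩ := mem_pow_of_closure hinv hu
    refine mem_iUnion.2 ⟨m + 1, ?_⟩
    rw [mem_interior_iff_mem_nhds]
    have : u • S ⊆ S ^ (m + 1) := by
      rintro _ ⟨s, hs, rfl⟩
      rw [pow_succ]
      exact Set.mul_mem_mul hm hs
    refine mem_of_superset ?_ this
    have h2 := smul_mem_nhds_smul u hS
    simpa using h2
  obtain ⟨m, hm⟩ := hcomp.elim_directed_cover _ (fun m => isOpen_interior) hcov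
    (directed_of_isDirected_le fun a b hab => interior_mono (pow_mono' h1 hab))
  exact ⟨m, fun u hu hu' => interior_subset (hm ⟨hu, hu'⟩)⟩

end Pool.Agent.H31.S3
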