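import Pool.Agent.H31.S3.Prop3
import Pool.Agent.H31.S3.Inf

/-!
# The stabiliser of two points (job S3-C)

`Sys.twoPt`: the stabiliser `H = stab G p q` of two points satisfies `TwoPt`.

* `trans`, `free`, `opn` (take the first two points of the triple to be `p`, `q`; a neighbourhood
  `U` of `1` in the subgroup contains the preimage of a neighbourhood of `1` in `G`), `perfp`, `perfq`:
  from `Sys`.
* `proper`: `C = {h | ∃ x ∈ X, h • x ∈ Y}`.  It is compact by `isCompact_iff_ultrafilter_le_nhds`: let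
  `f` be an ultrafilter on `H` containing `C`, choose `x : H → M` with `x h ∈ X`, `h • x h ∈ Y` for
  `h ∈ C`.  By compactness `x h → a ∈ X` and `h • x h → b ∈ Y` along `f`.  By `Sys.conv` for the triples
  `(p, q, x h) → (p, q, a)`, `(p, q, h • x h) → (p, q, b)` the map `h ↦ (h : G)` converges to some
  `g₀ ∈ stab G p q` with `g₀ a = b`; so `f ≤ 𝓝 g₀` in `H` and `g₀ ∈ C`.
* `bp`: suppose for all `U ∈ 𝓝 p` there are `h, x ∈ X, y ∈ Y` with `h x ∈ U`, `h⁻¹ y ∈ U`.  On
  `H × M × M` let `𝒰` be an ultrafilter containing `H × X × Y` along which `h x → p` and `h⁻¹ y → p`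
  (the filter `comap (h x) (𝓝 p) ⊓ comap (h⁻¹ y) (𝓝 p) ⊓ 𝓟 (univ ×ˢ X ×ˢ Y)` is `NeBot`).  Then
  `x → a ∈ X`, `y → b ∈ Y`.  `Sys.conv` for the triples `(x, h⁻¹ y, q) → (a, p, q)` with images
  `(h x, y, q) → (p, b, q)`: `h → g₀` with `g₀ a = p`, `g₀ p = b`.  But `h p = p` for all `h`, so
  `g₀ p = p` (limit) and `b = p`, contradiction to `p ∉ Y`.
* `bq`: the same with `p` and `q` exchanged (state `bp` as a lemma for a subgroup element filter that
  fixes both points, or use the symmetry of the triples).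
-/

open Filter Topology Set

namespace Pool.Agent.H31.S3

variable {G M : Type*} [Group G] [TopologicalSpace G] [IsTopologicalGroup G]
  [T2Space G] [TopologicalSpace M] [T2Space M] [MulAction G M] [ContinuousSMul G M]

theorem isClosed_stab (p q : M) : IsClosed (stab G p q : Set G) := by
  have h : (stab G p q : Set G) = {g | g • p = p} ∩ {g | g • q = q} := by
    ext g
    exact mem_stab
  rw [h]
  exact (isClosed_eq (continuous_id.smul continuous_const) continuous_const).inter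
    (isClosed_eq (continuous_id.smul continuous_const) continuous_const)

theorem locallyCompact_stab [LocallyCompactSpace G] (p q : M) :
    LocallyCompactSpace (stab G p q) :=
  (isClosed_stab p q).isClosedEmbedding_subtypeVal.locallyCompactSpace

theorem toInf_coe {p q : M} (t : stab G p q) : ToInf (t : G) ↔ ToInf t := by
  have he : IsClosedEmbedding ((↑) : stab G p q → G) :=
    (isClosed_stab (G := G) p q).isClosedEmbedding_subtypeVal
  unfold ToInf
  have h2 : (fun n : ℕ => (t : G) ^ n) = ((↑) : stab G p q → G) ∘ fun n => t ^ n := by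
    funext n
    simp
  constructor
  · intro h
    rw [hasBasis_cocompact.tendsto_right_iff] at h ⊢
    intro C hC
    filter_upwards [h _ (hC.image he.continuous)] with n hn hn2
    refine hn ⟨t ^ n, hn2, ?_⟩
    simp
  · intro h
    rw [h2]
    exact he.tendsto_cocompact.comp h

/-- Lemma B for the elements of `G` which fix `p` and `q` -/
theorem Sys.bpAux (hS : Sys G M) {p q : M} (hpq : p ≠ q) (X Y : Set M) (hX : IsCompact X)
    (hY : IsCompact Y) (hpX : p ∉ X) (hqX : q ∉ X) (hpY : p ∉ Y) (hqY : q ∉ Y) :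
    ∃ U ∈ 𝓝 p, ∀ h : G, h • p = p → h • q = q → ∀ x ∈ X, ∀ y ∈ Y, h • x ∈ U → h⁻¹ • y ∉ U := by
  by_contra hcon
  push Not at hcon
  let T : Set (G × M × M) :=
    {i | i.1 • p = p ∧ i.1 • q = q ∧ i.2.1 ∈ X ∧ i.2.2 ∈ Y}
  have hne : (comap (fun i : G × M × M => (i.1 • i.2.1, i.1⁻¹ • i.2.2)) (𝓝 p ×ˢ 𝓝 p)
      ⊓ 𝓟 T).NeBot := by
    rw [Filter.inf_principal_neBot_iff]
    intro W hW
    obtain ⟨T', hT', hTW⟩ := mem_comap.1 hW
    obtain ⟨U, hU, hUT⟩ := Filter.mem_prod_same_iff.1 hT'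
    obtain ⟨h, hp, hq, x, hx, y, hy, h1, h2⟩ := hcon U hU
    exact ⟨(h, x, y), hTW (hUT ⟨h1, h2⟩), hp, hq, hx, hy⟩
  let f := Ultrafilter.of (comap (fun i : G × M × M => (i.1 • i.2.1, i.1⁻¹ • i.2.2)) (𝓝 p ×ˢ 𝓝 p)
      ⊓ 𝓟 T)
  have hf1 : Tendsto (fun i : G × M × M => (i.1 • i.2.1, i.1⁻¹ • i.2.2)) f (𝓝 p ×ˢ 𝓝 p) :=
    tendsto_iff_comap.2 ((Ultrafilter.of_le _).trans inf_le_left)
  have hfT : ∀ᶠ i in (f : Filter (G × M × M)), i ∈ T :=
    le_principal_iff.1 ((Ultrafilter.of_le _).trans inf_le_right)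
  have hh1 : Tendsto (fun i : G × M × M => i.1 • i.2.1) f (𝓝 p) := (tendsto_fst.comp hf1)
  have hh2 : Tendsto (fun i : G × M × M => i.1⁻¹ • i.2.2) f (𝓝 p) := (tendsto_snd.comp hf1)
  obtain ⟨a, haX, ha⟩ := hX.ultrafilter_le_nhds (f.map fun i => i.2.1) (by
    rw [le_principal_iff]
    exact hfT.mono fun i hi => hi.2.2.1)
  obtain ⟨b, hbY, hb⟩ := hY.ultrafilter_le_nhds (f.map fun i => i.2.2) (by
    rw [le_principal_iff]
    exact hfT.mono fun i hi => hi.2.2.2)
  have ha' : Tendsto (fun i : G × M × M => i.2.1) f (𝓝 a) := ha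
  have hb' : Tendsto (fun i : G × M × M => i.2.2) f (𝓝 b) := hb
  have hap : a ≠ p := fun h => hpX (h ▸ haX)
  have haq : a ≠ q := fun h => hqX (h ▸ haX)
  have hbp : b ≠ p := fun h => hpY (h ▸ hbY)
  have hbq : b ≠ q := fun h => hqY (h ▸ hbY)
  obtain ⟨g₀, hg, h1, h2, h3⟩ := hS.conv (F := (f : Filter (G × M × M))) (g := fun i => i.1)
    (x := fun i => i.2.1) (y := fun i => i.1⁻¹ • i.2.2) (z := fun _ => q) (a := a) (b := p) (c := q)
    (a' := p) (b' := b) (c' := q) hap haq hpq hbp.symm hpq hbq ha' hh2 tendsto_const_nhds hh1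
    (by
      refine hb'.congr fun i => ?_
      simp)
    (by
      refine (tendsto_const_nhds (x := q)).congr' ?_
      filter_upwards [hfT] with i hi
      exact hi.2.1.symm)
  have h4 : Tendsto (fun i : G × M × M => i.1 • p) f (𝓝 (g₀ • p)) :=
    hg.smul tendsto_const_nhds
  have h5 : Tendsto (fun i : G × M × M => i.1 • p) f (𝓝 p) := by
    refine (tendsto_const_nhds (x := p)).congr' ?_
    filter_upwards [hfT] with i hi
    exact hi.1.symm
  have h6 := tendsto_nhds_unique h4 h5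
  exact hbp (h2.symm.trans h6)

theorem Sys.twoPt (hS : Sys G M) {p q : M} (hpq : p ≠ q) : TwoPt (stab G p q) p q where
  ne := hpq
  fixp h := (mem_stab.1 h.2).1
  fixq h := (mem_stab.1 h.2).2
  trans x y hxp hxq hyp hyq := by
    obtain ⟨g, h1, h2, h3⟩ := hS.trans p q x p q y hpq hxp.symm hxq.symm hpq hyp.symm hyq.symm
    exact ⟨⟨g, mem_stab.2 ⟨h1, h2⟩⟩, h3⟩
  free x hxp hxq h hx := by
    have := hS.free p q x hpq hxp.symm hxq.symm (h : G) (mem_stab.1 h.2).1 (mem_stab.1 h.2).2 hx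
    exact Subtype.ext this
  opn x hxp hxq U hU := by
    rw [nhds_subtype_eq_comap] at hU
    obtain ⟨V, hV, hVU⟩ := mem_comap.1 hU
    obtain ⟨A, hA, B, hB, C, hC, h⟩ := hS.opn p q x hpq hxp.symm hxq.symm V hV
    refine ⟨C, hC, fun c hc => ?_⟩
    obtain ⟨g, hgV, h1, h2, h3⟩ := h p (mem_of_mem_nhds hA) q (mem_of_mem_nhds hB) c hc
    exact ⟨⟨g, mem_stab.2 ⟨h1, h2⟩⟩, hVU hgV, h3⟩
  proper X Y hX hY hpX hqX hpY hqY := by
    refine ⟨{h | ∃ x ∈ X, h • x ∈ Y}, ?_, fun h x hx hy => ⟨x, hx, hy⟩⟩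
    rw [isCompact_iff_ultrafilter_le_nhds]
    intro f hf
    rw [le_principal_iff] at hf
    classical
    let x : stab G p q → M := fun h => if hh : ∃ x ∈ X, h • x ∈ Y then hh.choose else p
    have hx : ∀ h ∈ {h : stab G p q | ∃ x ∈ X, h • x ∈ Y}, x h ∈ X ∧ h • x h ∈ Y := by
      intro h hh
      have : x h = hh.choose := dif_pos hh
      rw [this]
      exact hh.choose_spec
    have hfx : ∀ᶠ h in (f : Filter (stab G p q)), x h ∈ X ∧ h • x h ∈ Y := by
      filter_upwards [hf] with h hh using hx h hh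
    obtain ⟨a, haX, ha⟩ := hX.ultrafilter_le_nhds (f.map x) (by
      rw [le_principal_iff]
      exact hfx.mono fun i hi => hi.1)
    obtain ⟨b, hbY, hb⟩ := hY.ultrafilter_le_nhds (f.map fun h => h • x h) (by
      rw [le_principal_iff]
      exact hfx.mono fun i hi => hi.2)
    have ha' : Tendsto x f (𝓝 a) := ha
    have hb' : Tendsto (fun h => h • x h) f (𝓝 b) := hb
    have hap : a ≠ p := fun h => hpX (h ▸ haX)
    have haq : a ≠ q := fun h => hqX (h ▸ haX)
    have hbp : b ≠ p := fun h => hpY (h ▸ hbY)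
    have hbq : b ≠ q := fun h => hqY (h ▸ hbY)
    obtain ⟨g₀, hg, h1, h2, h3⟩ := hS.conv (F := (f : Filter (stab G p q)))
      (g := fun i => (i : G)) (x := fun _ => p) (y := fun _ => q) (z := x) (a := p) (b := q)
      (c := a) (a' := p) (b' := q) (c' := b) hpq hap.symm haq.symm hpq hbp.symm hbq.symm
      tendsto_const_nhds tendsto_const_nhds ha'
      (by
        refine (tendsto_const_nhds (x := p)).congr fun i => ?_
        exact (mem_stab.1 i.2).1.symm)
      (by
        refine (tendsto_const_nhds (x := q)).congr fun i => ?_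
        exact (mem_stab.1 i.2).2.symm)
      hb'
    refine ⟨⟨g₀, mem_stab.2 ⟨h1, h2⟩⟩, ⟨a, haX, ?_⟩, ?_⟩
    · show g₀ • a ∈ Y
      rw [h3]
      exact hbY
    · rw [nhds_subtype_eq_comap]
      exact tendsto_iff_comap.1 hg
  bp X Y hX hY hpX hqX hpY hqY := by
    obtain ⟨U, hU, h⟩ := hS.bpAux hpq X Y hX hY hpX hqX hpY hqY
    refine ⟨U, hU, fun g x hx y hy h1 h2 => ?_⟩
    exact h (g : G) (mem_stab.1 g.2).1 (mem_stab.1 g.2).2 x hx y hy h1 h2
  bq X Y hX hY hpX hqX hpY hqY := by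
    obtain ⟨U, hU, h⟩ := hS.bpAux hpq.symm X Y hX hY hqX hpX hqY hpY
    refine ⟨U, hU, fun g x hx y hy h1 h2 => ?_⟩
    exact h (g : G) (mem_stab.1 g.2).2 (mem_stab.1 g.2).1 x hx y hy h1 h2
  perfp := hS.perf p
  perfq := hS.perf q

end Pool.Agent.H31.S3
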