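import Pool.Agent.H31.S3.NoEll
import Pool.Agent.H31.S3.TwoOf

/-!
# A compact symmetric set generating a noncompact group (job S3-Q4)

`hS : Sys G M`, `G` totally disconnected, `p ≠ q`.  Some compact symmetric neighbourhood `S` of `1` in
`stab G p q` generates a noncompact group.

Proof by contradiction.  Apply `not_elliptic` to `Q = MulAction.stabilizer G q` (closed in `G`, so locally
compact; totally disconnected as a subspace) and `H = {h : Q | h • p = p}`, that is
`(MulAction.stabilizer G p).subgroupOf Q` or `MulAction.stabilizer Q p`.  Let `T : TwoPt (stab G p q) p q` be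
`hS.twoPt hpq`.  For `g : Q`: `g ∈ H ↔ g • p = p`; and `g • p ≠ q`, as `g • q = q`.
* `hcl`: continuity.
* `hno`: if `H` is open, `H ⊇ Q ∩ U` with `U ∈ 𝓝 (1 : G)`.  Let `r` be a third point and `A, B, C` the
  neighbourhoods of `hS.opn p q r` for `U`; pick `a ∈ A`, `a ≠ p` (`hS.perf p`): there is `g ∈ U` with
  `g p = a`, `g q = q` (`g r = r`): `g ∈ Q ∩ U` but `g p ≠ p`.
* `hs`: `g p, u p ∉ {p,q}`; by `T.trans` there is `a ∈ stab` with `a (g p) = u p`; `b = g⁻¹ a⁻¹ u ∈ Q` has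
  `b p = g⁻¹ (g p) = p`, and `u = a g b`.
* `hf`: `a g = g b`: `a (g p) = g (b p) = g p`, and `a` fixes `p`, `q` and `g p ∉ {p,q}`: `a = 1`
  (`T.free` or `hS.free`).
* `ho`: given `U`, choose `U₁ ⊆ U` and `W₁ ∈ 𝓝 g` with `g⁻¹ a⁻¹ w ∈ U` for `a ∈ U₁`, `w ∈ W₁` (continuity of
  `(a,w) ↦ g⁻¹ a⁻¹ w` at `(1,g)`, value `1`).  `T.opn (g p) U₁` gives `A ∈ 𝓝 (g p)`; for `w ∈ W₁` with
  `w p ∈ A` there is `a ∈ U₁ ∩ H` with `a (g p) = w p`; `b = g⁻¹ a⁻¹ w ∈ H ∩ U`.
* `hell`: let `S ⊆ H` be compact; let `S₀` be a compact neighbourhood of `1` in `stab G p q`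
  (locally compact by `locallyCompact_stab`), `S₁ = S ∪ S⁻¹ ∪ S₀ ∪ S₀⁻¹` (`S` transported to
  `stab G p q`, which is homeomorphic to `H`): by assumption `Subgroup.closure S₁` is compact; transport
  it back to `Q` (image under a continuous homomorphism).
-/

open Filter Topology Set
open scoped Pointwise

namespace Pool.Agent.H31.S3

theorem Sys.exists_noncompact {G M : Type*} [Group G] [TopologicalSpace G] [IsTopologicalGroup G]
    [LocallyCompactSpace G] [T2Space G] [TotallyDisconnectedSpace G] [TopologicalSpace M]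
    [T2Space M] [MulAction G M] [ContinuousSMul G M] (hS : Sys G M) {p q : M} (hpq : p ≠ q) :
    ∃ S : Set (stab G p q), IsCompact S ∧ S ∈ 𝓝 (1 : stab G p q) ∧ (∀ s ∈ S, s⁻¹ ∈ S) ∧
      ¬ IsCompact (Subgroup.closure S : Set (stab G p q)) := by
  classical
  by_contra hcon
  have hcon' : ∀ S : Set (stab G p q), IsCompact S → S ∈ 𝓝 (1 : stab G p q) →
      (∀ s ∈ S, s⁻¹ ∈ S) → IsCompact (Subgroup.closure S : Set (stab G p q)) := by
    intro S h1 h2 h3
    by_contra h4
    exact hcon ⟨S, h1, h2, h3, h4⟩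
  have T : TwoPt (stab G p q) p q := hS.twoPt hpq
  have hlc : LocallyCompactSpace (stab G p q) := locallyCompact_stab p q
  have hQcl : IsClosed (MulAction.stabilizer G q : Set G) :=
    isClosed_eq (continuous_id.smul continuous_const) continuous_const
  have : LocallyCompactSpace (MulAction.stabilizer G q) :=
    hQcl.isClosedEmbedding_subtypeVal.locallyCompactSpace
  set Q : Subgroup G := MulAction.stabilizer G q with hQ
  let H : Subgroup Q := (MulAction.stabilizer G p).subgroupOf Q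
  have hQq : ∀ g : Q, (g : G) • q = q := fun g => g.2
  have hmem : ∀ g : Q, g ∈ H ↔ (g : G) • p = p := by
    intro g
    exact Subgroup.mem_subgroupOf.trans MulAction.mem_stabilizer_iff
  have hcl : IsClosed (H : Set Q) := by
    have h : (H : Set Q) = {g : Q | (g : G) • p = p} := by
      ext g
      exact hmem g
    rw [h]
    exact isClosed_eq (continuous_subtype_val.smul continuous_const) continuous_const
  have hgq : ∀ g : Q, (g : G) • p ≠ q := by
    intro g h
    have h2 : (g : G) • p = (g : G) • q := h.trans (hQq g).symm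
    exact hpq (MulAction.injective (g : G) h2)
  have hno : ¬ IsOpen (H : Set Q) := by
    intro hop
    have h1 : (H : Set Q) ∈ 𝓝 (1 : Q) := hop.mem_nhds (one_mem H)
    rw [nhds_subtype_eq_comap] at h1
    obtain ⟨U, hU, hUH⟩ := mem_comap.1 h1
    have hr : ∃ r : M, p ≠ r ∧ q ≠ r := by
      obtain ⟨x, y, z, hxy, hxz, hyz⟩ := hS.three
      by_contra hno
      have hno' : ∀ r : M, r = p ∨ r = q := by
        intro r
        by_contra hr
        rw [not_or] at hr
        exact hno ⟨r, Ne.symm hr.1, Ne.symm hr.2⟩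
      rcases hno' x with rfl | rfl <;> rcases hno' y with rfl | rfl <;>
        rcases hno' z with rfl | rfl <;> simp_all
    obtain ⟨r, hpr, hqr⟩ := hr
    obtain ⟨A, hA, B, hB, C, hC, h⟩ := hS.opn p q r hpq hpr hqr U hU
    have hA' : A ∈ 𝓝[≠] p := mem_nhdsWithin_of_mem_nhds hA
    obtain ⟨a, haA, hap⟩ := (hS.perf p).nonempty_of_mem (inter_mem hA' self_mem_nhdsWithin)
    obtain ⟨g, hgU, h1, h2, h3⟩ := h a haA q (mem_of_mem_nhds hB) r (mem_of_mem_nhds hC)
    have hg : (⟨g, h2⟩ : Q) ∈ H := hUH hgU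
    rw [hmem] at hg
    exact hap (h1.symm.trans hg)
  have hs : ∀ g u : Q, g ∉ H → u ∉ H → ∃ a ∈ H, ∃ b ∈ H, u = a * g * b := by
    intro g u hg hu
    rw [hmem] at hg hu
    obtain ⟨a, ha⟩ := T.trans ((g : G) • p) ((u : G) • p) hg (hgq g) hu (hgq u)
    have ha' : (a : G) • (g : G) • p = (u : G) • p := ha
    have hap := (mem_stab.1 a.2).1
    have haq := (mem_stab.1 a.2).2
    refine ⟨⟨(a : G), haq⟩, (hmem _).2 hap, g⁻¹ * (⟨(a : G), haq⟩ : Q)⁻¹ * u, ?_, ?_⟩
    · rw [hmem]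
      show ((g : G)⁻¹ * (a : G)⁻¹ * (u : G)) • p = p
      rw [mul_smul, mul_smul, ← ha', inv_smul_smul, inv_smul_smul]
    · group
  have hf : ∀ g ∉ H, ∀ a ∈ H, ∀ b ∈ H, a * g = g * b → a = 1 := by
    intro g hg a ha b hb hab
    rw [hmem] at hg ha hb
    have h1 : (a : G) • (g : G) • p = (g : G) • p := by
      have h2 : (a : G) * (g : G) = (g : G) * (b : G) := congrArg Subtype.val hab
      rw [← mul_smul, h2, mul_smul, hb]
    have h3 := hS.free p q ((g : G) • p) hpq (Ne.symm hg) (Ne.symm (hgq g)) (a : G) ha (hQq a) h1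
    exact Subtype.ext h3
  let ι : stab G p q → Q := fun h => ⟨(h : G), (mem_stab.1 h.2).2⟩
  have hιc : Continuous ι := continuous_subtype_val.subtype_mk _
  have hι1 : ι 1 = 1 := rfl
  have ho : ∀ g ∉ H, ∀ U ∈ 𝓝 (1 : Q), ∃ W ∈ 𝓝 g, ∀ w ∈ W,
      ∃ a ∈ H, ∃ b ∈ H, a ∈ U ∧ b ∈ U ∧ w = a * g * b := by
    intro g hg U hU
    rw [hmem] at hg
    have hc : Tendsto (fun x : Q × Q => g⁻¹ * x.1⁻¹ * x.2) (𝓝 (1, g)) (𝓝 1) := by
      have h1 : Continuous (fun x : Q × Q => g⁻¹ * x.1⁻¹ * x.2) := by fun_prop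
      have h2 := h1.tendsto (1, g)
      simpa using h2
    have hc2 := hc hU
    rw [mem_map, nhds_prod_eq, mem_prod_iff] at hc2
    obtain ⟨U₁, hU₁, W₁, hW₁, hUW⟩ := hc2
    have hU2 : ι ⁻¹' (U ∩ U₁) ∈ 𝓝 (1 : stab G p q) := by
      apply hιc.continuousAt.preimage_mem_nhds
      rw [hι1]
      exact inter_mem hU hU₁
    obtain ⟨A, hA, h⟩ := T.opn ((g : G) • p) hg (hgq g) _ hU2
    have hcw : Continuous (fun w : Q => (w : G) • p) :=
      continuous_subtype_val.smul continuous_const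
    refine ⟨W₁ ∩ (fun w : Q => (w : G) • p) ⁻¹' A,
      inter_mem hW₁ (hcw.continuousAt.preimage_mem_nhds hA), ?_⟩
    rintro w ⟨hwW, hwA⟩
    obtain ⟨a, haU, ha⟩ := h _ hwA
    have ha' : (a : G) • (g : G) • p = (w : G) • p := ha
    have hap := (mem_stab.1 a.2).1
    have hb : g⁻¹ * (ι a)⁻¹ * w ∈ H := by
      rw [hmem]
      show ((g : G)⁻¹ * (a : G)⁻¹ * (w : G)) • p = p
      rw [mul_smul, mul_smul, ← ha', inv_smul_smul, inv_smul_smul]
    refine ⟨ι a, (hmem _).2 hap, g⁻¹ * (ι a)⁻¹ * w, hb, haU.1, ?_, by group⟩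
    exact hUW (mk_mem_prod haU.2 hwW)
  have hιe : IsClosedEmbedding ι := by
    have h1 : IsClosedEmbedding (((↑) : Q → G) ∘ ι) :=
      (isClosed_stab p q).isClosedEmbedding_subtypeVal
    refine ⟨IsEmbedding.of_comp hιc continuous_subtype_val h1.isEmbedding, ?_⟩
    have h2 : Set.range ι = (H : Set Q) := by
      ext g
      constructor
      · rintro ⟨h, rfl⟩
        exact (hmem _).2 (mem_stab.1 h.2).1
      · intro hg
        exact ⟨⟨(g : G), mem_stab.2 ⟨(hmem g).1 hg, hQq g⟩⟩, rfl⟩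
    rw [h2]
    exact hcl
  have hell : ∀ S : Set Q, IsCompact S → S ⊆ H →
      ∃ C : Subgroup Q, IsCompact (C : Set Q) ∧ S ⊆ C ∧ C ≤ H := by
    intro S hSc hSH
    let j : stab G p q →* Q :=
      { toFun := ι
        map_one' := rfl
        map_mul' := fun _ _ => rfl }
    have hS' : IsCompact (ι ⁻¹' S) := hιe.isCompact_preimage hSc
    obtain ⟨S₀, hS₀, hS₀n⟩ := exists_compact_mem_nhds (1 : stab G p q)
    let S₁ : Set (stab G p q) := (ι ⁻¹' S ∪ S₀) ∪ (ι ⁻¹' S ∪ S₀)⁻¹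
    have hS₁ : IsCompact S₁ := (hS'.union hS₀).union (hS'.union hS₀).inv
    have hS₁n : S₁ ∈ 𝓝 (1 : stab G p q) :=
      mem_of_superset hS₀n (fun x hx => Or.inl (Or.inr hx))
    have hS₁i : ∀ s ∈ S₁, s⁻¹ ∈ S₁ := by
      rintro s (hs | hs)
      · exact Or.inr (by simpa using hs)
      · exact Or.inl hs
    have hK := hcon' S₁ hS₁ hS₁n hS₁i
    refine ⟨(Subgroup.closure S₁).map j, ?_, ?_, ?_⟩
    · have : ((Subgroup.closure S₁).map j : Set Q) = ι '' (Subgroup.closure S₁ : Set _) := rfl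
      rw [this]
      exact hK.image hιc
    · intro s hs
      have hsH := (hmem s).1 (hSH hs)
      refine ⟨⟨(s : G), mem_stab.2 ⟨hsH, hQq s⟩⟩, Subgroup.subset_closure (Or.inl (Or.inl hs)), rfl⟩
    · rintro _ ⟨h, -, rfl⟩
      exact (hmem _).2 (mem_stab.1 h.2).1
  exact not_elliptic hcl hno hs hf ho hell

end Pool.Agent.H31.S3
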