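import Pool.Agent.H31.S3.Conv

/-!
# The attracting fixed point of `g` on `Y` (job S3-P1)

`Y` compact with at least three points, preserved by `g` and `g⁻¹`, `ToInf g`.  Then there are
`α, β ∈ Y` with `g α = α` such that `α` lies in every closed set `D` containing all `g^n x`, `n ≥ 1`, for
one `x ∈ Y`, `x ≠ β`.

Proof.  `𝒰 = hyperfilter ℕ`, `Sys.convergence` for `i ↦ g^i`: `α, β`.  For `x ∈ Y`, `x ≠ β`: `g^n x → α` along
`𝒰` (take `B = {x}ᶜ`).  This gives the statement on `D`.  Let `r ∈ Y` be different from `β` and `g⁻¹ β`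
(three points).  Then `g^n (g r) → α` as `g r ≠ β`, and `g^n (g r) = g (g^n r) → g α`; limits are unique.
-/

open Filter Topology Set
open scoped Pointwise

namespace Pool.Agent.H31.S3

theorem Sys.attract {G M : Type*} [Group G] [TopologicalSpace G] [IsTopologicalGroup G]
    [LocallyCompactSpace G] [TopologicalSpace M] [T2Space M] [MulAction G M] [ContinuousSMul G M]
    (hS : Sys G M) {Y : Set M} (hY : IsCompact Y)
    (h3 : ∃ x ∈ Y, ∃ y ∈ Y, ∃ z ∈ Y, x ≠ y ∧ x ≠ z ∧ y ≠ z) {g : G} (hg : ToInf g)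
    (hin : ∀ y ∈ Y, g • y ∈ Y) (hin' : ∀ y ∈ Y, g⁻¹ • y ∈ Y) :
    ∃ α ∈ Y, ∃ β ∈ Y, g • α = α ∧
      ∀ x ∈ Y, x ≠ β → ∀ D : Set M, IsClosed D → (∀ n : ℕ, 1 ≤ n → g ^ n • x ∈ D) → α ∈ D := by
  have hle : ((hyperfilter ℕ : Ultrafilter ℕ) : Filter ℕ) ≤ atTop := Nat.hyperfilter_le_atTop
  have hpow : ∀ n : ℕ, (∀ y ∈ Y, g ^ n • y ∈ Y) ∧ (∀ y ∈ Y, (g ^ n)⁻¹ • y ∈ Y) := by
    intro n
    induction n with
    | zero =>
      rw [pow_zero, inv_one]
      exact ⟨fun y hy => by rwa [one_smul], fun y hy => by rwa [one_smul]⟩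
    | succ n ih =>
      refine ⟨fun y hy => ?_, fun y hy => ?_⟩
      · rw [pow_succ, mul_smul]
        exact ih.1 _ (hin y hy)
      · rw [pow_succ, mul_inv_rev, mul_smul]
        exact hin' _ (ih.2 y hy)
  obtain ⟨α, hα, β, hβ, hAB⟩ := hS.convergence (𝒰 := hyperfilter ℕ) (g := fun n : ℕ => g ^ n)
    (hg.mono_left hle) hY h3 (Eventually.of_forall fun n => (hpow n).1)
    (Eventually.of_forall fun n => (hpow n).2)
  have hlim : ∀ x ∈ Y, x ≠ β →
      Tendsto (fun n : ℕ => g ^ n • x) ((hyperfilter ℕ : Ultrafilter ℕ) : Filter ℕ) (𝓝 α) := by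
    intro x hx hxβ A hA
    exact (hAB A hA {x}ᶜ (isOpen_compl_singleton.mem_nhds hxβ.symm)).mono
      fun n hn => hn x hx (fun h => h rfl)
  refine ⟨α, hα, β, hβ, ?_, ?_⟩
  · obtain ⟨r, hr, hrβ, hgr⟩ : ∃ r ∈ Y, r ≠ β ∧ g • r ≠ β := by
      obtain ⟨x, hx, y, hy, z, hz, hxy, hxz, hyz⟩ := h3
      by_contra hcon
      push Not at hcon
      have hc : ∀ w ∈ Y, w ≠ β → w = g⁻¹ • β := fun w hw h => by
        rw [← hcon w hw h, inv_smul_smul]
      by_cases h1 : x = β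
      · have h2 : y ≠ β := fun h => hxy (h1.trans h.symm)
        have h4 : z ≠ β := fun h => hxz (h1.trans h.symm)
        exact hyz ((hc y hy h2).trans (hc z hz h4).symm)
      · by_cases h2 : y = β
        · have h4 : z ≠ β := fun h => hyz (h2.trans h.symm)
          exact hxz ((hc x hx h1).trans (hc z hz h4).symm)
        · exact hxy ((hc x hx h1).trans (hc y hy h2).symm)
    have h5 := hlim (g • r) (hin r hr) hgr
    have h6 := (hlim r hr hrβ).const_smul g
    have h7 : (fun n : ℕ => g ^ n • g • r) = fun n : ℕ => g • g ^ n • r := by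
      funext n
      rw [smul_smul, smul_smul, ← pow_succ, ← pow_succ']
    rw [h7] at h5
    exact tendsto_nhds_unique h6 h5
  · intro x hx hxβ D hD hDn
    refine hD.mem_of_tendsto (hlim x hx hxβ) ?_
    have h8 : ∀ᶠ n : ℕ in ((hyperfilter ℕ : Ultrafilter ℕ) : Filter ℕ), 1 ≤ n :=
      hle (eventually_ge_atTop 1)
    exact h8.mono fun n hn => hDn n hn

end Pool.Agent.H31.S3
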