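import Pool.Agent.H31.S3.DiffC

/-!
# The basin of attraction of `p` (job S3-G2)

`T : TwoPt H p q`, `t : H`, `ToInf t`, `Contr t p`, `t^n x → p`, `t^(-n) x' → q`.
Claim: `t^n (h x) → p` for every `h : H`.

Proof.  Let `O` be the contracted neighbourhood of `p`, `W ⊆ O` a compact neighbourhood of `p`,
`q ∉ W`, and `W'` a compact neighbourhood of `q`, `p ∉ W'`.  Let `S₀` be a compact neighbourhood of `1` in
`H` and `S = S₀ ∪ S₀⁻¹ ∪ {t, t⁻¹, h, h⁻¹}`, `K = Subgroup.closure S`.  By `TwoPt.cross` (for `T, W, x` and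
for `T.symm, W', x'`), `TwoPt.pairC` (with `y = x`) and `exists_pow_superset` there is `m` (maximum of
three, `pow_mono'`) with `hd`, `hd'`, `hAA` of `TwoPt.diffC`.  For `N` large `k = t^N` has `k x ∈ W`,
`k⁻¹ x' ∈ W'`, `k ∉ S^(2m)` (compact), `N ≥ 1`.  Let `C` be the compact set of `TwoPt.diffC`.

(1) If some `n` has `(k^n * h) x ∈ W` then `t^(N n) (h x) ∈ O` and the claim follows from `Contr`.
So assume `(k^n * h) x ∉ W` for all `n`.
(2) Let `u ∈ K`, `u x ∉ W`.  Since `(u * k^j) x = u (t^(N j) x) → u p = p`, there is a smallest `j` with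
`(u * k^j) x ∈ W`; `j ≥ 1` and `(u * k^(j-1)) x ∉ W`, so `u * k^j ∈ C`.  For `u = k^n * h` this gives
`j n ≥ 1` with `c n = k^n * h * k^(j n) ∈ C`.
(3) For every `J`, `j n > J` for `n` large: otherwise `k^n ∈ ⋃_{j ≤ J} C k^(-j) h⁻¹`, a compact set, for
arbitrarily large `n`, contradiction to `ToInf.pow`, `ToInf.eventually_notMem`.
(4) Let `U ∈ 𝓝 q` be the set of `T.bq {h x'} {x'}`.  By `T.symm.tube` (for the compact set `C`) there is
an open `U' ∋ q` with `c y ∈ U` for `c ∈ C`, `y ∈ U'`.  `k^(-j) x' ∈ U'` for `j > J`.  For `n` large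
`k^n (h x') = c n (k^(-j n) x') ∈ U` and `(k^n)⁻¹ x' ∈ U`: contradiction.
-/

open Filter Topology Set
open scoped Pointwise

namespace Pool.Agent.H31.S3

variable {H M : Type*} [Group H] [TopologicalSpace H] [IsTopologicalGroup H]
  [LocallyCompactSpace H] [TopologicalSpace M] [T2Space M] [LocallyCompactSpace M]
  [MulAction H M] [ContinuousSMul H M] {p q : M}

theorem basin_isCompact_pow {S : Set H} (hS : IsCompact S) (n : ℕ) : IsCompact (S ^ n) := by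
  induction n with
  | zero => rw [pow_zero]; exact isCompact_singleton
  | succ n ih => rw [pow_succ]; exact ih.mul hS

theorem TwoPt.basin (T : TwoPt H p q) {t : H} (ht : ToInf t) (hc : Contr t p) {x x' : M}
    (hxp : x ≠ p) (hxq : x ≠ q) (hxp' : x' ≠ p) (hxq' : x' ≠ q)
    (hx : Tendsto (fun n : ℕ => t ^ n • x) atTop (𝓝 p))
    (hx' : Tendsto (fun n : ℕ => (t⁻¹) ^ n • x') atTop (𝓝 q)) (h : H) :
    Tendsto (fun n : ℕ => t ^ n • h • x) atTop (𝓝 p) := by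
  obtain ⟨O, hO, hOc⟩ := hc
  -- the compact neighbourhoods
  obtain ⟨W, hWp, hWO, hW⟩ := local_compact_nhds
    (inter_mem hO (isOpen_compl_singleton.mem_nhds (show p ∈ ({q} : Set M)ᶜ from T.ne)))
  have hqW : q ∉ W := fun hq => (hWO hq).2 rfl
  obtain ⟨W', hWq', hWO', hW'⟩ := local_compact_nhds
    (isOpen_compl_singleton.mem_nhds (show q ∈ ({p} : Set M)ᶜ from T.ne.symm))
  have hpW' : p ∉ W' := fun hp => (hWO' hp) rfl
  obtain ⟨S₀, hS₀, hS₀n⟩ := exists_compact_mem_nhds (1 : H)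
  obtain ⟨S, hSdef⟩ : ∃ S : Set H, S = (S₀ ∪ S₀⁻¹) ∪ ({t, t⁻¹, h, h⁻¹} : Set H) := ⟨_, rfl⟩
  have hS : IsCompact S := by
    rw [hSdef]
    exact (hS₀.union hS₀.inv).union (Set.Finite.isCompact (by simp))
  have hSn : S ∈ 𝓝 (1 : H) := by
    rw [hSdef]
    exact mem_of_superset hS₀n fun s hs => Or.inl (Or.inl hs)
  have h1 : (1 : H) ∈ S := mem_of_mem_nhds hSn
  have hinv : ∀ s ∈ S, s⁻¹ ∈ S := by
    intro s hs
    rw [hSdef] at hs ⊢
    rcases hs with (hs | hs) | hs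
    · exact Or.inl (Or.inr (by simpa using hs))
    · exact Or.inl (Or.inl (by simpa using hs))
    · refine Or.inr ?_
      simp only [mem_insert_iff, mem_singleton_iff] at hs ⊢
      rcases hs with rfl | rfl | rfl | rfl
      · exact Or.inr (Or.inl rfl)
      · exact Or.inl (inv_inv t)
      · exact Or.inr (Or.inr (Or.inr rfl))
      · exact Or.inr (Or.inr (Or.inl (inv_inv h)))
  have htS : t ∈ Subgroup.closure S := Subgroup.subset_closure (by rw [hSdef]; simp)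
  have hhS : h ∈ Subgroup.closure S := Subgroup.subset_closure (by rw [hSdef]; simp)
  -- the exponent `m`
  obtain ⟨C₁, hC₁, hC₁'⟩ := T.cross hW hWp hqW hxp hxq hS hinv
  obtain ⟨C₂, hC₂, hC₂'⟩ := T.symm.cross hW' hWq' hpW' hxq' hxp' hS hinv
  obtain ⟨C₃, hC₃, hC₃'⟩ := T.pairC hW hqW hxp hxq hxp hxq
  obtain ⟨m₁, hm₁⟩ := exists_pow_superset hSn hinv hC₁
  obtain ⟨m₂, hm₂⟩ := exists_pow_superset hSn hinv hC₂
  obtain ⟨m₃, hm₃⟩ := exists_pow_superset hSn hinv hC₃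
  obtain ⟨m, hmm₁, hmm₂, hmm₃⟩ : ∃ m : ℕ, m₁ ≤ m ∧ m₂ ≤ m ∧ m₃ ≤ m :=
    ⟨max m₁ (max m₂ m₃), le_max_left _ _, (le_max_left _ _).trans (le_max_right _ _),
      (le_max_right _ _).trans (le_max_right _ _)⟩
  have hd : ∀ u ∈ Subgroup.closure S, (∃ s ∈ S, (s * u) • x ∈ W) → (∃ s ∈ S, (s * u) • x ∉ W) →
      u ∈ S ^ m := fun u hu a b => pow_mono' h1 hmm₁ (hm₁ u (hC₁' u a b) hu)
  have hd' : ∀ u ∈ Subgroup.closure S, (∃ s ∈ S, (s * u) • x' ∈ W') →
      (∃ s ∈ S, (s * u) • x' ∉ W') → u ∈ S ^ m :=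
    fun u hu a b => pow_mono' h1 hmm₂ (hm₂ u (hC₂' u a b) hu)
  have hAA : ∀ u ∈ Subgroup.closure S, u • x ∈ W → u⁻¹ • x ∈ W → u ∈ S ^ m :=
    fun u hu a b => pow_mono' h1 hmm₃ (hm₃ u (hC₃' u a b) hu)
  -- the power `k`
  obtain ⟨N₁, hN₁⟩ := ht.eventually_notMem (basin_isCompact_pow hS (2 * m))
  obtain ⟨N, hN1, hNx, hNx', hNS⟩ : ∃ N : ℕ, 1 ≤ N ∧ t ^ N • x ∈ W ∧ (t⁻¹) ^ N • x' ∈ W' ∧
      t ^ N ∉ S ^ (2 * m) := by
    have e1 : ∀ᶠ n : ℕ in atTop, t ^ n • x ∈ W := hx hWp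
    have e2 : ∀ᶠ n : ℕ in atTop, (t⁻¹) ^ n • x' ∈ W' := hx' hWq'
    obtain ⟨N, a, b, c, d⟩ := ((eventually_ge_atTop 1).and (e1.and (e2.and
      (eventually_ge_atTop N₁)))).exists
    exact ⟨N, a, b, c, hN₁ N d⟩
  obtain ⟨k, hk⟩ : ∃ k : H, k = t ^ N := ⟨_, rfl⟩
  have hkS : k ∈ Subgroup.closure S := by rw [hk]; exact pow_mem htS N
  have hkA : k • x ∈ W := by rw [hk]; exact hNx
  have hkA' : k⁻¹ • x' ∈ W' := by rw [hk, ← inv_pow]; exact hNx'
  have hk2 : k ∉ S ^ (2 * m) := by rw [hk]; exact hNS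
  have hkInf : ToInf k := by rw [hk]; exact ht.pow hN1
  have hNmul : Tendsto (fun n : ℕ => N * n) atTop atTop := tendsto_id.const_mul_atTop' (by omega)
  have hkx : Tendsto (fun n : ℕ => k ^ n • x) atTop (𝓝 p) := by
    have : (fun n : ℕ => k ^ n • x) = (fun n : ℕ => t ^ n • x) ∘ fun n => N * n := by
      funext n
      simp [hk, pow_mul]
    rw [this]
    exact hx.comp hNmul
  have hkx' : Tendsto (fun n : ℕ => (k ^ n)⁻¹ • x') atTop (𝓝 q) := by
    have : (fun n : ℕ => (k ^ n)⁻¹ • x') = (fun n : ℕ => (t⁻¹) ^ n • x') ∘ fun n => N * n := by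
      funext n
      simp [hk, pow_mul]
    rw [this]
    exact hx'.comp hNmul
  obtain ⟨C, hC, hCd⟩ := T.diffC hW' hpW' hxp' hxq' hS h1 hinv hd hd' hAA hkS hkA hkA' hk2
  -- (1)
  by_cases hex : ∃ n : ℕ, (k ^ n * h) • x ∈ W
  · obtain ⟨n, hn⟩ := hex
    have hn' : t ^ (N * n) • h • x ∈ O := by
      have := (hWO hn).1
      rwa [mul_smul, hk, ← pow_mul] at this
    rw [tendsto_atTop']
    intro U hU
    obtain ⟨N₀, hN₀⟩ := hOc U hU
    refine ⟨N₀ + N * n, fun b hb => ?_⟩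
    have h5 := hN₀ (b - N * n) (by omega) _ hn'
    rw [smul_smul, ← pow_add] at h5
    have h6 : b - N * n + N * n = b := by omega
    rwa [h6] at h5
  exfalso
  push Not at hex
  -- (2)
  have step : ∀ u ∈ Subgroup.closure S, u • x ∉ W → ∃ j : ℕ, 1 ≤ j ∧ u * k ^ j ∈ C := by
    intro u hu hux
    have hlim : Tendsto (fun j : ℕ => u • k ^ j • x) atTop (𝓝 (u • p)) := hkx.const_smul u
    rw [T.fixp] at hlim
    have hexj : ∃ j : ℕ, (u * k ^ j) • x ∈ W := by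
      have e1 : ∀ᶠ j : ℕ in atTop, u • k ^ j • x ∈ W := hlim hWp
      obtain ⟨j, hj⟩ := e1.exists
      exact ⟨j, by rw [mul_smul]; exact hj⟩
    classical
    have hfind := Nat.find_spec hexj
    obtain ⟨j, hj⟩ : ∃ j, j = Nat.find hexj := ⟨_, rfl⟩
    rw [← hj] at hfind
    have hj0 : j ≠ 0 := by
      intro h0
      rw [h0, pow_zero, mul_one] at hfind
      exact hux hfind
    obtain ⟨i, rfl⟩ := Nat.exists_eq_succ_of_ne_zero hj0
    have hmin : (u * k ^ i) • x ∉ W := Nat.find_min hexj (by omega)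
    refine ⟨i + 1, by omega, hCd _ (mul_mem hu (pow_mem hkS _)) hfind ?_⟩
    have : u * k ^ i.succ * k⁻¹ = u * k ^ i := by
      rw [Nat.succ_eq_add_one, pow_succ, mul_assoc, mul_assoc, mul_inv_cancel, mul_one]
    rw [this]
    exact hmin
  have step2 : ∀ n : ℕ, ∃ j : ℕ, 1 ≤ j ∧ k ^ n * h * k ^ j ∈ C := fun n =>
    step _ (mul_mem (pow_mem hkS n) hhS) (hex n)
  choose j hj1 hjC using step2
  -- (3)
  have large : ∀ J : ℕ, ∃ n₀ : ℕ, ∀ n ≥ n₀, J < j n := by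
    intro J
    obtain ⟨n₀, hn₀⟩ := hkInf.eventually_notMem (C := ⋃ i ∈ Finset.range (J + 1),
      C * {(k ^ i)⁻¹ * h⁻¹}) ((Finset.range (J + 1)).isCompact_biUnion fun i _ =>
        hC.mul isCompact_singleton)
    refine ⟨n₀, fun n hn => ?_⟩
    by_contra hcon
    refine hn₀ n hn ?_
    rw [mem_iUnion₂]
    refine ⟨j n, Finset.mem_range.2 (by omega), ?_⟩
    refine ⟨k ^ n * h * k ^ j n, hjC n, _, rfl, ?_⟩
    group
  -- (4)
  have hhp : h • x' ≠ p := by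
    intro he
    apply hxp'
    have := congrArg (fun z => h⁻¹ • z) he
    simpa [T.fixp] using this
  have hhq : h • x' ≠ q := by
    intro he
    apply hxq'
    have := congrArg (fun z => h⁻¹ • z) he
    simpa [T.fixq] using this
  obtain ⟨U, hU, hUb⟩ := T.bq {h • x'} {x'} isCompact_singleton isCompact_singleton
    (fun he => hhp (mem_singleton_iff.1 he).symm) (fun he => hhq (mem_singleton_iff.1 he).symm)
    (fun he => hxp' (mem_singleton_iff.1 he).symm) (fun he => hxq' (mem_singleton_iff.1 he).symm)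
  obtain ⟨U', -, hU'o, hqU', hU'⟩ := T.symm.tube hC hU
  have e3 : ∀ᶠ n : ℕ in atTop, (k ^ n)⁻¹ • x' ∈ U' := hkx' (hU'o.mem_nhds hqU')
  have e4 : ∀ᶠ n : ℕ in atTop, (k ^ n)⁻¹ • x' ∈ U := hkx' hU
  obtain ⟨J, hJ⟩ := eventually_atTop.1 e3
  obtain ⟨n₀, hn₀⟩ := large J
  obtain ⟨n, hn, hn2⟩ := ((eventually_ge_atTop n₀).and e4).exists
  have h7 : k ^ n • h • x' ∈ U := by
    have h8 := hU' _ (hjC n) _ (hJ (j n) (hn₀ n hn).le)
    rw [smul_smul, mul_assoc, mul_inv_cancel, mul_one, mul_smul] at h8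
    exact h8
  exact hUb (k ^ n) _ (mem_singleton _) _ (mem_singleton _) h7 hn2

end Pool.Agent.H31.S3
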