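import Mathlib

/-!
# Sharply 3-transitive actions of locally compact groups: definitions

MP_67c715_al.  `Sys G M`: what is used of a sharply 3-transitive continuous action of a
sigma-compact non-discrete locally compact group `G` on a locally compact space `M`.
`TwoPt H p q`: what is used of the stabiliser `H` of two points `p ≠ q` acting on `M`.
-/

open Filter Topology Set

namespace Pool.Agent.H31.S3

/-- sharply 3-transitive action with open orbit map `G → M^(3)`, `M` without isolated points -/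
structure Sys (G M : Type*) [Group G] [TopologicalSpace G] [TopologicalSpace M] [MulAction G M] :
    Prop where
  three : ∃ x y z : M, x ≠ y ∧ x ≠ z ∧ y ≠ z
  trans : ∀ x y z x' y' z' : M, x ≠ y → x ≠ z → y ≠ z → x' ≠ y' → x' ≠ z' → y' ≠ z' →
    ∃ g : G, g • x = x' ∧ g • y = y' ∧ g • z = z'
  free : ∀ x y z : M, x ≠ y → x ≠ z → y ≠ z →
    ∀ g : G, g • x = x → g • y = y → g • z = z → g = 1
  opn : ∀ x y z : M, x ≠ y → x ≠ z → y ≠ z → ∀ U ∈ 𝓝 (1 : G),
    ∃ A ∈ 𝓝 x, ∃ B ∈ 𝓝 y, ∃ C ∈ 𝓝 z, ∀ a ∈ A, ∀ b ∈ B, ∀ c ∈ C,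
      ∃ g ∈ U, g • x = a ∧ g • y = b ∧ g • z = c
  perf : ∀ x : M, (𝓝[≠] x).NeBot

/-- a group `H` fixing `p` and `q`, simply transitive and proper on the other points, with the
property `bp` (Lemma B) at `p` and at `q` -/
structure TwoPt (H : Type*) {M : Type*} [Group H] [TopologicalSpace H] [TopologicalSpace M]
    [MulAction H M] (p q : M) : Prop where
  ne : p ≠ q
  fixp : ∀ h : H, h • p = p
  fixq : ∀ h : H, h • q = q
  trans : ∀ x y : M, x ≠ p → x ≠ q → y ≠ p → y ≠ q → ∃ h : H, h • x = y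
  free : ∀ x : M, x ≠ p → x ≠ q → ∀ h : H, h • x = x → h = 1
  opn : ∀ x : M, x ≠ p → x ≠ q → ∀ U ∈ 𝓝 (1 : H), ∃ A ∈ 𝓝 x, ∀ a ∈ A, ∃ h ∈ U, h • x = a
  proper : ∀ X Y : Set M, IsCompact X → IsCompact Y → p ∉ X → q ∉ X → p ∉ Y → q ∉ Y →
    ∃ C : Set H, IsCompact C ∧ ∀ h : H, ∀ x ∈ X, h • x ∈ Y → h ∈ C
  bp : ∀ X Y : Set M, IsCompact X → IsCompact Y → p ∉ X → q ∉ X → p ∉ Y → q ∉ Y →
    ∃ U ∈ 𝓝 p, ∀ h : H, ∀ x ∈ X, ∀ y ∈ Y, h • x ∈ U → h⁻¹ • y ∉ U
  bq : ∀ X Y : Set M, IsCompact X → IsCompact Y → p ∉ X → q ∉ X → p ∉ Y → q ∉ Y →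
    ∃ U ∈ 𝓝 q, ∀ h : H, ∀ x ∈ X, ∀ y ∈ Y, h • x ∈ U → h⁻¹ • y ∉ U
  perfp : (𝓝[≠] p).NeBot
  perfq : (𝓝[≠] q).NeBot

/-- exchange of `p` and `q` -/
theorem TwoPt.symm {H M : Type*} [Group H] [TopologicalSpace H] [TopologicalSpace M]
    [MulAction H M] {p q : M} (h : TwoPt H p q) : TwoPt H q p where
  ne := h.ne.symm
  fixp := h.fixq
  fixq := h.fixp
  trans x y a b c d := h.trans x y b a d c
  free x a b := h.free x b a
  opn x a b := h.opn x b a
  proper X Y a b c d e f := h.proper X Y a b d c f e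
  bp X Y a b c d e f := h.bq X Y a b d c f e
  bq X Y a b c d e f := h.bp X Y a b d c f e
  perfp := h.perfq
  perfq := h.perfp

/-- the powers `t^n` tend to infinity -/
def ToInf {H : Type*} [Group H] [TopologicalSpace H] (t : H) : Prop :=
  Tendsto (fun n : ℕ => t ^ n) atTop (cocompact H)

/-- `t` contracts a neighbourhood of `p` to `p` -/
def Contr {H M : Type*} [Group H] [TopologicalSpace M] [MulAction H M] (t : H) (p : M) : Prop :=
  ∃ O ∈ 𝓝 p, ∀ U ∈ 𝓝 p, ∃ N : ℕ, ∀ n ≥ N, ∀ y ∈ O, t ^ n • y ∈ U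

/-- the stabiliser of the two points `p`, `q` -/
def stab (G : Type*) {M : Type*} [Group G] [MulAction G M] (p q : M) : Subgroup G :=
  MulAction.stabilizer G p ⊓ MulAction.stabilizer G q

theorem mem_stab {G M : Type*} [Group G] [MulAction G M] {p q : M} {g : G} :
    g ∈ stab G p q ↔ g • p = p ∧ g • q = q := by
  simp [stab, MulAction.mem_stabilizer_iff]

/-- the elements `g` with `t^n g t^(-n) ∈ V` for all `n ≥ 0` -/
def minus {G : Type*} [Group G] (t : G) (V : Subgroup G) : Set G :=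
  {g | ∀ n : ℕ, t ^ n * g * (t ^ n)⁻¹ ∈ V}

/-- the elements `g` with `t^(-n) g t^n ∈ V` for all `n ≥ 0` -/
def plus {G : Type*} [Group G] (t : G) (V : Subgroup G) : Set G :=
  {g | ∀ n : ℕ, (t ^ n)⁻¹ * g * t ^ n ∈ V}

end Pool.Agent.H31.S3
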