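import Pool.Agent.H31.S3.VanD
import Pool.Agent.H31.S3.Defs

/-!
# Rescaled blocks (job S3-L)

`V` a compact open subgroup, `W = V p = {g p | g ∈ V}`, every point of `W` is `b p` with
`b ∈ minus t V = {b | ∀ n, t^n b t^(-n) ∈ V}`, `t p = p`, and `t^n W → {p}`.

Proof.  (0) `t W ⊆ W`: `t g p = t b p = (t b t⁻¹) p` with `b ∈ minus t V`.  `t^n W` is a neighbourhood
of `p` and `t^(n+1) W ⊆ t^n W`.
(1) By `exists_normal_sub` there is an open subgroup `N ≤ V`, normalised by `V`, with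
`N p ⊆ t^n W` (the set `{g | g p ∈ t^n W}` is a neighbourhood of `1`).
(2) `N p` is a neighbourhood of `p` (`hopn`), so it contains a point `z ≠ p` (`hperf`), and `z ∉ t^k W`
for `k` large (`hcon` for `U = {z}ᶜ`).  So there is a largest `k` with `N p ⊆ t^k W`, and `k ≥ n`
(`Nat.findGreatest` or `Nat.find` for the failure of `N p ⊆ t^(k+1) W` among `k ≥ n`).
(3) `Y = {y | t^k y ∈ N p}`; `p ∈ Y ⊆ W`.  There is `y ∈ Y`, `y ∉ t W` (`N p ⊄ t^(k+1) W`); `y ∈ W`, so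
`y = v p` with `v ∈ minus t V`.  `v ∈ V` (case `n = 0` of the definition).
(4) `u = t^k v t^(-k) ∈ V` and `u p = t^k y = n₀ p`, `n₀ ∈ N`.  For `y' ∈ Y`, `t^k y' = n₁ p`:
`t^k v y' = u n₁ p = (u n₁ u⁻¹) n₀ p ∈ N p`, so `v y' ∈ Y`.  And
`t^k v⁻¹ y' = u⁻¹ n₁ p = (u⁻¹ n₁ u) u⁻¹ p` with `u⁻¹ p = (u⁻¹ n₀ u)⁻¹ p` (from `p = u⁻¹ n₀ p`), so
`v⁻¹ y' ∈ Y`.
(5) `m ≤ n`, `a ∈ minus t V`, `a p = p`: `u = t^(k-m) a t^(-(k-m)) ∈ V` fixes `p` and for `y' ∈ Y`,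
`t^k (t^(-m) a t^m) y' = u t^k y' = u n₁ p = (u n₁ u⁻¹) p ∈ N p`.
-/

open Filter Topology Set
open scoped Pointwise

namespace Pool.Agent.H31.S3

theorem exists_block {G M : Type*} [Group G] [TopologicalSpace G] [IsTopologicalGroup G]
    [T2Space G] [TotallyDisconnectedSpace G] [TopologicalSpace M]
    [T2Space M] [MulAction G M] [ContinuousSMul G M] {p : M} {t : G} (htp : t • p = p)
    (hopn : ∀ U ∈ 𝓝 (1 : G), (fun g : G => g • p) '' U ∈ 𝓝 p) (hperf : (𝓝[≠] p).NeBot)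
    {V : Subgroup G} (hVo : IsOpen (V : Set G)) (hVc : IsCompact (V : Set G))
    (hV : ∀ g ∈ V, ∃ b ∈ minus t V, b • p = g • p)
    (hcon : ∀ U ∈ 𝓝 p, ∃ N : ℕ, ∀ n ≥ N, ∀ g ∈ V, t ^ n • g • p ∈ U) (n : ℕ) :
    ∃ (Y : Set M) (v : G), p ∈ Y ∧ (∀ y ∈ Y, ∃ g ∈ V, y = g • p) ∧ v ∈ V ∧
      (∀ g ∈ V, v • p ≠ t • g • p) ∧ (∀ y ∈ Y, v • y ∈ Y) ∧ (∀ y ∈ Y, v⁻¹ • y ∈ Y) ∧
      (∀ m ≤ n, ∀ a ∈ minus t V, a • p = p → ∀ y ∈ Y, ((t ^ m)⁻¹ * a * t ^ m) • y ∈ Y) := by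
  have htk : ∀ j : ℕ, t ^ j • p = p := by
    intro j
    induction j with
    | zero => rw [pow_zero, one_smul]
    | succ j ih => rw [pow_succ, mul_smul, htp, ih]
  have htk' : ∀ j : ℕ, (t ^ j)⁻¹ • p = p := by
    intro j
    rw [inv_smul_eq_iff, htk]
  -- `t^k W`
  set T : ℕ → Set M := fun j => {y | ∃ g ∈ V, y = t ^ j • g • p} with hT
  have hW0 : ∀ g ∈ V, ∃ g' ∈ V, t • g • p = g' • p := by
    intro g hg
    obtain ⟨b, hb, hbp⟩ := hV g hg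
    have hb1 := hb 1
    rw [pow_one] at hb1
    refine ⟨_, hb1, ?_⟩
    rw [← hbp, mul_smul, mul_smul]
    congr 2
    rw [eq_inv_smul_iff, htp]
  have hTstep : ∀ j, T (j + 1) ⊆ T j := by
    rintro j y ⟨g, hg, rfl⟩
    obtain ⟨g', hg', h⟩ := hW0 g hg
    exact ⟨g', hg', by rw [pow_succ, mul_smul, h]⟩
  have hVn : (V : Set G) ∈ 𝓝 (1 : G) := hVo.mem_nhds V.one_mem
  have hTn : T n ∈ 𝓝 p := by
    have h1 := hopn _ hVn
    have h2 : Tendsto (fun y : M => (t ^ n)⁻¹ • y) (𝓝 p) (𝓝 p) := by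
      have h3 : Continuous fun y : M => (t ^ n)⁻¹ • y := continuous_const_smul _
      have h4 := h3.tendsto p
      rwa [htk'] at h4
    filter_upwards [h2 h1] with y hy
    obtain ⟨g, hg, hgy⟩ := hy
    refine ⟨g, hg, ?_⟩
    have hgy' : g • p = (t ^ n)⁻¹ • y := hgy
    rw [hgy', smul_inv_smul]
  have hcont : {g : G | g • p ∈ T n} ∈ 𝓝 (1 : G) := by
    have h3 : Continuous fun g : G => g • p := continuous_id.smul continuous_const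
    have h4 := h3.tendsto 1
    rw [one_smul] at h4
    exact h4 hTn
  obtain ⟨N, hNo, hNV, hNT, hNn⟩ := exists_normal_sub hVo hVc hcont
  have hNp : (fun g : G => g • p) '' (N : Set G) ∈ 𝓝 p := hopn _ (hNo.mem_nhds N.one_mem)
  -- the largest `k`
  obtain ⟨z, hzN, hzp⟩ : ∃ z, z ∈ (fun g : G => g • p) '' (N : Set G) ∧ z ≠ p := by
    obtain ⟨z, hz1, hz2⟩ := hperf.nonempty_of_mem (inter_mem_nhdsWithin _ hNp)
    exact ⟨z, hz2, hz1⟩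
  obtain ⟨K, hK⟩ := hcon {z}ᶜ (isOpen_compl_singleton.mem_nhds (fun h => hzp h.symm))
  have hex : ∃ j, ¬ (fun g : G => g • p) '' (N : Set G) ⊆ T (n + j + 1) := by
    refine ⟨K, fun h => ?_⟩
    obtain ⟨g, hg, hzg⟩ := h hzN
    exact hK (n + K + 1) (by omega) g hg hzg.symm
  classical
  obtain ⟨k, hnk, hk1, hk2⟩ : ∃ k, n ≤ k ∧ (fun g : G => g • p) '' (N : Set G) ⊆ T k ∧
      ¬ (fun g : G => g • p) '' (N : Set G) ⊆ T (k + 1) := by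
    refine ⟨n + Nat.find hex, Nat.le_add_right _ _, ?_, Nat.find_spec hex⟩
    rcases Nat.eq_zero_or_pos (Nat.find hex) with h0 | h0
    · rw [h0]
      rintro _ ⟨g, hg, rfl⟩
      exact hNT hg
    · have h1 := Nat.find_min hex (m := Nat.find hex - 1) (by omega)
      rw [not_not] at h1
      have h2 : n + (Nat.find hex - 1) + 1 = n + Nat.find hex := by omega
      rwa [h2] at h1
  have hVinv : ∀ u ∈ V, ∀ x ∈ N, u⁻¹ * x * u ∈ N := by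
    intro u hu x hx
    have := hNn u⁻¹ (V.inv_mem hu) x hx
    rwa [inv_inv] at this
  obtain ⟨x, hxN, hxT⟩ := Set.not_subset.1 hk2
  obtain ⟨n₀, hn₀, hn₀x⟩ := hxN
  have hn₀x' : n₀ • p = x := hn₀x
  have hYW : ∀ y : M, t ^ k • y ∈ (fun g : G => g • p) '' (N : Set G) → ∃ g ∈ V, y = g • p := by
    intro y hy
    obtain ⟨g, hg, h⟩ := hk1 hy
    exact ⟨g, hg, smul_left_cancel _ h⟩
  have hyY : t ^ k • ((t ^ k)⁻¹ • x) ∈ (fun g : G => g • p) '' (N : Set G) := by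
    rw [smul_inv_smul]
    exact ⟨n₀, hn₀, hn₀x⟩
  obtain ⟨g₀, hg₀, hyg₀⟩ := hYW _ hyY
  obtain ⟨v, hv, hvp⟩ := hV g₀ hg₀
  have hvy : v • p = (t ^ k)⁻¹ • x := by rw [hvp, hyg₀]
  have hvV : v ∈ V := by
    have := hv 0
    rwa [pow_zero, one_mul, inv_one, mul_one] at this
  -- `u = t^k v t^(-k)`
  have hu : t ^ k * v * (t ^ k)⁻¹ ∈ V := hv k
  set u : G := t ^ k * v * (t ^ k)⁻¹ with hudef
  have hup : u • p = n₀ • p := by
    rw [hudef, mul_smul, mul_smul, htk', hvy, smul_inv_smul, hn₀x']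
  have huinv : u⁻¹ • p = (u⁻¹ * n₀⁻¹ * u) • p := by
    rw [mul_smul, mul_smul, hup, inv_smul_smul]
  refine ⟨{y | t ^ k • y ∈ (fun g : G => g • p) '' (N : Set G)}, v, ?_, hYW, hvV, ?_, ?_, ?_, ?_⟩
  · change t ^ k • p ∈ (fun g : G => g • p) '' (N : Set G)
    rw [htk]
    exact ⟨1, N.one_mem, one_smul _ _⟩
  · intro g hg h
    apply hxT
    refine ⟨g, hg, ?_⟩
    rw [hvy, inv_smul_eq_iff] at h
    rw [h, pow_succ, mul_smul]
  · rintro y' ⟨n₁, hn₁, hy'⟩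
    have hy'' : n₁ • p = t ^ k • y' := hy'
    refine ⟨(u * n₁ * u⁻¹) * n₀, N.mul_mem (hNn u hu n₁ hn₁) hn₀, ?_⟩
    change ((u * n₁ * u⁻¹) * n₀) • p = t ^ k • v • y'
    rw [mul_smul, ← hup, mul_smul, inv_smul_smul, mul_smul, hy'', hudef, mul_smul, mul_smul,
      inv_smul_smul]
  · rintro y' ⟨n₁, hn₁, hy'⟩
    have hy'' : n₁ • p = t ^ k • y' := hy'
    refine ⟨(u⁻¹ * n₁ * u) * (u⁻¹ * n₀⁻¹ * u),
      N.mul_mem (hVinv u hu n₁ hn₁) (hVinv u hu _ (N.inv_mem hn₀)), ?_⟩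
    change ((u⁻¹ * n₁ * u) * (u⁻¹ * n₀⁻¹ * u)) • p = t ^ k • v⁻¹ • y'
    rw [mul_smul, ← huinv, mul_smul, smul_inv_smul, mul_smul, hy'']
    have h1 : u⁻¹ = t ^ k * v⁻¹ * (t ^ k)⁻¹ := by
      rw [hudef]
      group
    rw [h1, mul_smul, mul_smul, inv_smul_smul]
  · intro m hm a ha hap y' hy'
    obtain ⟨n₁, hn₁, hy'⟩ := hy'
    have hy'' : n₁ • p = t ^ k • y' := hy'
    have hw : t ^ (k - m) * a * (t ^ (k - m))⁻¹ ∈ V := ha (k - m)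
    set w : G := t ^ (k - m) * a * (t ^ (k - m))⁻¹ with hwdef
    have hwp : w • p = p := by
      rw [hwdef, mul_smul, mul_smul, htk', hap, htk]
    refine ⟨w * n₁ * w⁻¹, hNn w hw n₁ hn₁, ?_⟩
    change (w * n₁ * w⁻¹) • p = t ^ k • ((t ^ m)⁻¹ * a * t ^ m) • y'
    have hwp' : w⁻¹ • p = p := by rw [inv_smul_eq_iff, hwp]
    have h1 : w * t ^ k = t ^ k * ((t ^ m)⁻¹ * a * t ^ m) := by
      have h2 : t ^ k = t ^ (k - m) * t ^ m := by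
        rw [← pow_add]
        congr 1
        omega
      rw [hwdef, h2]
      group
    rw [mul_smul, hwp', mul_smul, hy'', ← mul_smul, h1, mul_smul]

end Pool.Agent.H31.S3
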