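import Pool.Agent.H31.S3.Cross

/-!
# The connected case (job S3-H)

`T : TwoPt H p q`, `M` connected.

* `TwoPt.not_compact_of_connected`: a subgroup `K` of `H` that is a neighbourhood of `1` is not compact.
  Proof: let `x ∉ {p,q}` (`T.perfp`; `{q}ᶜ ∈ 𝓝 p`).  `K x = {k • x | k ∈ K}` is compact, hence closed, and
  open: for `k ∈ K` the set `A ∈ 𝓝 (k • x)` of `T.opn (k • x)` for `U = K` is contained in `K x`.  So it is
  everything (`IsClopen.eq_univ`), but it does not contain `p` (`k x = p = k p` implies `x = p`).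
* `TwoPt.not_t1_of_connected`: `ToInf t`, `Contr t p`, `Contr t q` are contradictory.  Proof: let `O` be
  the neighbourhood of `p` contracted by `t` and `B = {y | ∃ n, t^n y ∈ interior O}`; for `y ∈ B`,
  `t^n y → p`.  `B` is open and contains `p`, not `q`.  It is closed: let `x ∉ B`.
  - `x = q`: let `O'` be the neighbourhood of `q` contracted by `t`; points of `O'` have `t^n y → q ≠ p`,
    so `O'` is disjoint from `B` (uniqueness of limits).
  - `x ≠ q` (and `x ≠ p` as `p ∈ B`): let `V ⊆ interior O` be a compact neighbourhood of `p`, `q ∉ V`,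
    `U ⊆ V` open, `p ∈ U`, `t⁻¹ U ⊆ V` (`TwoPt.tube` with `S = {t⁻¹}`), `Z = V \ U`; `X` a compact
    neighbourhood of `x` without `p`, `q`.  By `T.proper X Z` and `ToInf` there is `N` with
    `t^n X ∩ Z = ∅` for `n ≥ N`.  Let `x' ∈ X ∩ B`.  Claim `t^n x' ∈ V` for all `n ≥ N`: as `t^n x' → p`
    there are arbitrarily large `n` with `t^n x' ∈ V`; and for `n > N`, `t^n x' ∈ V` implies
    `t^n x' ∈ U` (not in `Z`) and `t^(n-1) x' ∈ t⁻¹ U ⊆ V`: downward induction.  So `t^N x' ∈ V` for all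
    `x' ∈ X ∩ B`.  But `t^N x ∉ V` (`V ⊆ interior O`, `x ∉ B`), so `{x' ∈ X | t^N x' ∉ V}` is a
    neighbourhood of `x` disjoint from `B`.
  So `B` is clopen, nonempty and not everything.
-/

open Filter Topology Set
open scoped Pointwise

namespace Pool.Agent.H31.S3

variable {H M : Type*} [Group H] [TopologicalSpace H] [IsTopologicalGroup H]
  [TopologicalSpace M] [T2Space M] [MulAction H M] [ContinuousSMul H M] {p q : M}

omit [TopologicalSpace H] [IsTopologicalGroup H] [TopologicalSpace M] [T2Space M]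
  [ContinuousSMul H M] in
theorem connA_ne {r x : M} (hr : ∀ h : H, h • r = r) (hx : x ≠ r) (h : H) : h • x ≠ r := by
  intro he
  apply hx
  have h1 : h • x = h • r := by rw [he, hr]
  exact smul_left_cancel h h1

theorem TwoPt.not_compact_of_connected [PreconnectedSpace M] (T : TwoPt H p q) {K : Subgroup H}
    (hK : (K : Set H) ∈ 𝓝 (1 : H)) : ¬ IsCompact (K : Set H) := by
  intro hc
  have hmem : ({q}ᶜ : Set M) ∩ {p}ᶜ ∈ 𝓝[≠] p :=
    inter_mem (mem_nhdsWithin_of_mem_nhds (isOpen_compl_singleton.mem_nhds T.ne))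
      self_mem_nhdsWithin
  obtain ⟨x, hxq, hxp⟩ := NeBot.nonempty_of_mem T.perfp hmem
  have hxq' : x ≠ q := hxq
  have hxp' : x ≠ p := hxp
  have hcomp : IsCompact ((fun k : H => k • x) '' (K : Set H)) :=
    hc.image (continuous_id.smul continuous_const)
  have hopen : IsOpen ((fun k : H => k • x) '' (K : Set H)) := by
    rw [isOpen_iff_mem_nhds]
    rintro _ ⟨k, hk, rfl⟩
    obtain ⟨A, hA, hA2⟩ := T.opn (k • x) (connA_ne T.fixp hxp' k) (connA_ne T.fixq hxq' k) _ hK
    refine mem_of_superset hA fun a ha => ?_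
    obtain ⟨h, hhK, hha⟩ := hA2 a ha
    refine ⟨h * k, K.mul_mem hhK hk, ?_⟩
    change (h * k) • x = a
    rw [mul_smul]
    exact hha
  have huniv : (fun k : H => k • x) '' (K : Set H) = univ :=
    IsClopen.eq_univ ⟨hcomp.isClosed, hopen⟩ ⟨_, 1, K.one_mem, rfl⟩
  have hp : p ∈ (fun k : H => k • x) '' (K : Set H) := by
    rw [huniv]
    exact mem_univ p
  obtain ⟨k, -, hk⟩ := hp
  exact connA_ne T.fixp hxp' k hk

theorem TwoPt.not_t1_of_connected [PreconnectedSpace M] [LocallyCompactSpace M]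
    (T : TwoPt H p q) {t : H} (ht : ToInf t) (h1 : Contr t p) (h2 : Contr t q) : False := by
  obtain ⟨O, hO, hOc⟩ := h1
  obtain ⟨O', hO', hO'c⟩ := h2
  set B : Set M := {y | ∃ n : ℕ, t ^ n • y ∈ interior O} with hB
  have hpB : p ∈ B := ⟨0, by rw [T.fixp]; exact mem_interior_iff_mem_nhds.2 hO⟩
  have hlim : ∀ y ∈ B, Tendsto (fun n : ℕ => t ^ n • y) atTop (𝓝 p) := by
    rintro y ⟨n₀, hn₀⟩
    intro U hU
    obtain ⟨N, hN⟩ := hOc U hU
    rw [mem_map, mem_atTop_sets]
    refine ⟨N + n₀, fun m hm => ?_⟩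
    have h3 := hN (m - n₀) (by omega) _ (interior_subset hn₀)
    rw [smul_smul, ← pow_add, Nat.sub_add_cancel (by omega)] at h3
    exact h3
  have hlim' : ∀ y ∈ O', Tendsto (fun n : ℕ => t ^ n • y) atTop (𝓝 q) := by
    intro y hy U hU
    obtain ⟨N, hN⟩ := hO'c U hU
    rw [mem_map, mem_atTop_sets]
    exact ⟨N, fun m hm => hN m hm y hy⟩
  have hqB : q ∉ B := by
    intro hq
    exact T.ne (tendsto_nhds_unique (hlim q hq) (hlim' q (mem_of_mem_nhds hO')))
  have hBo : IsOpen B := by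
    have h3 : B = ⋃ n : ℕ, (fun y : M => t ^ n • y) ⁻¹' interior O := by
      ext y
      rw [mem_iUnion]
      exact Iff.rfl
    rw [h3]
    exact isOpen_iUnion fun n => isOpen_interior.preimage (continuous_const_smul _)
  have hBc : IsOpen Bᶜ := by
    rw [isOpen_iff_mem_nhds]
    intro x hx
    by_cases hxq : x = q
    · rw [hxq]
      refine mem_of_superset hO' fun y hy hyB => ?_
      exact T.ne (tendsto_nhds_unique (hlim y hyB) (hlim' y hy))
    have hxp : x ≠ p := fun h => hx (h ▸ hpB)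
    obtain ⟨V, hVp, hVs, hV⟩ := local_compact_nhds (inter_mem
      (isOpen_interior.mem_nhds (mem_interior_iff_mem_nhds.2 hO))
      (isOpen_compl_singleton.mem_nhds T.ne))
    have hqV : q ∉ V := fun h => (hVs h).2 rfl
    obtain ⟨U, hUV, hUo, hpU, hU⟩ := T.tube (S := {t⁻¹}) isCompact_singleton hVp
    obtain ⟨X, hXx, hXs, hX⟩ := local_compact_nhds (inter_mem
      (isOpen_compl_singleton.mem_nhds hxp) (isOpen_compl_singleton.mem_nhds hxq))
    have hpX : p ∉ X := fun h => (hXs h).1 rfl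
    have hqX : q ∉ X := fun h => (hXs h).2 rfl
    obtain ⟨C, hC, hC2⟩ := T.proper X (V \ U) hX (hV.diff hUo) hpX hqX (fun h => h.2 hpU)
      (fun h => hqV h.1)
    obtain ⟨N, hN⟩ := ht.eventually_notMem hC
    have hdown : ∀ x' ∈ X, ∀ j : ℕ, t ^ (N + j) • x' ∈ V → t ^ N • x' ∈ V := by
      intro x' hx' j
      induction j with
      | zero => exact fun h => h
      | succ j ih =>
        intro h
        apply ih
        have h3 : t ^ (N + (j + 1)) • x' ∈ U := by
          by_contra h4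
          exact hN (N + (j + 1)) (by omega) (hC2 _ x' hx' ⟨h, h4⟩)
        have h5 := hU t⁻¹ rfl _ h3
        rw [smul_smul, ← add_assoc, pow_succ', inv_mul_cancel_left] at h5
        exact h5
    have hxV : t ^ N • x ∉ V := fun h => hx ⟨N, (hVs h).1⟩
    have hnb : (fun y : M => t ^ N • y) ⁻¹' Vᶜ ∈ 𝓝 x :=
      (hV.isClosed.isOpen_compl.preimage (continuous_const_smul _)).mem_nhds hxV
    refine mem_of_superset (inter_mem hnb hXx) ?_
    rintro x' ⟨hx'V, hx'X⟩ hx'B
    apply hx'V
    have h3 := (hlim x' hx'B).eventually_mem hVp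
    rw [eventually_atTop] at h3
    obtain ⟨m, hm⟩ := h3
    exact hdown x' hx'X m (hm (N + m) (by omega))
  have huniv : B = univ := IsClopen.eq_univ ⟨isOpen_compl_iff.1 hBc, hBo⟩ ⟨p, hpB⟩
  apply hqB
  rw [huniv]
  exact mem_univ q

end Pool.Agent.H31.S3
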