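import Mathlib

/-!
# A relation without a matching of size three is covered by two lines
-/

namespace Pool.Agent.H31.S3

theorem matching {M : Type*} {Y : Set M} {Γ : M → M → Prop}
    (hY : ∀ x l, Γ x l → x ∈ Y ∧ l ∈ Y) (hl : ∀ x ∈ Y, ∃ l, Γ x l) (hr : ∀ l ∈ Y, ∃ x, Γ x l)
    (h3 : ∃ x ∈ Y, ∃ y ∈ Y, ∃ z ∈ Y, x ≠ y ∧ x ≠ z ∧ y ≠ z)
    (hno : ∀ x₁ x₂ x₃ l₁ l₂ l₃, Γ x₁ l₁ → Γ x₂ l₂ → Γ x₃ l₃ → x₁ ≠ x₂ → x₁ ≠ x₃ → x₂ ≠ x₃ →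
      l₁ ≠ l₂ → l₁ ≠ l₃ → l₂ ≠ l₃ → False) :
    ∃ α ∈ Y, ∃ β ∈ Y, ∀ x l, Γ x l → x = β ∨ l = α := by
  -- third points
  have third : ∀ a b : M, ∃ c ∈ Y, c ≠ a ∧ c ≠ b := by
    intro a b
    obtain ⟨x, hx, y, hy, z, hz, hxy, hxz, hyz⟩ := h3
    by_cases h1 : x ≠ a ∧ x ≠ b
    · exact ⟨x, hx, h1⟩
    by_cases h2 : y ≠ a ∧ y ≠ b
    · exact ⟨y, hy, h2⟩
    refine ⟨z, hz, ?_, ?_⟩
    · rintro rfl
      have e1 : x = b := by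
        by_contra h
        exact h1 ⟨hxz, h⟩
      have e2 : y = b := by
        by_contra h
        exact h2 ⟨hyz, h⟩
      exact hxy (e1.trans e2.symm)
    · rintro rfl
      have e1 : x = a := by
        by_contra h
        exact h1 ⟨h, hxz⟩
      have e2 : y = a := by
        by_contra h
        exact h2 ⟨h, hyz⟩
      exact hxy (e1.trans e2.symm)
  -- the main case
  have main : ∀ x₁ x₂ l₁ l₂, Γ x₁ l₁ → Γ x₂ l₂ → x₁ ≠ x₂ → l₁ ≠ l₂ →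
      ∀ l₃ x₃, Γ x₁ l₃ → l₃ ≠ l₁ → l₃ ≠ l₂ → Γ x₃ l₂ → x₃ ≠ x₁ → x₃ ≠ x₂ →
      ∀ x l, Γ x l → x = x₁ ∨ l = l₂ := by
    intro x₁ x₂ l₁ l₂ h1 h2 hx12 hl12 l₃ x₃ h13 hl31 hl32 h32 hx31 hx32 x l hxl
    by_contra hcon
    push Not at hcon
    obtain ⟨hx, hl⟩ := hcon
    have hA : ∃ l', Γ x₁ l' ∧ l' ≠ l ∧ l' ≠ l₂ := by
      by_cases h : l₁ = l
      · exact ⟨l₃, h13, by rw [← h]; exact hl31, hl32⟩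
      · exact ⟨l₁, h1, h, hl12⟩
    have hB : ∃ x', Γ x' l₂ ∧ x' ≠ x ∧ x' ≠ x₁ := by
      by_cases h : x₂ = x
      · exact ⟨x₃, h32, by rw [← h]; exact hx32, hx31⟩
      · exact ⟨x₂, h2, h, hx12.symm⟩
    obtain ⟨l', a1, a2, a3⟩ := hA
    obtain ⟨x', b1, b2, b3⟩ := hB
    exact hno x₁ x' x l' l₂ l a1 b1 hxl b3.symm hx.symm b2 a3 a2 hl.symm
  obtain ⟨x₀, hx₀, -⟩ := h3
  obtain ⟨l₀, h₀⟩ := hl x₀ hx₀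
  by_cases hm : ∀ x l, Γ x l → x = x₀ ∨ l = l₀
  · exact ⟨l₀, (hY _ _ h₀).2, x₀, hx₀, hm⟩
  push Not at hm
  obtain ⟨x₂, l₂, h2, hx2, hl2⟩ := hm
  obtain ⟨l₃, hl3Y, hl31, hl32⟩ := third l₀ l₂
  obtain ⟨x₃, hx3Y, hx31, hx32⟩ := third x₀ x₂
  obtain ⟨x, hx⟩ := hr l₃ hl3Y
  obtain ⟨l, hl'⟩ := hl x₃ hx3Y
  -- `x ∈ {x₀, x₂}` and `l ∈ {l₀, l₂}`
  have hxx : x = x₀ ∨ x = x₂ := by
    by_contra hcon
    push Not at hcon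
    exact hno x₀ x₂ x l₀ l₂ l₃ h₀ h2 hx hx2.symm hcon.1.symm hcon.2.symm hl2.symm hl31.symm
      hl32.symm
  have hll : l = l₀ ∨ l = l₂ := by
    by_contra hcon
    push Not at hcon
    exact hno x₀ x₂ x₃ l₀ l₂ l h₀ h2 hl' hx2.symm hx31.symm hx32.symm hl2.symm hcon.1.symm
      hcon.2.symm
  rcases hxx with rfl | rfl <;> rcases hll with rfl | rfl
  · exact absurd (hno x x₂ x₃ l₃ l₂ l hx h2 hl' hx2.symm hx31.symm hx32.symm hl32 hl31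
      hl2) not_false
  · exact ⟨l, (hY _ _ hl').2, x, (hY _ _ h₀).1,
      main x x₂ l₀ l h₀ h2 hx2.symm hl2.symm l₃ x₃ hx hl31 hl32 hl' hx31 hx32⟩
  · exact ⟨l, (hY _ _ hl').2, x, (hY _ _ h2).1,
      main x x₀ l₂ l h2 h₀ hx2 hl2 l₃ x₃ hx hl32 hl31 hl' hx32 hx31⟩
  · exact absurd (hno x₀ x x₃ l₀ l₃ l h₀ hx hl' hx2.symm hx31.symm hx32.symm hl31.symm
      hl2.symm hl32) not_false

end Pool.Agent.H31.S3
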