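import Pool.Agent.H31.S3.Prop3
import Pool.Agent.H31.S3.Match

/-!
# The convergence lemma (job S3-N)

`Y ⊆ M` compact with at least three points, `g i` preserves `Y` for `𝒰`-many `i` and tends to infinity
along the ultrafilter `𝒰`.  Then there are `α, β ∈ Y` with `g i → α` locally uniformly on `Y \ {β}`.

Proof.  `Γ x l`: `x, l ∈ Y` and there is `s : ι → M` with `s i ∈ Y` for `𝒰`-many `i`, `s i → x` and
`g i • s i → l` along `𝒰`.
* Left total: `s` constant; `g i • x ∈ Y` converges by compactness (`IsCompact.ultrafilter_le_nhds` for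
  `𝒰.map`).  Right total: `s i = (g i)⁻¹ • l`.
* No matching of size three: otherwise `Sys.conv` gives `g i → g₀`; let `C` be a compact neighbourhood of
  `g₀`: `g i ∈ C` and `g i ∉ C` for `𝒰`-many `i`.
* `matching` gives `α`, `β` with `Γ x l → x = β ∨ l = α`.
* Uniformity: if the conclusion fails for `A`, `B`, then for `𝒰`-many `i` there is `s i ∈ Y`, `s i ∉ B`,
  `g i • s i ∉ A` (`Ultrafilter.eventually_not`), `s i → x`, `g i • s i → l`, `x, l ∈ Y`; `x ≠ β` as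
  `B ∈ 𝓝 β`, `l ≠ α` as `A ∈ 𝓝 α`: contradiction.
-/

open Filter Topology Set
open scoped Pointwise

namespace Pool.Agent.H31.S3

theorem Sys.convergence {G M : Type*} [Group G] [TopologicalSpace G] [IsTopologicalGroup G]
    [LocallyCompactSpace G] [TopologicalSpace M] [T2Space M] [MulAction G M] (hS : Sys G M)
    {ι : Type*} {𝒰 : Ultrafilter ι} {g : ι → G}
    (hg : Tendsto g (𝒰 : Filter ι) (cocompact G)) {Y : Set M} (hY : IsCompact Y)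
    (h3 : ∃ x ∈ Y, ∃ y ∈ Y, ∃ z ∈ Y, x ≠ y ∧ x ≠ z ∧ y ≠ z)
    (hin : ∀ᶠ i in (𝒰 : Filter ι), ∀ y ∈ Y, g i • y ∈ Y)
    (hin' : ∀ᶠ i in (𝒰 : Filter ι), ∀ y ∈ Y, (g i)⁻¹ • y ∈ Y) :
    ∃ α ∈ Y, ∃ β ∈ Y, ∀ A ∈ 𝓝 α, ∀ B ∈ 𝓝 β,
      ∀ᶠ i in (𝒰 : Filter ι), ∀ y ∈ Y, y ∉ B → g i • y ∈ A := by
  -- compactness along the ultrafilter
  have lim : ∀ s : ι → M, (∀ᶠ i in (𝒰 : Filter ι), s i ∈ Y) →
      ∃ x ∈ Y, Tendsto s (𝒰 : Filter ι) (𝓝 x) := by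
    intro s hs
    have hle : (𝒰.map s : Filter M) ≤ 𝓟 Y := by
      rw [Ultrafilter.coe_map]
      have h0 : Tendsto s (𝒰 : Filter ι) (𝓟 Y) := tendsto_principal.2 hs
      exact h0
    obtain ⟨x, hx, hx'⟩ := hY.ultrafilter_le_nhds (𝒰.map s) hle
    exact ⟨x, hx, hx'⟩
  have key := matching (Y := Y)
    (Γ := fun x l => (x ∈ Y ∧ l ∈ Y) ∧ ∃ s : ι → M, Tendsto s (𝒰 : Filter ι) (𝓝 x) ∧
      Tendsto (fun i => g i • s i) (𝒰 : Filter ι) (𝓝 l))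
    (fun x l h => h.1) ?_ ?_ h3 ?_
  · obtain ⟨α, hα, β, hβ, hab⟩ := key
    refine ⟨α, hα, β, hβ, ?_⟩
    intro A hA B hB
    by_contra hcon
    rw [← Ultrafilter.eventually_not] at hcon
    have hcon' : ∀ᶠ i in (𝒰 : Filter ι), ∃ s : M, s ∈ Y ∧ s ∉ B ∧ g i • s ∉ A := by
      filter_upwards [hcon] with i hi
      rw [not_forall] at hi
      simp only [not_forall, exists_prop] at hi
      exact hi
    obtain ⟨y₀, -⟩ := h3
    classical
    have hch : ∀ i, ∃ s : M, (∃ s : M, s ∈ Y ∧ s ∉ B ∧ g i • s ∉ A) →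
        (s ∈ Y ∧ s ∉ B ∧ g i • s ∉ A) := by
      intro i
      by_cases h : ∃ s : M, s ∈ Y ∧ s ∉ B ∧ g i • s ∉ A
      · obtain ⟨s, hs⟩ := h
        exact ⟨s, fun _ => hs⟩
      · exact ⟨y₀, fun h' => (h h').elim⟩
    choose s hs using hch
    have hs1 : ∀ᶠ i in (𝒰 : Filter ι), s i ∈ Y ∧ s i ∉ B ∧ g i • s i ∉ A := by
      filter_upwards [hcon'] with i hi
      exact hs i hi
    obtain ⟨x, hx, hsx⟩ := lim s (hs1.mono fun i h => h.1)
    obtain ⟨l, hl, hsl⟩ := lim (fun i => g i • s i) (by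
      filter_upwards [hs1, hin] with i h1 h2
      exact h2 _ h1.1)
    rcases hab x l ⟨⟨hx, hl⟩, s, hsx, hsl⟩ with rfl | rfl
    · obtain ⟨i, h1, h2⟩ := (hs1.and (hsx.eventually hB)).exists
      exact h1.2.1 h2
    · obtain ⟨i, h1, h2⟩ := (hs1.and (hsl.eventually hA)).exists
      exact h1.2.2 h2
  · intro x hx
    obtain ⟨l, hl, hgl⟩ := lim (fun i => g i • x) (by
      filter_upwards [hin] with i h1
      exact h1 _ hx)
    exact ⟨l, ⟨hx, hl⟩, fun _ => x, tendsto_const_nhds, hgl⟩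
  · intro l hl
    obtain ⟨x, hx, hgx⟩ := lim (fun i => (g i)⁻¹ • l) (by
      filter_upwards [hin'] with i h1
      exact h1 _ hl)
    refine ⟨x, ⟨hx, hl⟩, fun i => (g i)⁻¹ • l, hgx, ?_⟩
    simp only [smul_inv_smul]
    exact tendsto_const_nhds
  · rintro x₁ x₂ x₃ l₁ l₂ l₃ ⟨-, s₁, a1, b1⟩ ⟨-, s₂, a2, b2⟩ ⟨-, s₃, a3, b3⟩ h12 h13 h23 k12 k13 k23
    obtain ⟨g₀, hg₀, -⟩ := hS.conv h12 h13 h23 k12 k13 k23 a1 a2 a3 b1 b2 b3
    obtain ⟨C, hC, hCn⟩ := exists_compact_mem_nhds g₀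
    have h1 : ∀ᶠ i in (𝒰 : Filter ι), g i ∈ C := hg₀ hCn
    have h2 : ∀ᶠ i in (𝒰 : Filter ι), g i ∈ Cᶜ := hg hC.compl_mem_cocompact
    obtain ⟨i, h3, h4⟩ := (h1.and h2).exists
    exact h4 h3

end Pool.Agent.H31.S3
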