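import Pool.Agent.H31.S3.Defs

/-!
# Compactness from the basins of attraction (job S3-G3)

`t p = p`, `t q = q`, `Contr t p`, `Contr t⁻¹ q`, all `y ≠ q` satisfy `t^n y → p` and all `y ≠ p` satisfy
`t^(-n) y → q`.  Then `M` is compact.

Proof.  Let `V` be an open neighbourhood of `p` and `V'` an open neighbourhood of `q` contained in
compact sets `W`, `W'` (with `W`, `W'` disjoint from `{q}`, `{p}`).
(1) For `D` compact, `p ∉ D`, there is `J` with `(t⁻¹)^n z ∈ V'` for `n ≥ J`, `z ∈ D`: let `O'` be the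
neighbourhood of `q` contracted by `t⁻¹` and `N'` with `(t⁻¹)^n y ∈ V'` for `n ≥ N'`, `y ∈ O'`.  Every
`z ∈ D` has an `m` with `(t⁻¹)^m z ∈ interior O'`, and this holds in a neighbourhood of `z`; use
compactness and `(t⁻¹)^(n) z = (t⁻¹)^(n-m) ((t⁻¹)^m z)`.
(2) `E = (V ∪ V')ᶜ` is closed.  `D = W \ t V`, where `t V` is open and contains `p`: a compact set with
`p ∉ D`.  `J` from (1).  Let `y ∈ E` (so `y ≠ q`).  Let `n ≥ 1` be the smallest number with `t^n y ∈ V`.
Then `z = t^n y ∈ W`, `z ∉ t V` (as `t^(n-1) y ∉ V`), so `z ∈ D` and `y = (t⁻¹)^n z ∉ V'` gives `n < J`.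
So `E ⊆ ⋃_{n < J} (t⁻¹)^n D` is compact, and `M = W ∪ W' ∪ E` is compact (`isCompact_univ_iff`).
-/

open Filter Topology Set
open scoped Pointwise

namespace Pool.Agent.H31.S3

theorem compactSpace_of_basin {H M : Type*} [Group H] [TopologicalSpace H]
    [TopologicalSpace M] [T2Space M] [LocallyCompactSpace M]
    [MulAction H M] [ContinuousSMul H M] {p q : M} (hpq : p ≠ q) {t : H} (hp : t • p = p)
    (hq : t • q = q) (hc : Contr t p) (hc' : Contr t⁻¹ q)
    (hb : ∀ y : M, y ≠ q → Tendsto (fun n : ℕ => t ^ n • y) atTop (𝓝 p))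
    (hb' : ∀ y : M, y ≠ p → Tendsto (fun n : ℕ => (t⁻¹) ^ n • y) atTop (𝓝 q)) :
    CompactSpace M := by
  obtain ⟨W, hW1, -, hW3⟩ : ∃ W : Set M, W ∈ 𝓝 p ∧ q ∉ W ∧ IsCompact W := by
    obtain ⟨W, h1, h2, h3⟩ := local_compact_nhds (x := p) (n := {q}ᶜ)
      (isOpen_compl_singleton.mem_nhds hpq)
    exact ⟨W, h1, fun h => h2 h rfl, h3⟩
  obtain ⟨W', hW3', hW1'⟩ := exists_compact_mem_nhds q
  -- (1)
  have h1 : ∀ D : Set M, IsCompact D → p ∉ D →
      ∃ J : ℕ, ∀ n ≥ J, ∀ z ∈ D, (t⁻¹) ^ n • z ∈ interior W' := by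
    intro D hD hpD
    obtain ⟨O', hO', hO2⟩ := hc'
    obtain ⟨N', hN'⟩ := hO2 (interior W') (interior_mem_nhds.2 hW1')
    have hm : ∀ z ∈ D, ∃ m : ℕ, (t⁻¹) ^ m • z ∈ interior O' := by
      intro z hz
      have hzp : z ≠ p := fun h => hpD (h ▸ hz)
      exact ((hb' z hzp).eventually (interior_mem_nhds.2 hO')).exists
    choose! m hm using hm
    obtain ⟨T, hT1, hT2⟩ := hD.elim_nhds_subcover
      (fun z => (fun w : M => (t⁻¹) ^ (m z) • w) ⁻¹' interior O')
      (fun z hz => (isOpen_interior.preimage (continuous_const_smul _)).mem_nhds (hm z hz))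
    refine ⟨N' + T.sup m, fun n hn z hz => ?_⟩
    obtain ⟨x, hx, hxz⟩ := mem_iUnion₂.1 (hT2 hz)
    have hle : m x ≤ T.sup m := Finset.le_sup hx
    have h3 := hN' (n - m x) (by omega) _ (interior_subset hxz)
    rwa [← mul_smul, ← pow_add, Nat.sub_add_cancel (by omega)] at h3
  -- (2)
  set D : Set M := W \ {y | t⁻¹ • y ∈ interior W} with hDdef
  have hDc : IsCompact D :=
    hW3.diff (isOpen_interior.preimage (continuous_const_smul t⁻¹))
  have hpD : p ∉ D := by
    rintro ⟨-, h⟩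
    refine h ?_
    have : t⁻¹ • p = p := by
      rw [inv_smul_eq_iff, hp]
    show t⁻¹ • p ∈ interior W
    rw [this]
    exact mem_of_mem_nhds (interior_mem_nhds.2 hW1)
  obtain ⟨J, hJ⟩ := h1 D hDc hpD
  set E : Set M := (interior W ∪ interior W')ᶜ with hE
  have hEcl : IsClosed E := (isOpen_interior.union isOpen_interior).isClosed_compl
  have hsub : E ⊆ ⋃ n ∈ Finset.range J, (fun z : M => (t⁻¹) ^ n • z) '' D := by
    intro y hy
    have hyq : y ≠ q := by
      rintro rfl
      exact hy (Or.inr (mem_of_mem_nhds (interior_mem_nhds.2 hW1')))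
    have hex : ∃ n : ℕ, t ^ n • y ∈ interior W :=
      ((hb y hyq).eventually (interior_mem_nhds.2 hW1)).exists
    classical
    have hn1 := Nat.find_spec hex
    have hn2 : Nat.find hex ≠ 0 := by
      intro h0
      rw [h0, pow_zero, one_smul] at hn1
      exact hy (Or.inl hn1)
    obtain ⟨k, hk⟩ := Nat.exists_eq_succ_of_ne_zero hn2
    have hn3 : t ^ k • y ∉ interior W := Nat.find_min hex (by omega)
    rw [hk] at hn1
    have hzD : t ^ (k + 1) • y ∈ D := by
      refine ⟨interior_subset hn1, fun h => hn3 ?_⟩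
      have h4 : t⁻¹ • t ^ (k + 1) • y ∈ interior W := h
      rwa [pow_succ', mul_smul, inv_smul_smul] at h4
    have hyz : (t⁻¹) ^ (k + 1) • t ^ (k + 1) • y = y := by
      rw [inv_pow, inv_smul_smul]
    have hlt : k + 1 < J := by
      by_contra hcon
      have h5 := hJ (k + 1) (not_lt.1 hcon) _ hzD
      rw [hyz] at h5
      exact hy (Or.inr h5)
    exact mem_iUnion₂.2 ⟨k + 1, Finset.mem_range.2 hlt, _, hzD, hyz⟩
  have hEc : IsCompact E := by
    refine IsCompact.of_isClosed_subset ?_ hEcl hsub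
    exact Finset.isCompact_biUnion _ fun n _ => hDc.image (continuous_const_smul _)
  rw [← isCompact_univ_iff]
  have hu : (univ : Set M) = W ∪ W' ∪ E := by
    refine (eq_univ_of_forall fun y => ?_).symm
    by_cases h : y ∈ interior W ∪ interior W'
    · left
      rcases h with h | h
      · exact Or.inl (interior_subset h)
      · exact Or.inr (interior_subset h)
    · exact Or.inr h
  rw [hu]
  exact (hW3.union hW3').union hEc

end Pool.Agent.H31.S3
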