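import Pool.Agent.H31.S3.Inf

/-!
# Boundary of the set `{u | u x ∈ W}` (job S3-D)

`T : TwoPt H p q`, `W` a compact neighbourhood of `p`, `q ∉ W`.

* `TwoPt.tube`: for compact `S ⊆ H` and a neighbourhood `W` of `p` there is a neighbourhood `U ⊆ W`
  of `p` with `s • y ∈ W` for all `s ∈ S`, `y ∈ U` (compactness of `S × {p}`: for each `s ∈ S` the map
  `(s,y) ↦ s • y` is continuous at `(s,p)` with value `p`; `generalized_tube_lemma`).
* `TwoPt.cross`: `S` compact, symmetric.  If `u x` is moved by one element of `S` into `W` and by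
  another one out of `W`, then `u` lies in a fixed compact set `C`.  Proof: `U` as in `tube`, open.
  `u x = s⁻¹ (s u x) ∈ S • W`, and `u x ∉ U`.  The set `Y = (S • W) \ U` is compact and contains
  neither `p` nor `q` (`q ∉ S • W` as `q` is fixed by `H`).  Apply `T.proper {x} Y`.
* `TwoPt.pairC`: `u x ∈ W` and `u⁻¹ y ∈ W` imply `u ∈ C`, a fixed compact set.  Proof: `U` from
  `T.bp {x} {y}`; so `u x ∈ W \ interior U` or `u⁻¹ y ∈ W \ interior U`; use `T.proper` for `{x}` and for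
  `{y}` and take `C₁ ∪ C₂⁻¹`.
* `TwoPt.tendsto_of_mem`: if `h i` tends to infinity along `F` and `h i • x ∈ W` for `F`-many `i` then
  `h i • x → p`.  Proof: for an open neighbourhood `U` of `p`, `W \ U` is compact and contains neither
  `p` nor `q`; by `T.proper {x} (W \ U)` eventually `h i • x ∉ W \ U`.
-/

open Filter Topology Set
open scoped Pointwise

namespace Pool.Agent.H31.S3

variable {H M : Type*} [Group H] [TopologicalSpace H] [IsTopologicalGroup H]
  [TopologicalSpace M] [T2Space M] [MulAction H M] [ContinuousSMul H M] {p q : M}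

omit [IsTopologicalGroup H] [T2Space M] in
theorem TwoPt.tube (T : TwoPt H p q) {S : Set H} (hS : IsCompact S) {W : Set M} (hW : W ∈ 𝓝 p) :
    ∃ U ⊆ W, IsOpen U ∧ p ∈ U ∧ ∀ s ∈ S, ∀ y ∈ U, s • y ∈ W := by
  have hcont : Continuous (fun z : H × M => z.1 • z.2) := continuous_smul
  have hopen : IsOpen ((fun z : H × M => z.1 • z.2) ⁻¹' interior W) :=
    isOpen_interior.preimage hcont
  have hpW : p ∈ interior W := mem_interior_iff_mem_nhds.2 hW
  have hsub : S ×ˢ ({p} : Set M) ⊆ (fun z : H × M => z.1 • z.2) ⁻¹' interior W := by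
    rintro ⟨s, y⟩ ⟨-, hy⟩
    have hy' : y = p := hy
    change s • y ∈ interior W
    rw [hy', T.fixp]
    exact hpW
  obtain ⟨u, v, -, hv, hSu, hpv, huv⟩ :=
    generalized_tube_lemma hS isCompact_singleton hopen hsub
  refine ⟨v ∩ interior W, fun y hy => interior_subset hy.2, hv.inter isOpen_interior,
    ⟨hpv rfl, hpW⟩, fun s hs y hy => ?_⟩
  have h1 : ((s, y) : H × M) ∈ u ×ˢ v := ⟨hSu hs, hy.1⟩
  exact interior_subset (huv h1)

theorem TwoPt.cross (T : TwoPt H p q) {W : Set M} (hW : IsCompact W) (hWp : W ∈ 𝓝 p)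
    (hqW : q ∉ W) {x : M} (hxp : x ≠ p) (hxq : x ≠ q) {S : Set H} (hS : IsCompact S)
    (hinv : ∀ s ∈ S, s⁻¹ ∈ S) :
    ∃ C : Set H, IsCompact C ∧
      ∀ u : H, (∃ s ∈ S, (s * u) • x ∈ W) → (∃ s ∈ S, (s * u) • x ∉ W) → u ∈ C := by
  obtain ⟨U, -, hUo, hpU, hU⟩ := T.tube hS hWp
  have hY : IsCompact ((S • W) \ U) := (hS.smul_set hW).diff hUo
  have hpY : p ∉ (S • W) \ U := fun h => h.2 hpU
  have hqY : q ∉ (S • W) \ U := by
    rintro ⟨h, -⟩
    obtain ⟨s, -, w, hw, hsw⟩ := Set.mem_smul.1 h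
    have hwq : w = q := by
      have h1 : s⁻¹ • (s • w) = s⁻¹ • q := by rw [hsw]
      rw [inv_smul_smul, T.fixq] at h1
      exact h1
    exact hqW (hwq ▸ hw)
  obtain ⟨C, hC, hC2⟩ := T.proper {x} ((S • W) \ U) isCompact_singleton hY
    (fun h => hxp h.symm) (fun h => hxq h.symm) hpY hqY
  refine ⟨C, hC, ?_⟩
  rintro u ⟨s, hs, hsW⟩ ⟨s', hs', hs'W⟩
  refine hC2 u x rfl ⟨?_, ?_⟩
  · refine Set.mem_smul.2 ⟨s⁻¹, hinv s hs, (s * u) • x, hsW, ?_⟩
    rw [mul_smul, inv_smul_smul]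
  · intro hux
    apply hs'W
    rw [mul_smul]
    exact hU s' hs' _ hux

theorem TwoPt.pairC (T : TwoPt H p q) {W : Set M} (hW : IsCompact W) (hqW : q ∉ W) {x y : M}
    (hxp : x ≠ p) (hxq : x ≠ q) (hyp : y ≠ p) (hyq : y ≠ q) :
    ∃ C : Set H, IsCompact C ∧ ∀ u : H, u • x ∈ W → u⁻¹ • y ∈ W → u ∈ C := by
  obtain ⟨U, hU, hU2⟩ := T.bp {x} {y} isCompact_singleton isCompact_singleton
    (fun h => hxp h.symm) (fun h => hxq h.symm) (fun h => hyp h.symm) (fun h => hyq h.symm)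
  have hY : IsCompact (W \ interior U) := hW.diff isOpen_interior
  have hpY : p ∉ W \ interior U := fun h => h.2 (mem_interior_iff_mem_nhds.2 hU)
  have hqY : q ∉ W \ interior U := fun h => hqW h.1
  obtain ⟨C1, hC1, hC1'⟩ := T.proper {x} (W \ interior U) isCompact_singleton hY
    (fun h => hxp h.symm) (fun h => hxq h.symm) hpY hqY
  obtain ⟨C2, hC2, hC2'⟩ := T.proper {y} (W \ interior U) isCompact_singleton hY
    (fun h => hyp h.symm) (fun h => hyq h.symm) hpY hqY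
  refine ⟨C1 ∪ C2⁻¹, hC1.union hC2.inv, fun u hux huy => ?_⟩
  by_cases h : u • x ∈ interior U
  · right
    rw [Set.mem_inv]
    refine hC2' u⁻¹ y rfl ⟨huy, fun h' => ?_⟩
    exact hU2 u x rfl y rfl (interior_subset h) (interior_subset h')
  · left
    exact hC1' u x rfl ⟨hux, h⟩

omit [IsTopologicalGroup H] [ContinuousSMul H M] in
theorem TwoPt.tendsto_of_mem (T : TwoPt H p q) {W : Set M} (hW : IsCompact W) (hqW : q ∉ W)
    {x : M} (hxp : x ≠ p) (hxq : x ≠ q) {ι : Type*} {F : Filter ι} {h : ι → H}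
    (hh : Tendsto h F (cocompact H)) (hm : ∀ᶠ i in F, h i • x ∈ W) :
    Tendsto (fun i => h i • x) F (𝓝 p) := by
  rw [tendsto_nhds]
  intro U hUo hpU
  have hY : IsCompact (W \ U) := hW.diff hUo
  obtain ⟨C, hC, hC'⟩ := T.proper {x} (W \ U) isCompact_singleton hY
    (fun h => hxp h.symm) (fun h => hxq h.symm) (fun h => h.2 hpU) (fun h => hqW h.1)
  have h1 : ∀ᶠ i in F, h i ∈ Cᶜ := hh hC.compl_mem_cocompact
  filter_upwards [h1, hm] with i hi hiW
  by_contra hcon
  exact hi (hC' (h i) x rfl ⟨hiW, hcon⟩)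

end Pool.Agent.H31.S3
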