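import Mathlib

/-!
# All double cosets have the same measure (job S3-Q2)

`H` a subgroup of `Q` such that `a g = g b` (`a, b ∈ H`, `g ∉ H`) only for `a = 1`; `μ` is left invariant and
right invariant under `H` (`hr`); `C ≤ C' ≤ H` compact subgroups, `C` open in `H` (`hCo`), `a, b ∈ C'`.
Then `μ (C a g b C) = μ (C g C)` for `g ∉ H`.

Proof.  `C` has finite index in `C'` (the open cosets of `C` in the compact group `C'`); let `N ≤ C` be the
normal core of `C` in `C'` (`Subgroup.normalCore` of `C.subgroupOf C'`, mapped to `Q`): a subgroup of finite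
index in `C'`, normalised by all elements of `C'`, closed (intersection of conjugates of the closed set `C`,
or: of finite index with ... ; `C` is closed, so `⋂ x C x⁻¹` is closed), hence compact.
Write `C` as a finite disjoint union of cosets `x_i N = N x_i` (`i ∈ I`, representatives).  For all
`a, b ∈ C'`:
`C a g b C = ⋃_{i,j} x_i N a g b N x_j = ⋃_{i,j} (x_i a) N g N (b x_j)` (`N a = a N`, `b N = N b`).
The pieces are compact, hence measurable, of measure `μ (N g N)` (left invariance; right invariance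
`hr` for the element `b x_j ∈ H`).  They are pairwise disjoint: `x_i n a g b n' x_j = x_k m a g b m' x_l`
(`n, m, n', m' ∈ N`) implies, with `g' = a g b ∉ H`,
`((x_k m)⁻¹ x_i n) g' = g' (m' x_l (n' x_j)⁻¹)` up to the obvious rearrangement, so the left factor is `1` by
`hf`, whence `x_i N = x_k N` and `i = k`, and then also the right factors agree and `j = l`.
So `μ (C a g b C) = |I|^2 μ (N g N)` for all `a, b ∈ C'`, in particular for `a = b = 1`.
-/

open Filter Topology Set MeasureTheory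
open scoped Pointwise

namespace Pool.Agent.H31.S3

theorem measure_double_coset {Q : Type*} [Group Q] [TopologicalSpace Q] [IsTopologicalGroup Q]
    [T2Space Q] [MeasurableSpace Q] [BorelSpace Q] (μ : Measure Q) [μ.IsMulLeftInvariant]
    {H : Subgroup Q} (hf : ∀ g ∉ H, ∀ a ∈ H, ∀ b ∈ H, a * g = g * b → a = 1)
    (hr : ∀ c ∈ H, ∀ X : Set Q, IsCompact X → μ ((fun x => x * c) '' X) = μ X)
    {C C' : Subgroup Q} (hC : IsCompact (C : Set Q)) (hC' : IsCompact (C' : Set Q))
    (hCC' : C ≤ C') (hC'H : C' ≤ H) (hCo : ∃ U ∈ 𝓝 (1 : Q), ∀ x ∈ U, x ∈ H → x ∈ C)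
    {g a b : Q} (hg : g ∉ H) (ha : a ∈ C') (hb : b ∈ C') :
    μ {x | ∃ c ∈ C, ∃ d ∈ C, x = c * (a * g * b) * d} = μ {x | ∃ c ∈ C, ∃ d ∈ C, x = c * g * d} := by
  classical
  have : CompactSpace C' := isCompact_iff_compactSpace.1 hC'
  obtain ⟨K, hK⟩ : ∃ K : Subgroup C', K = C.subgroupOf C' := ⟨_, rfl⟩
  have hmemK : ∀ x : C', x ∈ K ↔ (x : Q) ∈ C := by
    intro x
    rw [hK, Subgroup.mem_subgroupOf]
  have hKo : IsOpen (K : Set C') := by
    obtain ⟨U, hU, hU2⟩ := hCo
    refine Subgroup.isOpen_of_mem_nhds K (g := 1) ?_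
    refine mem_of_superset (continuous_subtype_val.continuousAt.preimage_mem_nhds hU) ?_
    intro x hx
    exact (hmemK x).2 (hU2 x hx (hC'H x.2))
  have hKc : IsClosed (K : Set C') := by
    have h1 : (K : Set C') = Subtype.val ⁻¹' (C : Set Q) := by
      ext x
      exact hmemK x
    rw [h1]
    exact hC.isClosed.preimage continuous_subtype_val
  have : Finite (C' ⧸ K) := Subgroup.quotient_finite_of_isOpen K hKo
  have : K.FiniteIndex := Subgroup.finiteIndex_of_finite_quotient
  obtain ⟨N, hN⟩ : ∃ N : Subgroup C', N = K.normalCore := ⟨_, rfl⟩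
  have hNn : N.Normal := by rw [hN]; infer_instance
  have hNK : N ≤ K := by rw [hN]; exact K.normalCore_le
  have hNf : N.FiniteIndex := by rw [hN]; infer_instance
  have : Finite (C' ⧸ N) := Subgroup.finite_quotient_of_finiteIndex
  have hNc : IsClosed (N : Set C') := by
    have h1 : (N : Set C') = ⋂ b : C', (fun a : C' => b * a * b⁻¹) ⁻¹' (K : Set C') := by
      rw [hN]
      ext x
      rw [mem_iInter]
      rfl
    rw [h1]
    refine isClosed_iInter fun b => hKc.preimage ?_
    exact (continuous_const.mul continuous_id).mul continuous_const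
  let q : C' →* C' ⧸ N := QuotientGroup.mk' N
  have hq1 : ∀ x : C', q x = 1 ↔ x ∈ N := fun x => QuotientGroup.eq_one_iff x
  have hqs : Function.Surjective q := QuotientGroup.mk'_surjective N
  let φ : C' × C' → Q := fun p => p.1 * g * p.2
  have hφc : Continuous φ := ((continuous_subtype_val.comp continuous_fst).mul
    continuous_const).mul (continuous_subtype_val.comp continuous_snd)
  have hφi : Function.Injective φ := by
    rintro ⟨c, d⟩ ⟨c', d'⟩ h
    have h0 : (c : Q) * g * d = c' * g * d' := h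
    have h1 : ((c' : Q)⁻¹ * c) * g = g * ((d' : Q) * (d : Q)⁻¹) := by
      have h2 : (c : Q) * g = c' * g * d' * (d : Q)⁻¹ := by
        rw [← h0, mul_inv_cancel_right]
      rw [mul_assoc, h2]
      group
    have h2 := hf g hg _ (mul_mem (inv_mem (hC'H c'.2)) (hC'H c.2)) _
      (mul_mem (hC'H d'.2) (inv_mem (hC'H d.2))) h1
    have h3 : (c : Q) = c' := (inv_mul_eq_one.1 h2).symm
    rw [h3, mul_assoc, mul_assoc] at h0
    have h4 : (d : Q) = d' := mul_left_cancel (mul_left_cancel h0)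
    exact Prod.ext (Subtype.ext h3) (Subtype.ext h4)
  let F : (C' ⧸ N) × (C' ⧸ N) → Set Q := fun p => φ '' ((q ⁻¹' {p.1}) ×ˢ (q ⁻¹' {p.2}))
  have hcos : ∀ x : C' ⧸ N, IsClosed (q ⁻¹' {x}) := by
    intro x
    obtain ⟨y, rfl⟩ := hqs x
    have h1 : q ⁻¹' {q y} = (fun z : C' => y⁻¹ * z) ⁻¹' (N : Set C') := by
      ext z
      rw [mem_preimage, mem_preimage, mem_singleton_iff, SetLike.mem_coe, ← hq1, map_mul,
        map_inv, inv_mul_eq_one]
      exact eq_comm
    rw [h1]
    exact hNc.preimage (continuous_const.mul continuous_id)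
  have hFc : ∀ p, IsCompact (F p) := fun p =>
    ((hcos p.1).isCompact.prod (hcos p.2).isCompact).image hφc
  have hFm : ∀ p, μ (F p) = μ (F 1) := by
    rintro ⟨x, y⟩
    obtain ⟨x, rfl⟩ := hqs x
    obtain ⟨y, rfl⟩ := hqs y
    have h1 : F (q x, q y) = (fun z => z * (y : Q)) '' ((fun z => (x : Q) * z) '' F 1) := by
      ext z
      constructor
      · rintro ⟨⟨c, d⟩, ⟨hc, hd⟩, rfl⟩
        have hc' : q c = q x := hc
        have hd' : q d = q y := hd
        refine ⟨(x : Q) * φ (x⁻¹ * c, d * y⁻¹), ⟨_, ⟨(x⁻¹ * c, d * y⁻¹), ⟨?_, ?_⟩, rfl⟩, rfl⟩, ?_⟩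
        · change q (x⁻¹ * c) = 1
          rw [map_mul, map_inv, hc', inv_mul_cancel]
        · change q (d * y⁻¹) = 1
          rw [map_mul, map_inv, hd', mul_inv_cancel]
        · change (x : Q) * ((x⁻¹ * c : C') * g * (d * y⁻¹ : C')) * y = c * g * d
          push_cast
          group
      · rintro ⟨_, ⟨_, ⟨⟨c, d⟩, ⟨hc, hd⟩, rfl⟩, rfl⟩, rfl⟩
        have hc' : q c = 1 := hc
        have hd' : q d = 1 := hd
        refine ⟨(x * c, d * y), ⟨?_, ?_⟩, ?_⟩
        · change q (x * c) = q x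
          rw [map_mul, hc', mul_one]
        · change q (d * y) = q y
          rw [map_mul, hd', one_mul]
        · change ((x * c : C') : Q) * g * (d * y : C') = x * (c * g * d) * y
          push_cast
          group
    have h2 : IsCompact ((fun z => (x : Q) * z) '' F 1) := (hFc 1).image (continuous_const_mul _)
    rw [h1, hr (y : Q) (hC'H y.2) _ h2, image_mul_left, measure_preimage_mul]
  have hunion : ∀ X Y : Finset (C' ⧸ N),
      μ (φ '' ((q ⁻¹' (X : Set (C' ⧸ N))) ×ˢ (q ⁻¹' (Y : Set (C' ⧸ N))))) =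
        ((X ×ˢ Y).card : ENNReal) * μ (F 1) := by
    intro X Y
    have h1 : φ '' ((q ⁻¹' (X : Set (C' ⧸ N))) ×ˢ (q ⁻¹' (Y : Set (C' ⧸ N)))) =
        ⋃ p ∈ X ×ˢ Y, F p := by
      ext z
      rw [mem_iUnion₂]
      constructor
      · rintro ⟨⟨c, d⟩, ⟨hc, hd⟩, rfl⟩
        exact ⟨(q c, q d), Finset.mem_product.2 ⟨hc, hd⟩, (c, d), ⟨rfl, rfl⟩, rfl⟩
      · rintro ⟨⟨x, y⟩, hp, ⟨c, d⟩, ⟨hc, hd⟩, rfl⟩
        have hc' : q c = x := hc
        have hd' : q d = y := hd
        refine ⟨(c, d), ⟨?_, ?_⟩, rfl⟩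
        · change q c ∈ (X : Set (C' ⧸ N))
          rw [hc']
          exact (Finset.mem_product.1 hp).1
        · change q d ∈ (Y : Set (C' ⧸ N))
          rw [hd']
          exact (Finset.mem_product.1 hp).2
    rw [h1, measure_biUnion_finset ?_ fun p _ => (hFc p).measurableSet]
    · rw [Finset.sum_congr rfl fun p _ => hFm p, Finset.sum_const, nsmul_eq_mul]
    · intro p _ p' _ hpp
      refine disjoint_left.2 ?_
      rintro z ⟨u, ⟨hu1, hu2⟩, rfl⟩ ⟨u', ⟨hu1', hu2'⟩, h⟩
      have h2 : u' = u := hφi h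
      subst h2
      have e1 : q u'.1 = p.1 := hu1
      have e2 : q u'.2 = p.2 := hu2
      have e3 : q u'.1 = p'.1 := hu1'
      have e4 : q u'.2 = p'.2 := hu2'
      exact hpp (Prod.ext (e1.symm.trans e3) (e2.symm.trans e4))
  obtain ⟨KF, hKF⟩ : ∃ KF : Finset (C' ⧸ N), ∀ x, x ∈ KF ↔ ∃ c ∈ K, q c = x := by
    refine ⟨(Set.toFinite (q '' (K : Set C'))).toFinset, fun x => ?_⟩
    rw [Set.Finite.mem_toFinset]
    rfl
  have hmain : ∀ a b : C', μ {x | ∃ c ∈ C, ∃ d ∈ C, x = c * ((a : Q) * g * b) * d} =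
      ((KF ×ˢ KF).card : ENNReal) * μ (F 1) := by
    intro a b
    have h1 : {x | ∃ c ∈ C, ∃ d ∈ C, x = c * ((a : Q) * g * b) * d} =
        φ '' ((q ⁻¹' ((KF.image fun x => x * q a : Finset (C' ⧸ N)) : Set (C' ⧸ N))) ×ˢ
          (q ⁻¹' ((KF.image fun x => q b * x : Finset (C' ⧸ N)) : Set (C' ⧸ N)))) := by
      ext z
      constructor
      · rintro ⟨c, hc, d, hd, rfl⟩
        refine ⟨((⟨c, hCC' hc⟩ : C') * a, b * (⟨d, hCC' hd⟩ : C')), ⟨?_, ?_⟩, ?_⟩
        · refine Finset.mem_coe.2 (Finset.mem_image.2 ⟨q ⟨c, hCC' hc⟩, (hKF _).2 ⟨_, ?_, rfl⟩, ?_⟩)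
          · exact (hmemK _).2 hc
          · exact (map_mul q _ _).symm
        · refine Finset.mem_coe.2 (Finset.mem_image.2 ⟨q ⟨d, hCC' hd⟩, (hKF _).2 ⟨_, ?_, rfl⟩, ?_⟩)
          · exact (hmemK _).2 hd
          · exact (map_mul q _ _).symm
        · change (c * (a : Q)) * g * ((b : Q) * d) = c * ((a : Q) * g * b) * d
          group
      · rintro ⟨⟨c, d⟩, ⟨hc, hd⟩, rfl⟩
        obtain ⟨x, hx, hxc⟩ := Finset.mem_image.1 (Finset.mem_coe.1 hc)
        obtain ⟨y, hy, hyd⟩ := Finset.mem_image.1 (Finset.mem_coe.1 hd)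
        obtain ⟨c', hc', rfl⟩ := (hKF _).1 hx
        obtain ⟨d', hd', rfl⟩ := (hKF _).1 hy
        have h2 : c * a⁻¹ ∈ K := by
          have h3 : c'⁻¹ * (c * a⁻¹) ∈ N := by
            rw [← hq1, map_mul, map_mul, map_inv, map_inv]
            have h4 : q c' * q a = q c := hxc
            rw [← h4, mul_inv_cancel_right, inv_mul_cancel]
          have h4 := mul_mem hc' (hNK h3)
          rwa [mul_inv_cancel_left] at h4
        have h2' : b⁻¹ * d ∈ K := by
          have h3 : d'⁻¹ * (b⁻¹ * d) ∈ N := by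
            rw [← hq1, map_mul, map_mul, map_inv, map_inv]
            have h4 : q b * q d' = q d := hyd
            rw [← h4, inv_mul_cancel_left, inv_mul_cancel]
          have h4 := mul_mem hd' (hNK h3)
          rwa [mul_inv_cancel_left] at h4
        refine ⟨(c * a⁻¹ : C'), (hmemK _).1 h2, (b⁻¹ * d : C'), (hmemK _).1 h2', ?_⟩
        change (c : Q) * g * d = _
        push_cast
        group
    rw [h1, hunion, Finset.card_product, Finset.card_product,
      Finset.card_image_of_injective _ (mul_left_injective (q a)),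
      Finset.card_image_of_injective _ (mul_right_injective (q b))]
  have e1 := hmain ⟨a, ha⟩ ⟨b, hb⟩
  have e2 := hmain 1 1
  rw [e1, ← e2]
  congr 1
  ext x
  simp only [mem_ofPred_eq, OneMemClass.coe_one, one_mul, mul_one]

end Pool.Agent.H31.S3
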