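import Pool.Agent.H31.S3.Defs

/-!
# Lemma E: two ended sets in a group generated by `S`

`S` is a symmetric generating set containing `1` of the group `⟨S⟩`, `A` a subset whose boundary
`{u | S u meets A and the complement of A}` lies in `B = S^m`.
-/

open Filter Topology Set
open scoped Pointwise

namespace Pool.Agent.H31.S3

variable {H : Type*} [Group H]

/-- propagation: `k⁻¹ ∈ A'`, `(A ∪ B)ᶜ`-connectedness -/
theorem propag {S A A' : Set H} (h1 : (1 : H) ∈ S) (hinv : ∀ s ∈ S, s⁻¹ ∈ S) {m : ℕ}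
    (hd : ∀ u ∈ Subgroup.closure S, (∃ s ∈ S, s * u ∈ A) → (∃ s ∈ S, s * u ∉ A) → u ∈ S ^ m)
    (hd' : ∀ u ∈ Subgroup.closure S, (∃ s ∈ S, s * u ∈ A') → (∃ s ∈ S, s * u ∉ A') → u ∈ S ^ m)
    {k : H} (hk : k ∈ Subgroup.closure S) (hk' : k⁻¹ ∈ A')
    (hB : ∀ u ∈ Subgroup.closure S, u ∈ S ^ m → u * k ∈ A ∧ u * k ∉ S ^ m) :
    ∀ u ∈ Subgroup.closure S, (u ∉ A ∨ u ∈ S ^ m) → u * k⁻¹ ∈ A' := by
  have hki : k⁻¹ ∈ Subgroup.closure S := inv_mem hk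
  -- a point `u` of `Aᶜ ∪ B` has `u k⁻¹ ∉ B`
  have key : ∀ u ∈ Subgroup.closure S, (u ∉ A ∨ u ∈ S ^ m) → u * k⁻¹ ∉ S ^ m := by
    intro u hu hu2 hmem
    have h3 := hB (u * k⁻¹) (mul_mem hu hki) hmem
    rw [inv_mul_cancel_right] at h3
    rcases hu2 with h | h
    · exact h h3.1
    · exact h3.2 h
  have step : ∀ u ∈ Subgroup.closure S, (u ∉ A ∨ u ∈ S ^ m) → u * k⁻¹ ∈ A' →
      ∀ s ∈ S, s * u * k⁻¹ ∈ A' := by
    intro u hu hu2 hu3 s hs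
    by_contra hcon
    refine key u hu hu2 (hd' _ (mul_mem hu hki) ⟨1, h1, by rwa [one_mul]⟩ ⟨s, hs, ?_⟩)
    rwa [← mul_assoc]
  have hpow : ∀ j : ℕ, j ≤ m → ∀ u ∈ S ^ j, u ∈ Subgroup.closure S ∧ u * k⁻¹ ∈ A' := by
    intro j
    induction j with
    | zero =>
      intro _ u hu
      rw [pow_zero, Set.mem_one] at hu
      subst hu
      exact ⟨one_mem _, by rwa [one_mul]⟩
    | succ j ih =>
      intro hj u hu
      rw [pow_succ'] at hu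
      obtain ⟨s, hs, v, hv, rfl⟩ := Set.mem_mul.1 hu
      obtain ⟨h3, h4⟩ := ih (by omega) v hv
      exact ⟨mul_mem (Subgroup.subset_closure hs) h3,
        step v h3 (Or.inr (Set.pow_subset_pow_right h1 (by omega : j ≤ m) hv)) h4 s hs⟩
  intro u hu
  have hQ : ∀ s ∈ S, ∀ v ∈ Subgroup.closure S, (v ∉ A ∨ v ∈ S ^ m → v * k⁻¹ ∈ A') →
      (s * v ∉ A ∨ s * v ∈ S ^ m) → s * v * k⁻¹ ∈ A' := by
    intro s hs v hv ih h
    rcases h with h | h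
    · by_cases hvA : v ∈ A
      · have hvB : v ∈ S ^ m := hd v hv ⟨1, h1, by rwa [one_mul]⟩ ⟨s, hs, h⟩
        exact step v hv (Or.inr hvB) (hpow m le_rfl v hvB).2 s hs
      · exact step v hv (Or.inl hvA) (ih (Or.inl hvA)) s hs
    · exact (hpow m le_rfl _ h).2
  induction hu using Subgroup.closure_induction_left with
  | one =>
    intro _
    rwa [one_mul]
  | mul_left x hx y hy ih => exact hQ x hx y hy ih
  | inv_mul_cancel x hx y hy ih => exact hQ x⁻¹ (hinv x hx) y hy ih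

/-- **Lemma E** -/
theorem lemE {S A : Set H} (h1 : (1 : H) ∈ S) (hinv : ∀ s ∈ S, s⁻¹ ∈ S) {m : ℕ}
    (hd : ∀ u ∈ Subgroup.closure S, (∃ s ∈ S, s * u ∈ A) → (∃ s ∈ S, s * u ∉ A) → u ∈ S ^ m)
    (hAA : ∀ u ∈ Subgroup.closure S, u ∈ A → u⁻¹ ∈ A → u ∈ S ^ m)
    {k : H} (hk : k ∈ Subgroup.closure S) (hkA : k ∈ A) (hk2 : k ∉ S ^ (2 * m)) :
    ∀ u ∈ Subgroup.closure S, (u ∈ A ∨ u ∈ S ^ m) → u * k ∈ A ∧ u * k ∉ S ^ m := by
  have hki : k⁻¹ ∈ Subgroup.closure S := inv_mem hk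
  have hSinv : ∀ j : ℕ, ∀ u ∈ S ^ j, u⁻¹ ∈ S ^ j := by
    intro j
    induction j with
    | zero => intro u hu; rw [pow_zero, Set.mem_one] at *; rw [hu, inv_one]
    | succ j ih =>
      intro u hu
      rw [pow_succ'] at hu
      obtain ⟨s, hs, v, hv, rfl⟩ := Set.mem_mul.1 hu
      rw [mul_inv_rev, pow_succ]
      exact Set.mul_mem_mul (ih v hv) (hinv s hs)
  have hsub : S ^ m ⊆ S ^ (2 * m) := Set.pow_subset_pow_right h1 (by omega)
  have hno : ∀ u ∈ S ^ m, u * k ∉ S ^ m := by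
    intro u hu h
    refine hk2 ?_
    have : k = u⁻¹ * (u * k) := by group
    rw [this, two_mul, pow_add]
    exact Set.mul_mem_mul (hSinv m u hu) h
  have hBk : ∀ j : ℕ, j ≤ m → ∀ u ∈ S ^ j, u ∈ Subgroup.closure S ∧ u * k ∈ A := by
    intro j
    induction j with
    | zero =>
      intro _ u hu
      rw [pow_zero, Set.mem_one] at hu
      subst hu
      exact ⟨one_mem _, by rwa [one_mul]⟩
    | succ j ih =>
      intro hj u hu
      rw [pow_succ'] at hu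
      obtain ⟨s, hs, v, hv, rfl⟩ := Set.mem_mul.1 hu
      obtain ⟨h3, h4⟩ := ih (by omega) v hv
      refine ⟨mul_mem (Subgroup.subset_closure hs) h3, ?_⟩
      by_contra hcon
      refine hno v (Set.pow_subset_pow_right h1 (by omega : j ≤ m) hv)
        (hd _ (mul_mem h3 hk) ⟨1, h1, by rwa [one_mul]⟩ ⟨s, hs, ?_⟩)
      rwa [← mul_assoc]
  have hB : ∀ u ∈ Subgroup.closure S, u ∈ S ^ m → u * k ∈ A ∧ u * k ∉ S ^ m :=
    fun u _ hu => ⟨(hBk m le_rfl u hu).2, hno u hu⟩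
  have hkinv : k⁻¹ ∈ Aᶜ := fun h => hk2 (hsub (hAA k hk hkA h))
  have hd' : ∀ u ∈ Subgroup.closure S, (∃ s ∈ S, s * u ∈ Aᶜ) → (∃ s ∈ S, s * u ∉ Aᶜ) →
      u ∈ S ^ m := by
    intro u hu h2 h3
    refine hd u hu ?_ ?_
    · obtain ⟨s, hs, h⟩ := h3
      exact ⟨s, hs, not_not.1 h⟩
    · obtain ⟨s, hs, h⟩ := h2
      exact ⟨s, hs, h⟩
  have hP := propag h1 hinv hd hd' hk hkinv hB
  intro u hu h
  rcases h with h | h
  · have h5 : u * k ∈ Subgroup.closure S := mul_mem hu hk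
    by_contra hcon
    have h6 : u * k ∉ A ∨ u * k ∈ S ^ m := by
      by_cases h7 : u * k ∈ A
      · right
        by_contra h8
        exact hcon ⟨h7, h8⟩
      · exact Or.inl h7
    have h7 := hP _ h5 h6
    rw [mul_inv_cancel_right] at h7
    exact h7 h
  · exact hB u hu h

/-- **Lemma E, second part** -/
theorem lemE2 {S A A' : Set H} (h1 : (1 : H) ∈ S) (hinv : ∀ s ∈ S, s⁻¹ ∈ S) {m : ℕ}
    (hd : ∀ u ∈ Subgroup.closure S, (∃ s ∈ S, s * u ∈ A) → (∃ s ∈ S, s * u ∉ A) → u ∈ S ^ m)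
    (hd' : ∀ u ∈ Subgroup.closure S, (∃ s ∈ S, s * u ∈ A') → (∃ s ∈ S, s * u ∉ A') → u ∈ S ^ m)
    (hAA : ∀ u ∈ Subgroup.closure S, u ∈ A → u⁻¹ ∈ A → u ∈ S ^ m)
    {k : H} (hk : k ∈ Subgroup.closure S) (hkA : k ∈ A) (hkA' : k⁻¹ ∈ A')
    (hk2 : k ∉ S ^ (2 * m)) :
    ∀ u ∈ Subgroup.closure S, u ∉ A → u * k⁻¹ ∈ A' := by
  have hE := lemE h1 hinv hd hAA hk hkA hk2
  have hP := propag h1 hinv hd hd' hk hkA' fun u hu hu2 => hE u hu (Or.inr hu2)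
  exact fun u hu h => hP u hu (Or.inl h)

end Pool.Agent.H31.S3
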