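import Pool.Agent.H31.S3.Cross
import Pool.Agent.H31.S3.LemE

/-!
# `A \ A k` is relatively compact (job S3-G1)

`T : TwoPt H p q`, `K = Subgroup.closure S`, `A = {u | u x ∈ W}` with `W` a compact neighbourhood of `p`,
`A' = {u | u x' ∈ W'}` with `W'` a compact neighbourhood of `q`; the boundaries of `A` and `A'` and
`A ∩ A⁻¹` lie in `S^m`; `k ∈ A`, `k⁻¹ ∈ A'`, `k ∉ S^(2m)`.

Claim: `{u ∈ K | u ∈ A, u k⁻¹ ∉ A}` lies in a compact set.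
Proof.  By `lemE2` (for `u k⁻¹ ∉ A`) `u k⁻¹ k⁻¹ ∈ A'`, that is `u x₁ ∈ W'` with `x₁ = (k⁻¹ * k⁻¹) x'`.
If `u⁻¹ ∈ A` then `u ∈ S^m`, a compact set.  If `u⁻¹ ∉ A` then `u⁻¹ k⁻¹ ∈ A'` by `lemE2`, that is
`u⁻¹ x₂ ∈ W'` with `x₂ = k⁻¹ x'`.  By `T.symm.pairC` for `W'`, `x₁`, `x₂` such `u` lie in a compact set.
(`x₁, x₂ ∉ {p,q}` as `p`, `q` are fixed points.)
-/

open Filter Topology Set
open scoped Pointwise

namespace Pool.Agent.H31.S3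

variable {H M : Type*} [Group H] [TopologicalSpace H] [IsTopologicalGroup H]
  [TopologicalSpace M] [T2Space M] [MulAction H M] [ContinuousSMul H M] {p q : M}

theorem TwoPt.diffC (T : TwoPt H p q) {W W' : Set M} (hW' : IsCompact W') (hpW' : p ∉ W')
    {x x' : M} (hxp' : x' ≠ p) (hxq' : x' ≠ q)
    {S : Set H} (hS : IsCompact S) (h1 : (1 : H) ∈ S) (hinv : ∀ s ∈ S, s⁻¹ ∈ S) {m : ℕ}
    (hd : ∀ u ∈ Subgroup.closure S, (∃ s ∈ S, (s * u) • x ∈ W) → (∃ s ∈ S, (s * u) • x ∉ W) →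
      u ∈ S ^ m)
    (hd' : ∀ u ∈ Subgroup.closure S, (∃ s ∈ S, (s * u) • x' ∈ W') →
      (∃ s ∈ S, (s * u) • x' ∉ W') → u ∈ S ^ m)
    (hAA : ∀ u ∈ Subgroup.closure S, u • x ∈ W → u⁻¹ • x ∈ W → u ∈ S ^ m)
    {k : H} (hk : k ∈ Subgroup.closure S) (hkA : k • x ∈ W) (hkA' : k⁻¹ • x' ∈ W')
    (hk2 : k ∉ S ^ (2 * m)) :
    ∃ C : Set H, IsCompact C ∧
      ∀ u ∈ Subgroup.closure S, u • x ∈ W → (u * k⁻¹) • x ∉ W → u ∈ C := by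
  have hpc : ∀ j : ℕ, IsCompact (S ^ j) := by
    intro j
    induction j with
    | zero =>
      rw [pow_zero]
      exact isCompact_singleton
    | succ j ih =>
      rw [pow_succ]
      exact ih.mul hS
  have hE := lemE2 (A := {u : H | u • x ∈ W}) (A' := {u : H | u • x' ∈ W'}) h1 hinv hd hd' hAA hk
    hkA hkA' hk2
  have hnp : ∀ g : H, g • x' ≠ p := fun g h =>
    hxp' (smul_left_cancel g (by rw [h, T.fixp g]))
  have hnq : ∀ g : H, g • x' ≠ q := fun g h =>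
    hxq' (smul_left_cancel g (by rw [h, T.fixq g]))
  obtain ⟨C, hC, hC2⟩ := T.symm.pairC hW' hpW' (hnq (k⁻¹ * k⁻¹)) (hnp (k⁻¹ * k⁻¹))
    (hnq k⁻¹) (hnp k⁻¹)
  refine ⟨S ^ m ∪ C, (hpc m).union hC, fun u hu h3 h4 => ?_⟩
  by_cases h5 : u⁻¹ • x ∈ W
  · exact Or.inl (hAA u hu h3 h5)
  · right
    have h6 : (u * k⁻¹ * k⁻¹) • x' ∈ W' := hE (u * k⁻¹) (mul_mem hu (inv_mem hk)) h4
    have h7 : (u⁻¹ * k⁻¹) • x' ∈ W' := hE u⁻¹ (inv_mem hu) h5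
    refine hC2 u ?_ ?_
    · rw [smul_smul, ← mul_assoc]
      exact h6
    · rw [smul_smul]
      exact h7

end Pool.Agent.H31.S3
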