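import Pool.Agent.H31.S3.Cross

/-!
# Dynamics of one element, existence of contracted points (job S3-F1)

`T : TwoPt H p q`, `t : H` with `ToInf t`.

`TwoPt.contr_point`: some `x ∉ {p,q}` has `t^n x → p` or `t^(-n) x → p`.

Proof.  `W` a compact neighbourhood of `p` with `q ∉ W`, `U ⊆ W` an open neighbourhood of `p` with
`t U ⊆ W`, `t⁻¹ U ⊆ W` (`TwoPt.tube` with `S = {t, t⁻¹}`), `Z = W \ U`, compact, `p, q ∉ Z`.  Let `y ∈ W`,
`y ≠ p`.  If no `t^n y`, `n ≥ 0`, is in `Z`, then by induction `t^n y ∈ U` for all `n`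
(`t^(n+1) y ∈ t U ⊆ W`, not in `Z`), and `t^n y → p` by `TwoPt.tendsto_of_mem`: done.  The same for `t⁻¹`
(`ToInf.inv`).  Otherwise every `y ∈ W`, `y ≠ p`, has `n, n' ≥ 0` with `t^n y ∈ Z`, `t^(-n') y ∈ Z`.  By
`T.proper Z Z` and `ToInf.eventually_notMem` there is `N` with `t^j Z ∩ Z = ∅` for `j ≥ N`; apply this to
`z = t^(-n') y`, `t^(n+n') z ∈ Z`: `n + n' < N`, so `y ∈ ⋃_{n < N} t^(-n) Z =: D`, a compact set without
`p`.  So `{p} = W ∩ Dᶜ` is a neighbourhood of `p`: contradiction to `T.perfp`.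
-/

open Filter Topology Set
open scoped Pointwise

namespace Pool.Agent.H31.S3

variable {H M : Type*} [Group H] [TopologicalSpace H] [IsTopologicalGroup H]
  [TopologicalSpace M] [T2Space M] [LocallyCompactSpace M] [MulAction H M] [ContinuousSMul H M]
  {p q : M}

theorem TwoPt.contr_point (T : TwoPt H p q) {t : H} (ht : ToInf t) :
    (∃ x : M, x ≠ p ∧ x ≠ q ∧ Tendsto (fun n : ℕ => t ^ n • x) atTop (𝓝 p)) ∨
    (∃ x : M, x ≠ p ∧ x ≠ q ∧ Tendsto (fun n : ℕ => (t⁻¹) ^ n • x) atTop (𝓝 p)) := by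
  by_contra hcon
  obtain ⟨W, hWp, hWs, hW⟩ := local_compact_nhds (isOpen_compl_singleton.mem_nhds T.ne)
  have hqW : q ∉ W := fun h => hWs h rfl
  obtain ⟨U, hUW, hUo, hpU, hU⟩ := T.tube (S := {t, t⁻¹}) (toFinite _).isCompact hWp
  have hZ : IsCompact (W \ U) := hW.diff hUo
  have hpZ : p ∉ W \ U := fun h => h.2 hpU
  have hqZ : q ∉ W \ U := fun h => hqW h.1
  -- a point of `W` all of whose forward iterates avoid `Z`
  have hstay : ∀ s ∈ ({t, t⁻¹} : Set H), ToInf s → ∀ y ∈ W, y ≠ p →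
      (∀ n : ℕ, s ^ n • y ∉ W \ U) → Tendsto (fun n : ℕ => s ^ n • y) atTop (𝓝 p) := by
    intro s hs hsinf y hy hyp hn
    have hall : ∀ n : ℕ, s ^ n • y ∈ U := by
      intro n
      induction n with
      | zero =>
        by_contra h
        refine hn 0 ⟨?_, h⟩
        rw [pow_zero, one_smul]
        exact hy
      | succ n ih =>
        by_contra h
        refine hn (n + 1) ⟨?_, h⟩
        rw [pow_succ', mul_smul]
        exact hU s hs _ ih
    exact T.tendsto_of_mem hW hqW hyp (fun h => hqW (h ▸ hy)) hsinf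
      (Eventually.of_forall fun n => hUW (hall n))
  have hhit : ∀ y ∈ W, y ≠ p → (∃ n : ℕ, t ^ n • y ∈ W \ U) ∧
      ∃ n : ℕ, (t⁻¹) ^ n • y ∈ W \ U := by
    intro y hy hyp
    have hyq : y ≠ q := fun h => hqW (h ▸ hy)
    constructor
    · by_contra h
      push Not at h
      exact hcon (Or.inl ⟨y, hyp, hyq, hstay t (by simp) ht y hy hyp h⟩)
    · by_contra h
      push Not at h
      exact hcon (Or.inr ⟨y, hyp, hyq, hstay t⁻¹ (by simp) ht.inv y hy hyp h⟩)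
  obtain ⟨C, hC, hC2⟩ := T.proper _ _ hZ hZ hpZ hqZ hpZ hqZ
  obtain ⟨N, hN⟩ := ht.eventually_notMem hC
  have hD : IsCompact (⋃ n ∈ Finset.range N, (fun y : M => (t ^ n)⁻¹ • y) '' (W \ U)) :=
    (Finset.range N).isCompact_biUnion fun n _ => hZ.image (continuous_const_smul _)
  have hpD : p ∉ ⋃ n ∈ Finset.range N, (fun y : M => (t ^ n)⁻¹ • y) '' (W \ U) := by
    intro h
    obtain ⟨n, -, z, hz, hz2⟩ := mem_iUnion₂.1 h
    have h3 : z = p := by
      have h4 : (t ^ n)⁻¹ • z = (t ^ n)⁻¹ • p := by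
        rw [T.fixp]
        exact hz2
      exact smul_left_cancel _ h4
    exact hpZ (h3 ▸ hz)
  have hkey : ∀ y ∈ W, y ≠ p →
      y ∈ ⋃ n ∈ Finset.range N, (fun y : M => (t ^ n)⁻¹ • y) '' (W \ U) := by
    intro y hy hyp
    obtain ⟨⟨n, hn⟩, n', hn'⟩ := hhit y hy hyp
    have h5 : t ^ (n + n') • ((t⁻¹) ^ n' • y) = t ^ n • y := by
      rw [smul_smul, pow_add, inv_pow, mul_assoc, mul_inv_cancel, mul_one]
    have h6 : t ^ (n + n') ∈ C := hC2 _ _ hn' (by rw [h5]; exact hn)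
    have h7 : n + n' < N := by
      by_contra h
      exact hN _ (not_lt.1 h) h6
    refine mem_iUnion₂.2 ⟨n, Finset.mem_range.2 (by omega), t ^ n • y, hn, ?_⟩
    exact inv_smul_smul _ _
  have hDc := hD.isClosed.isOpen_compl.mem_nhds hpD
  have hmem : (W ∩ (⋃ n ∈ Finset.range N, (fun y : M => (t ^ n)⁻¹ • y) '' (W \ U))ᶜ) ∩ {p}ᶜ ∈
      𝓝[≠] p :=
    inter_mem (mem_nhdsWithin_of_mem_nhds (inter_mem hWp hDc)) self_mem_nhdsWithin
  obtain ⟨y, hy⟩ := NeBot.nonempty_of_mem T.perfp hmem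
  exact hy.1.2 (hkey y hy.1.1 hy.2)

end Pool.Agent.H31.S3
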