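import Pool.Agent.H31.S3.Cross

/-!
# Dynamics of one element, contraction of a neighbourhood (job S3-F2)

`T : TwoPt H p q`, `t : H` with `ToInf t`.

`TwoPt.contr_of_point`: if `t^n x → p` for one `x ∉ {p,q}` then `Contr t p`.

Proof.  `W` a compact neighbourhood of `p` with `q ∉ W`.
(a) For every compact `Y` with `p, q ∉ Y` there is `N` with `t^n y ∉ Y` for all `n ≥ N`, `y ∈ W`: let
`U₀ ∈ 𝓝 p` be the set of `T.bp {x} Y`, wlog open (replace it by its interior).  For large `n`,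
`t^n x ∈ U₀`, so `(t^n)⁻¹ z ∉ U₀` for all `z ∈ Y`; and by `T.proper Y (W \ U₀)` and
`ToInf.eventually_notMem` for `t⁻¹`, `(t^n)⁻¹ z ∉ W \ U₀` for all `z ∈ Y`, `n` large.  So
`(t^n)⁻¹ Y ∩ W = ∅`.
(b) `U ⊆ W` an open neighbourhood of `p` with `t U ⊆ W` (`TwoPt.tube` with `S = {t}`); `Y = W \ U`; `n₀`
as in (a) for `Y`.  `O = {y ∈ W | t^n₀ y ∈ U}`, a neighbourhood of `p`.  By induction `t^n y ∈ U` for
all `n ≥ n₀`, `y ∈ O`: `t^(n+1) y ∈ t U ⊆ W` and `∉ Y`.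
(c) For `U' ∈ 𝓝 p` apply (a) to `Y' = W \ interior U'`: for `n` large and `y ∈ O`, `t^n y ∈ U ⊆ W` and
`∉ Y'`, so `t^n y ∈ U'`.
-/

open Filter Topology Set
open scoped Pointwise

namespace Pool.Agent.H31.S3

variable {H M : Type*} [Group H] [TopologicalSpace H] [IsTopologicalGroup H]
  [TopologicalSpace M] [T2Space M] [LocallyCompactSpace M] [MulAction H M] [ContinuousSMul H M]
  {p q : M}

omit [ContinuousSMul H M] [LocallyCompactSpace M] in
/-- step (a): points of `W` leave every compact set without `p`, `q` uniformly -/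
theorem TwoPt.leave (T : TwoPt H p q) {t : H} (ht : ToInf t) {x : M} (hxp : x ≠ p)
    (hxq : x ≠ q) (hx : Tendsto (fun n : ℕ => t ^ n • x) atTop (𝓝 p)) {W : Set M}
    (hW : IsCompact W) (hqW : q ∉ W) {Y : Set M} (hY : IsCompact Y) (hpY : p ∉ Y) (hqY : q ∉ Y) :
    ∃ N : ℕ, ∀ n ≥ N, ∀ y ∈ W, t ^ n • y ∉ Y := by
  obtain ⟨U0, hU0, hU0'⟩ := T.bp {x} Y isCompact_singleton hY
    (fun h => hxp h.symm) (fun h => hxq h.symm) hpY hqY
  obtain ⟨N1, hN1⟩ := eventually_atTop.1 (hx.eventually hU0)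
  obtain ⟨C, hC, hC'⟩ := T.proper Y (W \ interior U0) hY (hW.diff isOpen_interior) hpY hqY
    (fun h => h.2 (mem_interior_iff_mem_nhds.2 hU0)) (fun h => hqW h.1)
  obtain ⟨N2, hN2⟩ := ht.inv.eventually_notMem hC
  refine ⟨max N1 N2, fun n hn y hy hcon => ?_⟩
  have h1 : t ^ n • x ∈ U0 := hN1 n (le_trans (le_max_left _ _) hn)
  have h2 := hU0' (t ^ n) x rfl _ hcon h1
  rw [inv_smul_smul] at h2
  have h3 : (t ^ n)⁻¹ ∈ C := by
    refine hC' (t ^ n)⁻¹ _ hcon ?_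
    rw [inv_smul_smul]
    exact ⟨hy, fun h => h2 (interior_subset h)⟩
  rw [← inv_pow] at h3
  exact hN2 n (le_trans (le_max_right _ _) hn) h3

theorem TwoPt.contr_of_point (T : TwoPt H p q) {t : H} (ht : ToInf t) {x : M} (hxp : x ≠ p)
    (hxq : x ≠ q) (hx : Tendsto (fun n : ℕ => t ^ n • x) atTop (𝓝 p)) : Contr t p := by
  obtain ⟨W, hWp, hWq, hW⟩ := LocallyCompactSpace.local_compact_nhds p {q}ᶜ
    (isOpen_compl_singleton.mem_nhds (fun h => T.ne h))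
  have hqW : q ∉ W := fun h => hWq h rfl
  obtain ⟨U, hUW, hUo, hpU, hU⟩ := T.tube (isCompact_singleton (x := t)) hWp
  obtain ⟨n0, hn0⟩ := T.leave ht hxp hxq hx hW hqW (hW.diff hUo)
    (fun h => h.2 hpU) (fun h => hqW h.1)
  have hO : {y : M | y ∈ W ∧ t ^ n0 • y ∈ U} ∈ 𝓝 p := by
    have h1 : Tendsto (fun y : M => t ^ n0 • y) (𝓝 p) (𝓝 (t ^ n0 • p)) :=
      (continuous_const_smul (t ^ n0)).continuousAt
    rw [T.fixp] at h1
    exact inter_mem hWp (h1 (hUo.mem_nhds hpU))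
  refine ⟨{y : M | y ∈ W ∧ t ^ n0 • y ∈ U}, hO, fun U' hU' => ?_⟩
  have hind : ∀ y : M, y ∈ W → t ^ n0 • y ∈ U → ∀ n ≥ n0, t ^ n • y ∈ U := by
    intro y hyW hyU n hn
    induction n, hn using Nat.le_induction with
    | base => exact hyU
    | succ n hn ih =>
      by_contra hcon
      refine hn0 (n + 1) (by omega) y hyW ⟨?_, hcon⟩
      rw [pow_succ', mul_smul]
      exact hU t rfl _ ih
  obtain ⟨N', hN'⟩ := T.leave ht hxp hxq hx hW hqW (hW.diff (isOpen_interior (s := U')))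
    (fun h => h.2 (mem_interior_iff_mem_nhds.2 hU')) (fun h => hqW h.1)
  refine ⟨max n0 N', fun n hn y hy => ?_⟩
  have h1 := hind y hy.1 hy.2 n (le_trans (le_max_left _ _) hn)
  by_contra hcon
  exact hN' n (le_trans (le_max_right _ _) hn) y hy.1
    ⟨hUW h1, fun h => hcon (interior_subset h)⟩

end Pool.Agent.H31.S3
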