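import Pool.Agent.H31.S3.Cross

/-!
# Dynamics of one element, escape (job S3-F3)

`T : TwoPt H p q`.

* `TwoPt.not_contr_both`: `Contr t p` and `Contr t⁻¹ p` are contradictory: let `x ≠ p, q` be a point of
  both neighbourhoods (`T.perfp`; `q ≠ p` so `{q}ᶜ ∈ 𝓝 p`), `U` from `T.bp {x} {x}`; for `n` large
  `t^n x ∈ U` and `(t^n)⁻¹ x ∈ U`.
* `TwoPt.escape`: if `Contr t p`, `Contr t q` then for `x ∉ {p,q}` and `D` compact `t^(-n) x ∉ D` for `n`
  large.  Proof: pick `x₀ ≠ p, q` in the contracted neighbourhood of `p`; `T.bp {x₀} {x}` gives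
  `U₁ ∈ 𝓝 p` with `(t^n)⁻¹ x ∉ U₁` for `n` large (as `t^n x₀ ∈ U₁`).  The same at `q` (`T.bq`) with `U₂`.
  `D' = D \ (interior U₁ ∪ interior U₂)` is compact without `p, q`: `T.proper {x} D'` and
  `ToInf.eventually_notMem` for `t⁻¹`.
-/

open Filter Topology Set
open scoped Pointwise

namespace Pool.Agent.H31.S3

variable {H M : Type*} [Group H] [TopologicalSpace H] [IsTopologicalGroup H]
  [TopologicalSpace M] [T2Space M] [MulAction H M] {p q : M}

omit [TopologicalSpace H] [IsTopologicalGroup H] [MulAction H M] in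
theorem exists_near [TopologicalSpace H] [MulAction H M] (T : TwoPt H p q) {O : Set M}
    (hO : O ∈ 𝓝 p) : ∃ x ∈ O, x ≠ p ∧ x ≠ q := by
  have hmem : (O ∩ {q}ᶜ) ∩ {p}ᶜ ∈ 𝓝[≠] p :=
    inter_mem (mem_nhdsWithin_of_mem_nhds (inter_mem hO (isOpen_compl_singleton.mem_nhds T.ne)))
      self_mem_nhdsWithin
  obtain ⟨x, hx⟩ := NeBot.nonempty_of_mem T.perfp hmem
  exact ⟨x, hx.1.1, hx.2, hx.1.2⟩

omit [IsTopologicalGroup H] in
theorem TwoPt.not_contr_both (T : TwoPt H p q) {t : H} (h1 : Contr t p) (h2 : Contr t⁻¹ p) :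
    False := by
  obtain ⟨O1, hO1, h1⟩ := h1
  obtain ⟨O2, hO2, h2⟩ := h2
  obtain ⟨x, hx, hxp, hxq⟩ := exists_near T (inter_mem hO1 hO2)
  obtain ⟨U, hU, hU2⟩ := T.bp {x} {x} isCompact_singleton isCompact_singleton
    (fun h => hxp (mem_singleton_iff.1 h).symm) (fun h => hxq (mem_singleton_iff.1 h).symm)
    (fun h => hxp (mem_singleton_iff.1 h).symm) (fun h => hxq (mem_singleton_iff.1 h).symm)
  obtain ⟨N1, hN1⟩ := h1 U hU
  obtain ⟨N2, hN2⟩ := h2 U hU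
  have h3 := hN1 (max N1 N2) (le_max_left _ _) x hx.1
  have h4 := hN2 (max N1 N2) (le_max_right _ _) x hx.2
  refine hU2 (t ^ (max N1 N2)) x rfl x rfl h3 ?_
  rw [← inv_pow]
  exact h4

omit [IsTopologicalGroup H] in
theorem TwoPt.away (T : TwoPt H p q) {t : H} (h1 : Contr t p) {x : M} (hxp : x ≠ p)
    (hxq : x ≠ q) : ∃ U ∈ 𝓝 p, ∃ N : ℕ, ∀ n ≥ N, (t⁻¹) ^ n • x ∉ U := by
  obtain ⟨O, hO, h1⟩ := h1
  obtain ⟨y, hy, hyp, hyq⟩ := exists_near T hO
  obtain ⟨U, hU, hU2⟩ := T.bp {y} {x} isCompact_singleton isCompact_singleton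
    (fun h => hyp (mem_singleton_iff.1 h).symm) (fun h => hyq (mem_singleton_iff.1 h).symm)
    (fun h => hxp (mem_singleton_iff.1 h).symm) (fun h => hxq (mem_singleton_iff.1 h).symm)
  obtain ⟨N, hN⟩ := h1 U hU
  refine ⟨U, hU, N, fun n hn => ?_⟩
  have h3 := hU2 (t ^ n) y rfl x rfl (hN n hn y hy)
  rw [inv_pow]
  exact h3

theorem TwoPt.escape (T : TwoPt H p q) {t : H} (ht : ToInf t) (h1 : Contr t p)
    (h2 : Contr t q) {x : M} (hxp : x ≠ p) (hxq : x ≠ q) {D : Set M} (hD : IsCompact D) :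
    ∃ N : ℕ, ∀ n ≥ N, (t⁻¹) ^ n • x ∉ D := by
  obtain ⟨U1, hU1, N1, hN1⟩ := T.away h1 hxp hxq
  obtain ⟨U2, hU2, N2, hN2⟩ := T.symm.away h2 hxq hxp
  have hD' : IsCompact (D \ (interior U1 ∪ interior U2)) :=
    hD.diff (isOpen_interior.union isOpen_interior)
  obtain ⟨C, hC, hC2⟩ := T.proper {x} _ isCompact_singleton hD'
    (fun h => hxp (mem_singleton_iff.1 h).symm) (fun h => hxq (mem_singleton_iff.1 h).symm)
    (fun h => h.2 (Or.inl (mem_interior_iff_mem_nhds.2 hU1)))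
    (fun h => h.2 (Or.inr (mem_interior_iff_mem_nhds.2 hU2)))
  obtain ⟨N3, hN3⟩ := ht.inv.eventually_notMem hC
  refine ⟨max N1 (max N2 N3), fun n hn hmem => ?_⟩
  have ha : N1 ≤ n := (le_max_left _ _).trans hn
  have hb : N2 ≤ n := (le_max_left _ _).trans ((le_max_right _ _).trans hn)
  have hc : N3 ≤ n := (le_max_right _ _).trans ((le_max_right _ _).trans hn)
  refine hN3 n hc (hC2 _ x rfl ⟨hmem, ?_⟩)
  rintro (h | h)
  · exact hN1 n ha (interior_subset h)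
  · exact hN2 n hb (interior_subset h)

end Pool.Agent.H31.S3
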