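import Pool.Agent.H31.S3.Conv
import Pool.Agent.H31.S3.Inf

/-!
# Elliptic elements fixing `p` contract `Y` to `p` (job S3-O)

`Y` compact with at least three points, `p ∈ Y`, `a n → ∞`, each `a n` fixes `p`, preserves `Y` and has all
its powers in a compact set.  Then for every neighbourhood `O` of `p` some `a n` maps `Y \ O` into `O`.

Proof.  Let `𝒰 = hyperfilter ℕ` (`≤ atTop`) and `α, β` from `Sys.convergence` for `g = a`.
(1) `α = β`.  Otherwise let `r ∈ Y`, `r ≠ α, β`, and choose open `A ∋ α`, `B ∋ β` with `r ∉ closure A`,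
`r ∉ B`, `closure A ∩ B = ∅` (`t2_separation`: disjoint open sets around `α` and `β`, and around `α` and
`r`; if `A`, `A'` are open and disjoint then `closure A ∩ A' = ∅`, `Disjoint.closure_left`; for `B` remove
`r`, which is closed).  For some `n`: `a n y ∈ A` for all `y ∈ Y \ B`.  Then `(a n)^k r ∈ A` for all
`k ≥ 1` by induction (`(a n)^k r ∈ Y ∩ A ⊆ Y \ B`).  By `exists_pow_mem` with the neighbourhood
`{g | g r ∉ closure A}` of `1` there is `k ≥ 1` with `(a n)^k r ∉ closure A`: contradiction.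
(2) `α = p`: otherwise there are `A ∈ 𝓝 α`, `B ∈ 𝓝 β = 𝓝 α` not containing `p`, and `a n p = p ∈ A`.
(3) So `α = β = p`; use the conclusion of `Sys.convergence` with `A = B = O`; a set of an ultrafilter is
nonempty.
-/

open Filter Topology Set
open scoped Pointwise

namespace Pool.Agent.H31.S3

theorem Sys.elliptic {G M : Type*} [Group G] [TopologicalSpace G] [IsTopologicalGroup G]
    [LocallyCompactSpace G] [TopologicalSpace M] [T2Space M] [MulAction G M] [ContinuousSMul G M]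
    (hS : Sys G M) {Y : Set M} (hY : IsCompact Y)
    (h3 : ∃ x ∈ Y, ∃ y ∈ Y, ∃ z ∈ Y, x ≠ y ∧ x ≠ z ∧ y ≠ z) {p : M} (hp : p ∈ Y) {a : ℕ → G}
    (ha : Tendsto a atTop (cocompact G)) (hap : ∀ n, a n • p = p)
    (hin : ∀ n, ∀ y ∈ Y, a n • y ∈ Y) (hin' : ∀ n, ∀ y ∈ Y, (a n)⁻¹ • y ∈ Y)
    (hell : ∀ n, ∃ C : Set G, IsCompact C ∧ ∀ k : ℕ, a n ^ k ∈ C) :
    ∀ O ∈ 𝓝 p, ∃ n, ∀ y ∈ Y, y ∉ O → a n • y ∈ O := by
  have hle : ((hyperfilter ℕ : Ultrafilter ℕ) : Filter ℕ) ≤ atTop := by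
    rw [← Nat.cofinite_eq_atTop]
    exact hyperfilter_le_cofinite
  obtain ⟨α, hα, β, hβ, hconv⟩ := hS.convergence (𝒰 := hyperfilter ℕ) (ha.mono_left hle) hY h3
    (Eventually.of_forall hin) (Eventually.of_forall hin')
  -- (1)
  have hαβ : α = β := by
    by_contra hne
    obtain ⟨r, hrY, hrα, hrβ⟩ : ∃ r ∈ Y, r ≠ α ∧ r ≠ β := by
      obtain ⟨x, hx, y, hy, z, hz, hxy, hxz, hyz⟩ := h3
      by_contra hcon
      push Not at hcon
      have h1 := hcon x hx
      have h2 := hcon y hy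
      have h4 := hcon z hz
      by_cases hxα : x = α
      · have hyα : y ≠ α := fun h => hxy (hxα.trans h.symm)
        have hzα : z ≠ α := fun h => hxz (hxα.trans h.symm)
        exact hyz ((h2 hyα).trans (h4 hzα).symm)
      · have hxβ := h1 hxα
        by_cases hyα : y = α
        · have hzα : z ≠ α := fun h => hyz (hyα.trans h.symm)
          exact hxz (hxβ.trans (h4 hzα).symm)
        · exact hxy (hxβ.trans (h2 hyα).symm)
    obtain ⟨A, A1, hA, hA1, hαA, hβA1, hd1⟩ := t2_separation hne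
    obtain ⟨A2, A3, hA2, hA3, hαA2, hrA3, hd2⟩ := t2_separation hrα.symm
    have hcl1 : Disjoint (closure (A ∩ A2)) A1 :=
      (hd1.mono_left inter_subset_left).closure_left hA1
    have hcl2 : Disjoint (closure (A ∩ A2)) A3 :=
      (hd2.mono_left inter_subset_right).closure_left hA3
    have hrcl : r ∉ closure (A ∩ A2) := fun h => hcl2.le_bot ⟨h, hrA3⟩
    have hB : A1 \ {r} ∈ 𝓝 β :=
      (hA1.sdiff isClosed_singleton).mem_nhds ⟨hβA1, fun h => hrβ (mem_singleton_iff.1 h).symm⟩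
    obtain ⟨n, hn⟩ := (hconv (A ∩ A2) ((hA.inter hA2).mem_nhds ⟨hαA, hαA2⟩) _ hB).exists
    have hstep : ∀ k : ℕ, a n ^ (k + 1) • r ∈ Y ∧ a n ^ (k + 1) • r ∈ A ∩ A2 := by
      intro k
      induction k with
      | zero =>
        rw [zero_add, pow_one]
        exact ⟨hin n r hrY, hn r hrY fun h => h.2 rfl⟩
      | succ k ih =>
        rw [pow_succ' (a n) (k + 1), mul_smul]
        refine ⟨hin n _ ih.1, hn _ ih.1 fun h => ?_⟩
        exact hcl1.le_bot ⟨subset_closure ih.2, h.1⟩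
    obtain ⟨C, hC, hCk⟩ := hell n
    have hU : {g : G | g • r ∉ closure (A ∩ A2)} ∈ 𝓝 (1 : G) := by
      have hopen : IsOpen {g : G | g • r ∉ closure (A ∩ A2)} :=
        isClosed_closure.isOpen_compl.preimage (continuous_id.smul continuous_const)
      refine hopen.mem_nhds ?_
      show (1 : G) • r ∉ closure (A ∩ A2)
      rwa [one_smul]
    obtain ⟨k, hk1, hk2⟩ := exists_pow_mem hC hCk hU
    obtain ⟨j, rfl⟩ : ∃ j, k = j + 1 := ⟨k - 1, by omega⟩
    exact hk2 (subset_closure (hstep j).2)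
  subst hαβ
  -- (2)
  have hαp : α = p := by
    by_contra hne
    have hnb : ({p}ᶜ : Set M) ∈ 𝓝 α := isOpen_compl_singleton.mem_nhds hne
    obtain ⟨n, hn⟩ := (hconv _ hnb _ hnb).exists
    have := hn p hp fun h => h rfl
    rw [hap] at this
    exact this rfl
  subst hαp
  intro O hO
  exact (hconv O hO O hO).exists

end Pool.Agent.H31.S3
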