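import Pool.Agent.H31.S3.Cross
import Pool.Agent.H31.S3.LemE

/-!
# Elements with powers tending to infinity (job S3-E)

`T : TwoPt H p q`, `S` a compact symmetric neighbourhood of `1` such that the open subgroup
`K = Subgroup.closure S` is not compact.

* `TwoPt.exists_orbit`: `W` a compact neighbourhood of `p`, `q ∉ W`.  Some `x ∉ {p,q}` has the property
  that `{u ∈ K | u x ∈ W}` is contained in no compact set.  Proof by contradiction.  Let `U ⊆ W` be an
  open neighbourhood of `p` with `S U ⊆ W` (`TwoPt.tube`), `Z = W \ U`, compact, `p, q ∉ Z`.  For `z ∈ Z`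
  the orbit `K z` is a neighbourhood of `z` (`T.opn z` with `U = K ∈ 𝓝 1`), so `Z ⊆ ⋃ K zⱼ`, a finite
  union (`IsCompact.elim_nhds_subcover`), `zⱼ ∈ Z`.  Let `Cⱼ` be compact with
  `{u ∈ K | u zⱼ ∈ W} ⊆ Cⱼ`.  Claim: every `y ∈ W`, `y ≠ p`, lies in `⋃ Cⱼ zⱼ`.  If `y = u zⱼ` with
  `u ∈ K` this is clear.  So it suffices that `K y` meets `Z` (then `K y = K zⱼ`).  Otherwise `y ∈ U`
  and by induction (`Subgroup.closure_induction_left`) `u y ∈ U` for all `u ∈ K`: `s u y ∈ W` and it is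
  not in `Z`, hence in `U`.  So `K = {u ∈ K | u y ∈ W}` is contained in a compact set and, being closed
  (an open subgroup is closed), is compact: contradiction.  Now `⋃ Cⱼ zⱼ` is compact, hence closed, and
  does not contain `p` (`u zⱼ = p = u p` implies `zⱼ = p`); so `W ∩ (⋃ Cⱼ zⱼ)ᶜ = {p}` is a neighbourhood
  of `p`, contradiction to `T.perfp`.
* `TwoPt.exists_toInf`: there is `t : H` with `ToInf t`.  Proof: `x` as above,
  `A = {u | u x ∈ W}`.  By `TwoPt.cross`, `TwoPt.pairC` (with `y = x`) and `exists_pow_superset` there is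
  `m ≥ 1` with `hd` and `hAA` of `lemE` (powers of `S` are monotone, `pow_mono'`).  The set `S^(2m)` is
  compact (`IsCompact.pow` or induction with `IsCompact.mul`), so there is `k ∈ K`, `k x ∈ W`,
  `k ∉ S^(2m)`.  By `lemE`, induction on `n`: `k^n ∈ A` and `k^n ∉ S^m` for all `n ≥ 1` (`k ∉ S^m ⊆
  S^(2m)`), so `k^n ∉ S` for `n ≥ 1` (`S ⊆ S^m`), and `toInf_of_avoid` applies.
-/

open Filter Topology Set
open scoped Pointwise

namespace Pool.Agent.H31.S3

variable {H M : Type*} [Group H] [TopologicalSpace H] [IsTopologicalGroup H] [T2Space H]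
  [TopologicalSpace M] [T2Space M] [MulAction H M] [ContinuousSMul H M] {p q : M}

theorem TwoPt.exists_orbit (T : TwoPt H p q) {W : Set M} (hW : IsCompact W) (hWp : W ∈ 𝓝 p)
    (hqW : q ∉ W) {S : Set H} (hS : IsCompact S) (hS1 : S ∈ 𝓝 (1 : H))
    (hinv : ∀ s ∈ S, s⁻¹ ∈ S) (hK : ¬ IsCompact (Subgroup.closure S : Set H)) :
    ∃ x : M, x ≠ p ∧ x ≠ q ∧
      ¬ ∃ C : Set H, IsCompact C ∧ ∀ u ∈ Subgroup.closure S, u • x ∈ W → u ∈ C := by
  classical
  by_contra hcon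
  have hcon' : ∀ x : M, x ≠ p → x ≠ q →
      ∃ C : Set H, IsCompact C ∧ ∀ u ∈ Subgroup.closure S, u • x ∈ W → u ∈ C := by
    intro x hx1 hx2
    by_contra h
    exact hcon ⟨x, hx1, hx2, h⟩
  obtain ⟨U, hUW, hUo, hpU, hSU⟩ := T.tube hS hWp
  have hK1 : (Subgroup.closure S : Set H) ∈ 𝓝 (1 : H) :=
    mem_of_superset hS1 Subgroup.subset_closure
  have hKo : IsOpen (Subgroup.closure S : Set H) := Subgroup.isOpen_of_mem_nhds _ hK1
  have hKc : IsClosed (Subgroup.closure S : Set H) := Subgroup.isClosed_of_isOpen _ hKo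
  have hZ : IsCompact (W \ U) := hW.diff hUo
  have hne : ∀ z ∈ W \ U, z ≠ p ∧ z ≠ q := fun z hz =>
    ⟨fun h => hz.2 (h ▸ hpU), fun h => hqW (h ▸ hz.1)⟩
  have hnb : ∀ z ∈ W \ U, {a : M | ∃ u ∈ Subgroup.closure S, u • z = a} ∈ 𝓝 z := by
    intro z hz
    obtain ⟨A, hA, hA2⟩ := T.opn z (hne z hz).1 (hne z hz).2 _ hK1
    exact mem_of_superset hA hA2
  obtain ⟨I, hI1, hI2⟩ := hZ.elim_nhds_subcover
    (fun z => {a : M | ∃ u ∈ Subgroup.closure S, u • z = a}) hnb
  have hC : ∀ z : M, ∃ C : Set H, IsCompact C ∧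
      (z ∈ I → ∀ u ∈ Subgroup.closure S, u • z ∈ W → u ∈ C) := by
    intro z
    by_cases hz : z ∈ I
    · obtain ⟨C, hC, hC2⟩ := hcon' z (hne z (hI1 z hz)).1 (hne z (hI1 z hz)).2
      exact ⟨C, hC, fun _ => hC2⟩
    · exact ⟨∅, isCompact_empty, fun h => absurd h hz⟩
  choose C hCc hC2 using hC
  have hD : IsCompact (⋃ z ∈ I, (fun u : H => u • z) '' C z) :=
    I.isCompact_biUnion fun z _ => (hCc z).image (continuous_id.smul continuous_const)
  have hpD : p ∉ ⋃ z ∈ I, (fun u : H => u • z) '' C z := by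
    intro h
    obtain ⟨z, hz, u, hu, hu2⟩ := mem_iUnion₂.1 h
    have h3 : z = p := by
      have h4 : u • z = u • p := by
        rw [T.fixp u]
        exact hu2
      exact smul_left_cancel u h4
    exact (hne z (hI1 z hz)).1 h3
  have hkey : ∀ y ∈ W, y ≠ p → y ∈ ⋃ z ∈ I, (fun u : H => u • z) '' C z := by
    intro y hy hyp
    have hyq : y ≠ q := fun h => hqW (h ▸ hy)
    by_cases hex : ∃ u ∈ Subgroup.closure S, u • y ∈ W \ U
    · obtain ⟨u, hu, huy⟩ := hex
      obtain ⟨z, hz, v, hv, hvz⟩ := mem_iUnion₂.1 (hI2 huy)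
      have h5 : (u⁻¹ * v) • z = y := by
        rw [mul_smul, hvz, inv_smul_smul]
      refine mem_iUnion₂.2 ⟨z, hz, u⁻¹ * v, hC2 z hz _ (mul_mem (inv_mem hu) hv) ?_, h5⟩
      rw [h5]
      exact hy
    · exfalso
      have hex' : ∀ u ∈ Subgroup.closure S, u • y ∈ W → u • y ∈ U := by
        intro u hu h1
        by_contra h2
        exact hex ⟨u, hu, h1, h2⟩
      have hall : ∀ u ∈ Subgroup.closure S, u • y ∈ U := by
        intro u hu
        induction hu using Subgroup.closure_induction_left with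
        | one => exact hex' 1 (one_mem _) (by rwa [one_smul])
        | mul_left s hs v hv ih =>
          refine hex' (s * v) (mul_mem (Subgroup.subset_closure hs) hv) ?_
          rw [mul_smul]
          exact hSU s hs _ ih
        | inv_mul_cancel s hs v hv ih =>
          refine hex' (s⁻¹ * v) (mul_mem (Subgroup.subset_closure (hinv s hs)) hv) ?_
          rw [mul_smul]
          exact hSU _ (hinv s hs) _ ih
      obtain ⟨C', hC', hC'2⟩ := hcon' y hyp hyq
      exact hK (hC'.of_isClosed_subset hKc fun u hu => hC'2 u hu (hUW (hall u hu)))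
  have hDc := hD.isClosed.isOpen_compl.mem_nhds hpD
  have hmem : (W ∩ (⋃ z ∈ I, (fun u : H => u • z) '' C z)ᶜ) ∩ {p}ᶜ ∈ 𝓝[≠] p :=
    inter_mem (mem_nhdsWithin_of_mem_nhds (inter_mem hWp hDc)) self_mem_nhdsWithin
  obtain ⟨y, hy⟩ := NeBot.nonempty_of_mem T.perfp hmem
  exact hy.1.2 (hkey y hy.1.1 hy.2)

theorem TwoPt.exists_toInf [LocallyCompactSpace M] (T : TwoPt H p q) {S : Set H}
    (hS : IsCompact S) (hS1 : S ∈ 𝓝 (1 : H)) (hinv : ∀ s ∈ S, s⁻¹ ∈ S)
    (hK : ¬ IsCompact (Subgroup.closure S : Set H)) : ∃ t : H, ToInf t := by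
  have h1 : (1 : H) ∈ S := mem_of_mem_nhds hS1
  obtain ⟨W, hWp, hWs, hW⟩ := local_compact_nhds (isOpen_compl_singleton.mem_nhds T.ne)
  have hqW : q ∉ W := fun h => hWs h rfl
  obtain ⟨x, hxp, hxq, hx⟩ := T.exists_orbit hW hWp hqW hS hS1 hinv hK
  obtain ⟨C1, hC1, hC1'⟩ := T.cross hW hWp hqW hxp hxq hS hinv
  obtain ⟨C2, hC2, hC2'⟩ := T.pairC hW hqW hxp hxq hxp hxq
  obtain ⟨m, hm⟩ := exists_pow_superset hS1 hinv (hC1.union hC2)
  have hm' : ∀ u ∈ C1 ∪ C2, u ∈ Subgroup.closure S → u ∈ S ^ (m + 1) := fun u hu hu2 =>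
    pow_mono' h1 (Nat.le_succ m) (hm u hu hu2)
  have hpc : ∀ j : ℕ, IsCompact (S ^ j) := by
    intro j
    induction j with
    | zero =>
      rw [pow_zero]
      exact isCompact_singleton
    | succ j ih =>
      rw [pow_succ]
      exact ih.mul hS
  obtain ⟨k, hkK, hkW, hk2⟩ : ∃ k ∈ Subgroup.closure S, k • x ∈ W ∧ k ∉ S ^ (2 * (m + 1)) := by
    by_contra hcon
    refine hx ⟨S ^ (2 * (m + 1)), hpc _, fun u hu hu2 => ?_⟩
    by_contra h
    exact hcon ⟨u, hu, hu2, h⟩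
  have hE := lemE (A := {u : H | u • x ∈ W}) h1 hinv (m := m + 1)
    (fun u hu h3 h4 => hm' u (Or.inl (hC1' u h3 h4)) hu)
    (fun u hu h3 h4 => hm' u (Or.inr (hC2' u h3 h4)) hu) hkK hkW hk2
  have hind : ∀ n : ℕ, k ^ (n + 1) ∈ {u : H | u • x ∈ W} ∧ k ^ (n + 1) ∉ S ^ (m + 1) := by
    intro n
    induction n with
    | zero =>
      rw [zero_add, pow_one]
      exact ⟨hkW, fun h => hk2 (pow_mono' h1 (by omega) h)⟩
    | succ n ih =>
      rw [pow_succ k (n + 1)]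
      exact hE _ (pow_mem hkK _) (Or.inl ih.1)
  refine ⟨k, toInf_of_avoid hS1 fun n hn hmem => ?_⟩
  obtain ⟨n, rfl⟩ : ∃ n', n = n' + 1 := ⟨n - 1, by omega⟩
  refine (hind n).2 ?_
  have h6 : S ^ 1 ⊆ S ^ (m + 1) := pow_mono' h1 (by omega)
  rw [pow_one] at h6
  exact h6 hmem

end Pool.Agent.H31.S3
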