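import Pool.Agent.H31.S3.Defs

/-!
# From a sharply 3-transitive action to `Sys` (job S3-A)

`sys_of_sharp3`.  Let `X = {(x,y,z) ∈ M × M × M | x, y, z distinct}`, an open subset of the locally
compact Hausdorff space `M × M × M`, hence locally compact Hausdorff and a Baire space; `G` acts on
`X` continuously and transitively (define the instances locally).  By
`isOpenMap_smul_of_sigmaCompact` the orbit map `G → X`, `g ↦ g • (x,y,z)` is open.

* `opn`: the image of `interior U` is an open neighbourhood of `(x,y,z)` in `X`, so it contains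
  `(A ×ˢ B ×ˢ C) ∩ X` for neighbourhoods `A, B, C` of `x, y, z`; shrink them to be pairwise disjoint
  (`t2_separation`), so that `A ×ˢ B ×ˢ C ⊆ X`.
* `perf`: suppose `𝓝[≠] x = ⊥`, that is `{x}` is open.  `G` is transitive on `M` (there are three
  points; complete `x` and a given `y` to triples of distinct points), so all points are open and
  `M`, `M × M × M` and `X` are discrete.  The orbit map `G → X` of a triple is continuous and
  injective (by uniqueness), so `{g}`, the preimage of an open set, is open for all `g` and `G` is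
  discrete: contradiction.
* `trans`, `free`: from `hst`.
-/

open Filter Topology Set

namespace Pool.Agent.H31.S3

/-- triples of distinct points -/
def Trip (M : Type*) : Type _ := {p : M × M × M // p.1 ≠ p.2.1 ∧ p.1 ≠ p.2.2 ∧ p.2.1 ≠ p.2.2}

instance (M : Type*) [TopologicalSpace M] : TopologicalSpace (Trip M) :=
  inferInstanceAs (TopologicalSpace {_p : M × M × M // _})

theorem isOpen_trip (M : Type*) [TopologicalSpace M] [T2Space M] :
    IsOpen {p : M × M × M | p.1 ≠ p.2.1 ∧ p.1 ≠ p.2.2 ∧ p.2.1 ≠ p.2.2} := by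
  have c1 : Continuous fun p : M × M × M => p.1 := continuous_fst
  have c2 : Continuous fun p : M × M × M => p.2.1 := continuous_fst.comp continuous_snd
  have c3 : Continuous fun p : M × M × M => p.2.2 := continuous_snd.comp continuous_snd
  exact (isOpen_ne_fun c1 c2).inter ((isOpen_ne_fun c1 c3).inter (isOpen_ne_fun c2 c3))

theorem trip_emb (M : Type*) [TopologicalSpace M] [T2Space M] :
    IsOpenEmbedding (Subtype.val : Trip M → M × M × M) :=
  (isOpen_trip M).isOpenEmbedding_subtypeVal

instance (M : Type*) [TopologicalSpace M] [T2Space M] : T2Space (Trip M) :=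
  (trip_emb M).toIsEmbedding.t2Space

instance (M : Type*) [TopologicalSpace M] [T2Space M] [LocallyCompactSpace M] :
    LocallyCompactSpace (Trip M) :=
  (trip_emb M).locallyCompactSpace

instance (G M : Type*) [Group G] [MulAction G M] : MulAction G (Trip M) where
  smul g p := ⟨g • p.1, by
    obtain ⟨⟨x, y, z⟩, h1, h2, h3⟩ := p
    exact ⟨fun e => h1 (MulAction.injective g e), fun e => h2 (MulAction.injective g e),
      fun e => h3 (MulAction.injective g e)⟩⟩
  one_smul p := Subtype.ext (one_smul G p.1)
  mul_smul g h p := Subtype.ext (mul_smul g h p.1)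

theorem trip_smul {G M : Type*} [Group G] [MulAction G M] (g : G) (p : Trip M) :
    (g • p).1 = g • p.1 := rfl

instance (G M : Type*) [Group G] [TopologicalSpace G] [TopologicalSpace M] [MulAction G M]
    [ContinuousSMul G M] : ContinuousSMul G (Trip M) where
  continuous_smul := by
    refine Continuous.subtype_mk (f := fun q : G × Trip M => q.1 • q.2.1) ?_ _
    exact continuous_fst.smul (continuous_subtype_val.comp continuous_snd)

theorem sys_of_sharp3 {G M : Type*} [Group G] [TopologicalSpace G] [IsTopologicalGroup G]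
    [LocallyCompactSpace G] [T2Space G] [SigmaCompactSpace G] [TopologicalSpace M]
    [LocallyCompactSpace M] [T2Space M] [MulAction G M] [ContinuousSMul G M]
    (hd : ¬ DiscreteTopology G) (h3 : ∃ x y z : M, x ≠ y ∧ x ≠ z ∧ y ≠ z)
    (hst : ∀ x y z x' y' z' : M, x ≠ y → x ≠ z → y ≠ z → x' ≠ y' → x' ≠ z' → y' ≠ z' →
      ∃! g : G, g • x = x' ∧ g • y = y' ∧ g • z = z') : Sys G M := by
  have hfree : ∀ x y z : M, x ≠ y → x ≠ z → y ≠ z →
      ∀ g : G, g • x = x → g • y = y → g • z = z → g = 1 := by
    intro x y z h1 h2 h3 g e1 e2 e3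
    exact (hst x y z x y z h1 h2 h3 h1 h2 h3).unique ⟨e1, e2, e3⟩
      ⟨one_smul G x, one_smul G y, one_smul G z⟩
  have hpre : MulAction.IsPretransitive G (Trip M) := by
    refine ⟨fun p q => ?_⟩
    obtain ⟨⟨x, y, z⟩, h1, h2, h3⟩ := p
    obtain ⟨⟨x', y', z'⟩, h1', h2', h3'⟩ := q
    obtain ⟨g, ⟨e1, e2, e3⟩, -⟩ := hst x y z x' y' z' h1 h2 h3 h1' h2' h3'
    refine ⟨g, Subtype.ext ?_⟩
    exact Prod.ext e1 (Prod.ext e2 e3)
  have hopen : ∀ p : Trip M, IsOpenMap fun g : G => g • p := fun p =>
    isOpenMap_smul_of_sigmaCompact p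
  refine ⟨h3, ?_, hfree, ?_, ?_⟩
  · intro x y z x' y' z' h1 h2 h3 h1' h2' h3'
    exact (hst x y z x' y' z' h1 h2 h3 h1' h2' h3').exists
  · intro x y z h1 h2 h3 U hU
    let p : Trip M := ⟨(x, y, z), h1, h2, h3⟩
    have hi : (fun g : G => g • p) '' U ∈ 𝓝 p := by
      have h4 := (hopen p).image_mem_nhds hU
      simpa only [one_smul] using h4
    have hj : Subtype.val '' ((fun g : G => g • p) '' U) ∈ 𝓝 (x, y, z) :=
      (trip_emb M).isOpenMap.image_mem_nhds hi
    rw [nhds_prod_eq, nhds_prod_eq, Filter.mem_prod_iff] at hj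
    obtain ⟨A, hA, D, hD, hAD⟩ := hj
    rw [Filter.mem_prod_iff] at hD
    obtain ⟨B, hB, C, hC, hBC⟩ := hD
    refine ⟨A, hA, B, hB, C, hC, fun a ha b hb c hc => ?_⟩
    have h4 : ((a, b, c) : M × M × M) ∈ A ×ˢ D := ⟨ha, hBC ⟨hb, hc⟩⟩
    obtain ⟨q, ⟨g, hg, rfl⟩, e⟩ := hAD h4
    refine ⟨g, hg, ?_⟩
    have e1 : g • x = a := congrArg Prod.fst e
    have e2 : g • y = b := congrArg (fun r => r.2.1) e
    have e3 : g • z = c := congrArg (fun r => r.2.2) e
    exact ⟨e1, e2, e3⟩
  · intro x
    by_contra hx
    rw [Filter.not_neBot] at hx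
    apply hd
    have hxo : IsOpen ({x} : Set M) := (isOpen_singleton_iff_punctured_nhds x).mpr hx
    have hall : ∀ y : M, IsOpen ({y} : Set M) := by
      intro y
      obtain ⟨a, b, c, hab, hac, hbc⟩ := h3
      have hcomp : ∀ u : M, ∃ v w : M, u ≠ v ∧ u ≠ w ∧ v ≠ w := by
        intro u
        by_cases h1 : u = a
        · exact ⟨b, c, h1 ▸ hab, h1 ▸ hac, hbc⟩
        · by_cases h2 : u = b
          · exact ⟨a, c, h1, h2 ▸ hbc, hac⟩
          · exact ⟨a, b, h1, h2, hab⟩
      obtain ⟨v, w, k1, k2, k3⟩ := hcomp y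
      obtain ⟨v', w', k1', k2', k3'⟩ := hcomp x
      obtain ⟨g, ⟨e1, -, -⟩, -⟩ := hst y v w x v' w' k1 k2 k3 k1' k2' k3'
      have h5 : (fun m : M => g • m) ⁻¹' {x} = {y} := by
        ext m
        simp only [mem_preimage, mem_singleton_iff]
        constructor
        · intro h
          exact MulAction.injective g (h.trans e1.symm)
        · rintro rfl
          exact e1
      rw [← h5]
      exact hxo.preimage (continuous_const_smul g)
    obtain ⟨a, b, c, hab, hac, hbc⟩ := h3
    have hsing : ∀ g : G, IsOpen ({g} : Set G) := by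
      intro g
      have h6 : (fun h : G => h • a) ⁻¹' {g • a} ∩ ((fun h : G => h • b) ⁻¹' {g • b} ∩
          (fun h : G => h • c) ⁻¹' {g • c}) = {g} := by
        ext h
        simp only [mem_inter_iff, mem_preimage, mem_singleton_iff]
        constructor
        · rintro ⟨e1, e2, e3⟩
          have inj := MulAction.injective (β := M) g
          exact (hst a b c (g • a) (g • b) (g • c) hab hac hbc (fun e => hab (inj e))
            (fun e => hac (inj e)) (fun e => hbc (inj e))).unique ⟨e1, e2, e3⟩ ⟨rfl, rfl, rfl⟩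
        · rintro rfl
          exact ⟨rfl, rfl, rfl⟩
      rw [← h6]
      exact ((hall _).preimage (continuous_id.smul continuous_const)).inter
        (((hall _).preimage (continuous_id.smul continuous_const)).inter
        ((hall _).preimage (continuous_id.smul continuous_const)))
    exact discreteTopology_iff_forall_isOpen.mpr fun s => by
      rw [← Set.biUnion_of_singleton s]
      exact isOpen_biUnion fun g _ => hsing g

end Pool.Agent.H31.S3
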