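import Mathlib

/-!
# A group generated by a sigma-compact set is sigma-compact (job S3-A2)

Let `L = K ∪ K⁻¹ ∪ {1}`, sigma-compact.  By induction `L ^ n` is sigma-compact (the product set of
two sigma-compact sets `⋃ Aᵢ`, `⋃ Bⱼ` is `⋃ Aᵢ * Bⱼ`; `IsCompact.mul`), and
`⋃ n, L ^ n = Subgroup.closure K = G` (`Subgroup.closure_induction_left`).
-/

open Filter Topology Set
open scoped Pointwise

namespace Pool.Agent.H31.S3

theorem sg_mul {G : Type*} [Group G] [TopologicalSpace G] [IsTopologicalGroup G]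
    {S T : Set G} (hS : IsSigmaCompact S) (hT : IsSigmaCompact T) : IsSigmaCompact (S * T) := by
  obtain ⟨A, hA, rfl⟩ := hS
  obtain ⟨B, hB, rfl⟩ := hT
  rw [Set.iUnion_mul]
  refine isSigmaCompact_iUnion _ fun i => ?_
  rw [Set.mul_iUnion]
  exact isSigmaCompact_iUnion _ fun j => ((hA i).mul (hB j)).isSigmaCompact

theorem sg_union {G : Type*} [TopologicalSpace G] {S T : Set G} (hS : IsSigmaCompact S)
    (hT : IsSigmaCompact T) : IsSigmaCompact (S ∪ T) := by
  rw [Set.union_eq_iUnion]
  refine isSigmaCompact_iUnion _ fun b => ?_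
  cases b
  · exact hT
  · exact hS

theorem sigmaCompact_of_closure {G : Type*} [Group G] [TopologicalSpace G] [IsTopologicalGroup G]
    {K : Set G} (hK : IsSigmaCompact K) (hc : Subgroup.closure K = ⊤) : SigmaCompactSpace G := by
  set L : Set G := K ∪ K⁻¹ ∪ {1} with hL
  have hinv : IsSigmaCompact K⁻¹ := by
    have h1 := hK.image (f := fun x : G => x⁻¹) continuous_inv
    rwa [Set.image_inv_eq_inv] at h1
  have hLs : IsSigmaCompact L := sg_union (sg_union hK hinv) isCompact_singleton.isSigmaCompact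
  have hpow : ∀ n : ℕ, IsSigmaCompact (L ^ n) := by
    intro n
    induction n with
    | zero =>
      rw [pow_zero]
      exact isCompact_singleton.isSigmaCompact
    | succ n ih =>
      rw [pow_succ]
      exact sg_mul ih hLs
  have hLi : L⁻¹ = L := by
    rw [hL, Set.union_inv, Set.union_inv, inv_inv, Set.inv_singleton, inv_one, Set.union_comm K⁻¹ K]
  have hall : ∀ x ∈ Subgroup.closure K, ∃ n : ℕ, x ∈ L ^ n := by
    intro x hx
    induction hx using Subgroup.closure_induction with
    | mem x hx => exact ⟨1, by rw [pow_one]; exact Or.inl (Or.inl hx)⟩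
    | one => exact ⟨0, by rw [pow_zero]; exact Set.mem_one.mpr rfl⟩
    | mul x y _ _ hx hy =>
      obtain ⟨m, hm⟩ := hx
      obtain ⟨n, hn⟩ := hy
      exact ⟨m + n, by rw [pow_add]; exact Set.mul_mem_mul hm hn⟩
    | inv x _ hx =>
      obtain ⟨n, hn⟩ := hx
      refine ⟨n, ?_⟩
      have h1 : (L ^ n)⁻¹ = L ^ n := by rw [← inv_pow, hLi]
      rw [← h1, Set.inv_mem_inv]
      exact hn
  have huniv : (Set.univ : Set G) = ⋃ n : ℕ, L ^ n := by
    ext x
    simp only [Set.mem_univ, Set.mem_iUnion, true_iff]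
    exact hall x (by rw [hc]; exact Subgroup.mem_top x)
  apply isSigmaCompact_univ_iff.mp
  rw [huniv]
  exact isSigmaCompact_iUnion _ hpow

end Pool.Agent.H31.S3
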