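import Pool.Agent.H31.S3.TDCase
import Pool.Agent.H31.S3.Init
import Pool.Agent.H31.S3.Sig
import Pool.Agent.H31.S3.Exist
import Pool.Agent.H31.S3.ConnA
import Pool.Agent.H31.S3.App

/-!
# A locally compact space with a sharply 3-transitive action is compact
-/

open Filter Topology Set
open scoped Pointwise

namespace Pool.Agent.H31.S3

variable {G M : Type*} [Group G] [TopologicalSpace G] [IsTopologicalGroup G]
  [LocallyCompactSpace G] [T2Space G] [TopologicalSpace M] [LocallyCompactSpace M] [T2Space M]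
  [MulAction G M] [ContinuousSMul G M]

/-- a compact symmetric neighbourhood of `1` -/
theorem exists_compact_symm (H : Type*) [Group H] [TopologicalSpace H] [IsTopologicalGroup H]
    [LocallyCompactSpace H] :
    ∃ S : Set H, IsCompact S ∧ S ∈ 𝓝 (1 : H) ∧ ∀ s ∈ S, s⁻¹ ∈ S := by
  obtain ⟨K, hK, hK1⟩ := exists_compact_mem_nhds (1 : H)
  refine ⟨K ∪ K⁻¹, hK.union hK.inv, mem_of_superset hK1 subset_union_left, ?_⟩
  rintro s (hs | hs)
  · exact Or.inr (by simpa using hs)
  · exact Or.inl hs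

theorem Sys.compactSpace (hS : Sys G M) : CompactSpace M := by
  by_contra hM
  obtain ⟨p, q, -, hpq, -, -⟩ := hS.three
  haveI := locallyCompact_stab (G := G) p q
  have T := hS.twoPt hpq
  by_cases hc : PreconnectedSpace M
  · obtain ⟨S, hS1, hS2, hS3⟩ := exists_compact_symm (stab G p q)
    have hK : ¬ IsCompact (Subgroup.closure S : Set (stab G p q)) :=
      T.not_compact_of_connected (mem_of_superset hS2 Subgroup.subset_closure)
    obtain ⟨t, ht⟩ := T.exists_toInf hS1 hS2 hS3 hK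
    rcases T.alt hM ht with ⟨c1, c2⟩ | ⟨c1, c2⟩
    · exact T.not_t1_of_connected ht c1 c2
    · exact T.not_t1_of_connected ht.inv c1 c2
  · haveI := hS.totallyDisconnected hc
    haveI := hS.totallyDisconnected_group
    obtain ⟨S, hS1, hS2, hS3, hK⟩ := hS.exists_noncompact hpq
    obtain ⟨t, ht⟩ := T.exists_toInf hS1 hS2 hS3 hK
    rcases T.alt hM ht with ⟨c1, c2⟩ | ⟨c1, c2⟩
    · exact hS.td_false hM hpq ht c1 c2
    · exact hS.td_false hM hpq ht.inv c1 c2

/-- **Main theorem** -/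
theorem main (hG : ∃ K : Set G, IsSigmaCompact K ∧ Subgroup.closure K = ⊤)
    (hd : ¬ DiscreteTopology G) (h3 : ∃ x y z : M, x ≠ y ∧ x ≠ z ∧ y ≠ z)
    (hst : ∀ x y z x' y' z' : M, x ≠ y → x ≠ z → y ≠ z → x' ≠ y' → x' ≠ z' → y' ≠ z' →
      ∃! g : G, g • x = x' ∧ g • y = y' ∧ g • z = z') : CompactSpace M := by
  obtain ⟨K, hK, hc⟩ := hG
  haveI := sigmaCompact_of_closure hK hc
  exact (sys_of_sharp3 hd h3 hst).compactSpace

end Pool.Agent.H31.S3
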