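import Pool.Agent.H31.S3.Defs

/-!
# Ultralimit of the blocks (job S3-M)

Given for every `n` a set `Y n ⊆ V p` and `v n ∈ V` as in `exists_block`, the ultralimit `Y` of the sets
`Y n` and the limit `v` of the `v n` have the same properties.

Proof.  Let `𝒰 = hyperfilter ℕ` (an ultrafilter with `𝒰 ≤ atTop`, `Nat.hyperfilter_le_atTop`).  `V` is
compact, so `v n → v ∈ V` along `𝒰` (`IsCompact.ultrafilter_le_nhds` for `𝒰.map v`).
`Y = {z | ∀ U ∈ 𝓝 z, ∀ᶠ n in 𝒰, (U ∩ Y n).Nonempty}`.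
* `p ∈ Y`.  `Y` is closed: if `z ∉ Y`, some open `U ∋ z` fails the condition, and then no point of `U` is
  in `Y`.  `Y ⊆ W = V p`: `W` is compact, hence closed; for `z ∉ W` the neighbourhood `Wᶜ` of `z` meets
  no `Y n`.  So `Y` is compact.
* `v p ≠ t g p` for `g ∈ V`: `t W` is open (`W` is open: `g p = g • p` and `g • (V p) = V p` is a
  neighbourhood of `g p`, by `hopn`), `v n p ∉ t W`, `v n p → v p`, and the complement of `t W` is closed.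
* `v y ∈ Y` for `y ∈ Y`: let `U ∈ 𝓝 (v y)`; by continuity there are `A ∈ 𝓝 v`, `B ∈ 𝓝 y` with
  `A • B ⊆ U`; for `𝒰`-many `n`: `v n ∈ A` and there is `y' ∈ B ∩ Y n`; so `v n y' ∈ U ∩ Y n`.  The same
  for `v⁻¹` (`(v n)⁻¹ → v⁻¹`) and for a fixed element `(t^m)⁻¹ a t^m` (for `n ≥ m`).
-/

open Filter Topology Set
open scoped Pointwise

namespace Pool.Agent.H31.S3

theorem exists_limit {G M : Type*} [Group G] [TopologicalSpace G] [IsTopologicalGroup G]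
    [T2Space G] [TopologicalSpace M]
    [T2Space M] [MulAction G M] [ContinuousSMul G M] {p : M} {t : G}
    (hopn : ∀ U ∈ 𝓝 (1 : G), (fun g : G => g • p) '' U ∈ 𝓝 p)
    {V : Subgroup G} (hVo : IsOpen (V : Set G)) (hVc : IsCompact (V : Set G))
    (Y : ℕ → Set M) (v : ℕ → G)
    (h : ∀ n, p ∈ Y n ∧ (∀ y ∈ Y n, ∃ g ∈ V, y = g • p) ∧ v n ∈ V ∧
      (∀ g ∈ V, v n • p ≠ t • g • p) ∧ (∀ y ∈ Y n, v n • y ∈ Y n) ∧
      (∀ y ∈ Y n, (v n)⁻¹ • y ∈ Y n) ∧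
      (∀ m ≤ n, ∀ a ∈ minus t V, a • p = p → ∀ y ∈ Y n, ((t ^ m)⁻¹ * a * t ^ m) • y ∈ Y n)) :
    ∃ (Y : Set M) (v : G), IsCompact Y ∧ p ∈ Y ∧ (∀ y ∈ Y, ∃ g ∈ V, y = g • p) ∧ v ∈ V ∧
      (∀ g ∈ V, v • p ≠ t • g • p) ∧ (∀ y ∈ Y, v • y ∈ Y) ∧ (∀ y ∈ Y, v⁻¹ • y ∈ Y) ∧
      (∀ m : ℕ, ∀ a ∈ minus t V, a • p = p → ∀ y ∈ Y, ((t ^ m)⁻¹ * a * t ^ m) • y ∈ Y) := by
  -- the orbit `W = V p` is compact and open
  have hWc : IsCompact ((fun g : G => g • p) '' (V : Set G)) :=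
    hVc.image (continuous_id.smul continuous_const)
  have hWcl : IsClosed ((fun g : G => g • p) '' (V : Set G)) := hWc.isClosed
  have hV1 : (V : Set G) ∈ 𝓝 (1 : G) := hVo.mem_nhds V.one_mem
  have hWo : IsOpen ((fun g : G => g • p) '' (V : Set G)) := by
    rw [isOpen_iff_mem_nhds]
    rintro _ ⟨g, hg, rfl⟩
    have h1 := hopn _ hV1
    have h2 : (fun z : M => g⁻¹ • z) ⁻¹' ((fun g : G => g • p) '' (V : Set G)) ∈ 𝓝 (g • p) := by
      have hc : Tendsto (fun z : M => g⁻¹ • z) (𝓝 (g • p)) (𝓝 (g⁻¹ • (g • p))) :=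
        (continuous_const_smul g⁻¹).continuousAt
      rw [inv_smul_smul] at hc
      exact hc h1
    refine mem_of_superset h2 ?_
    rintro z ⟨k, hk, hkz⟩
    refine ⟨g * k, V.mul_mem hg hk, ?_⟩
    have h3 : k • p = g⁻¹ • z := hkz
    change (g * k) • p = z
    rw [mul_smul, h3, smul_inv_smul]
  -- the ultrafilter
  have hle : ((hyperfilter ℕ : Ultrafilter ℕ) : Filter ℕ) ≤ atTop := Nat.hyperfilter_le_atTop
  -- the limit of `v n`
  have hvV : ((hyperfilter ℕ).map v : Filter G) ≤ 𝓟 (V : Set G) := by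
    rw [Ultrafilter.coe_map]
    have h0 : Tendsto v ((hyperfilter ℕ : Ultrafilter ℕ) : Filter ℕ) (𝓟 (V : Set G)) :=
      tendsto_principal.2 (Eventually.of_forall fun n => (h n).2.2.1)
    exact h0
  obtain ⟨w, hwV, hw⟩ := hVc.ultrafilter_le_nhds ((hyperfilter ℕ).map v) hvV
  have hvw : Tendsto v (hyperfilter ℕ : Filter ℕ) (𝓝 w) := hw
  have hYc : IsClosed {z : M | ∀ U ∈ 𝓝 z, ∀ᶠ n in (hyperfilter ℕ : Filter ℕ),
      (U ∩ Y n).Nonempty} := by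
    rw [← isOpen_compl_iff, isOpen_iff_mem_nhds]
    intro z hz
    have hz' : ¬ ∀ U ∈ 𝓝 z, ∀ᶠ n in (hyperfilter ℕ : Filter ℕ), (U ∩ Y n).Nonempty := hz
    rw [not_forall] at hz'
    simp only [not_forall, exists_prop] at hz'
    obtain ⟨U, hU, hUn⟩ := hz'
    obtain ⟨U', hU', hU'o, hzU'⟩ := mem_nhds_iff.1 hU
    refine mem_of_superset (hU'o.mem_nhds hzU') ?_
    intro z' hz' hcon
    apply hUn
    filter_upwards [hcon U' (hU'o.mem_nhds hz')] with n hn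
    exact hn.mono (inter_subset_inter_left _ hU')
  have hYW : {z : M | ∀ U ∈ 𝓝 z, ∀ᶠ n in (hyperfilter ℕ : Filter ℕ), (U ∩ Y n).Nonempty} ⊆
      (fun g : G => g • p) '' (V : Set G) := by
    intro z hz
    by_contra hcon
    have h1 := hz _ (hWcl.isOpen_compl.mem_nhds hcon)
    obtain ⟨n, y, hy1, hy2⟩ := h1.exists
    obtain ⟨g, hg, hgy⟩ := (h n).2.1 y hy2
    exact hy1 ⟨g, hg, hgy.symm⟩
  refine ⟨{z : M | ∀ U ∈ 𝓝 z, ∀ᶠ n in (hyperfilter ℕ : Filter ℕ), (U ∩ Y n).Nonempty}, w,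
    hWc.of_isClosed_subset hYc hYW, ?_, ?_, hwV, ?_, ?_, ?_, ?_⟩
  · intro U hU
    exact Eventually.of_forall fun n => ⟨p, mem_of_mem_nhds hU, (h n).1⟩
  · intro y hy
    obtain ⟨g, hg, hgy⟩ := hYW hy
    exact ⟨g, hg, hgy.symm⟩
  · intro g hg hcon
    -- `t W` is open and `v n p ∉ t W`
    have h1 : Tendsto (fun n => t⁻¹ • (v n • p)) (hyperfilter ℕ : Filter ℕ)
        (𝓝 (t⁻¹ • (w • p))) := (hvw.smul tendsto_const_nhds).const_smul _
    have h2 : t⁻¹ • (w • p) ∈ (fun g : G => g • p) '' (V : Set G) := by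
      refine ⟨g, hg, ?_⟩
      change g • p = _
      rw [hcon, inv_smul_smul]
    have h3 := h1.eventually (hWo.mem_nhds h2)
    obtain ⟨n, k, hk, hkn⟩ := h3.exists
    have h4 : k • p = t⁻¹ • (v n • p) := hkn
    refine (h n).2.2.2.1 k hk ?_
    rw [h4, smul_inv_smul]
  · intro y hy U hU
    have hc : Tendsto (fun x : G × M => x.1 • x.2) (𝓝 (w, y)) (𝓝 (w • y)) :=
      continuous_smul.continuousAt
    have hU' := hc hU
    rw [nhds_prod_eq] at hU'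
    obtain ⟨A, hA, B, hB, hAB⟩ := mem_prod_iff.1 hU'
    filter_upwards [hvw.eventually hA, hy B hB] with n h1 h2
    obtain ⟨y', hy'1, hy'2⟩ := h2
    exact ⟨v n • y', hAB (mk_mem_prod h1 hy'1), (h n).2.2.2.2.1 y' hy'2⟩
  · intro y hy U hU
    have hc : Tendsto (fun x : G × M => x.1 • x.2) (𝓝 (w⁻¹, y)) (𝓝 (w⁻¹ • y)) :=
      continuous_smul.continuousAt
    have hU' := hc hU
    rw [nhds_prod_eq] at hU'
    obtain ⟨A, hA, B, hB, hAB⟩ := mem_prod_iff.1 hU'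
    filter_upwards [hvw.inv.eventually hA, hy B hB] with n h1 h2
    obtain ⟨y', hy'1, hy'2⟩ := h2
    exact ⟨(v n)⁻¹ • y', hAB (mk_mem_prod h1 hy'1), (h n).2.2.2.2.2.1 y' hy'2⟩
  · intro m a ha hap y hy U hU
    have hc : Tendsto (fun x : M => ((t ^ m)⁻¹ * a * t ^ m) • x) (𝓝 y)
        (𝓝 (((t ^ m)⁻¹ * a * t ^ m) • y)) := (continuous_const_smul _).continuousAt
    filter_upwards [hy _ (hc hU), hle (eventually_ge_atTop m)] with n h1 h2
    obtain ⟨y', hy'1, hy'2⟩ := h1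
    exact ⟨((t ^ m)⁻¹ * a * t ^ m) • y', hy'1, (h n).2.2.2.2.2.2 m h2 a ha hap y' hy'2⟩

end Pool.Agent.H31.S3
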