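import Mathlib

/-!
# Haar measure is right invariant under compact subgroups (job S3-Q1)

`μ` a (left) Haar measure of the locally compact group `Q`, `D` a compact open subgroup, `c` an element all
of whose powers lie in a compact set `K`.  Then `μ (X c) = μ X` for all compact `X`.

Proof.  `ν n = map (· * c^(-n)) μ`-type measures are Haar measures, `ν n (X) = μ (X c^n)`; by
`MeasureTheory.Measure.measure_isHaarMeasure_eq_smul_of_isCompact_closure` (or
`measure_isMulInvariant_eq_smul_of_isCompact_closure`) there are scalars `κ n` (the powers of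
`modularCharacterFun c⁻¹`, `modularCharacterFun_map_mul`, or iterate: `κ n = κ 1 ^ n` because
`μ (X c^n c) = κ 1 μ (X c^n)`) with `μ (X c^n) = κ^n μ X` for all compact `X`, `0 < κ < ∞`.  Take
`X = D`: `0 < μ D < ∞`.  `K` is covered by finitely many right cosets `D k` (open), and
`c^n ∈ D k` implies `D c^n = D k`; so `μ (D c^n) = κ^n μ D`, `n = 0, 1, 2, ...`, takes only finitely many
values, `κ^n = κ^m` for some `n < m`, hence `κ = 1`.
-/

open Filter Topology Set MeasureTheory
open scoped Pointwise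

namespace Pool.Agent.H31.S3

theorem exists_pow_mem_subgroup {Q : Type*} [Group Q] [TopologicalSpace Q] [IsTopologicalGroup Q]
    {D : Subgroup Q} (hDo : IsOpen (D : Set Q)) {c : Q} {K : Set Q} (hK : IsCompact K)
    (hc : ∀ n : ℕ, c ^ n ∈ K) : ∃ j : ℕ, 0 < j ∧ c ^ j ∈ D := by
  have : DiscreteTopology (Q ⧸ D) := QuotientGroup.discreteTopology hDo
  have hK' : IsCompact ((QuotientGroup.mk : Q → Q ⧸ D) '' K) :=
    hK.image QuotientGroup.continuous_mk
  have hmem : ∀ n : ℕ, (fun n : ℕ => (QuotientGroup.mk (c ^ n) : Q ⧸ D)) n ∈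
      (QuotientGroup.mk : Q → Q ⧸ D) '' K := fun n => ⟨c ^ n, hc n, rfl⟩
  obtain ⟨n, m, hnm, e⟩ := hK'.finite_of_discrete.exists_lt_map_eq_of_forall_mem hmem
  refine ⟨m - n, Nat.sub_pos_of_lt hnm, ?_⟩
  have h1 : (c ^ n)⁻¹ * c ^ m ∈ D := QuotientGroup.eq.1 e
  have h2 : (c ^ n)⁻¹ * c ^ m = c ^ (m - n) := by
    rw [inv_mul_eq_iff_eq_mul, ← pow_add, Nat.add_sub_cancel' hnm.le]
  rwa [h2] at h1

theorem measure_mul_right {Q : Type*} [Group Q] [TopologicalSpace Q] [IsTopologicalGroup Q]
    [LocallyCompactSpace Q] [T2Space Q] [MeasurableSpace Q] [BorelSpace Q] (μ : Measure Q)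
    [μ.IsHaarMeasure] {D : Subgroup Q} (hDo : IsOpen (D : Set Q)) (hDc : IsCompact (D : Set Q))
    {c : Q} {K : Set Q} (hK : IsCompact K) (hc : ∀ n : ℕ, c ^ n ∈ K) {X : Set Q}
    (hX : IsCompact X) : μ ((fun x => x * c) '' X) = μ X := by
  obtain ⟨κ, hκ⟩ : ∃ κ : NNReal, ∀ Y : Set Q, IsCompact Y →
      μ ((fun x => x * c) '' Y) = κ • μ Y := by
    refine ⟨Measure.haarScalarFactor (Measure.map (fun x => x * c⁻¹) μ) μ, fun Y hY => ?_⟩
    have h1 := Measure.measure_isMulInvariant_eq_smul_of_isCompact_closure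
      (Measure.map (fun x => x * c⁻¹) μ) μ (s := Y) (by rw [hY.isClosed.closure_eq]; exact hY)
    rw [Measure.map_apply (measurable_mul_const c⁻¹) hY.isClosed.measurableSet] at h1
    rw [← h1]
    congr 1
    exact Set.image_mul_right
  have hpow : ∀ (n : ℕ) (Y : Set Q), IsCompact Y → μ ((fun x => x * c ^ n) '' Y) = κ ^ n • μ Y := by
    intro n
    induction n with
    | zero => intro Y _; simp
    | succ n ih =>
      intro Y hY
      have hY' : IsCompact ((fun x => x * c ^ n) '' Y) := hY.image (continuous_mul_const _)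
      have e : (fun x => x * c ^ (n + 1)) '' Y = (fun x => x * c) '' ((fun x => x * c ^ n) '' Y) := by
        rw [Set.image_image]
        refine Set.image_congr fun x _ => ?_
        rw [pow_succ, mul_assoc]
      rw [e, hκ _ hY', ih Y hY, smul_smul, pow_succ']
  obtain ⟨j, hj, hjD⟩ := exists_pow_mem_subgroup hDo hK hc
  have hDj : (fun x => x * c ^ j) '' (D : Set Q) = D := by
    ext x
    constructor
    · rintro ⟨d, hd, rfl⟩
      exact D.mul_mem hd hjD
    · intro hx
      exact ⟨x * (c ^ j)⁻¹, D.mul_mem hx (D.inv_mem hjD), by simp⟩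
  have h1 := hpow j D hDc
  rw [hDj] at h1
  have hpos : μ (D : Set Q) ≠ 0 := (hDo.measure_pos μ ⟨1, D.one_mem⟩).ne'
  have hfin : μ (D : Set Q) ≠ ⊤ := hDc.measure_lt_top.ne
  have h2 : κ ^ j = 1 := by
    have h3 : ((κ ^ j : NNReal) : ENNReal) * μ (D : Set Q) = 1 * μ (D : Set Q) := by
      rw [one_mul]
      exact h1.symm
    have h4 := (ENNReal.mul_left_inj hpos hfin).1 h3
    exact_mod_cast h4
  have h5 : κ = 1 := (pow_eq_one_iff.1 h2).resolve_right hj.ne'
  rw [hκ X hX, h5, one_smul]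

end Pool.Agent.H31.S3
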