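import Mathlib

/-!
# Compact open subgroups (job S3-I)

* `exists_compact_open_subgroup` (van Dantzig): in a totally disconnected locally compact group every
  neighbourhood `U` of `1` contains a compact open subgroup.  Proof: let `C ⊆ U` be a compact
  neighbourhood of `1` and `W` a clopen set with `1 ∈ W ⊆ interior C`
  (`loc_compact_Haus_tot_disc_of_zero_dim`); `W` is compact.  As in Mathlib
  `IsTopologicalGroup.exist_mul_closure_nhds`, `exists_mulInvClosureNhd` (which assume `CompactSpace G`;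
  copy the proofs, only the compactness of `W` is used) there is an open symmetric neighbourhood `T` of
  `1` with `W * T ⊆ W`.  The subgroup `V = Subgroup.closure T` satisfies `V ⊆ W` (induction from the
  right, `1 ∈ W`), is open, hence closed, hence compact.
* `exists_normal_sub`: if `V` is a compact open subgroup then every neighbourhood `U` of `1` contains an
  open subgroup `N ≤ V` normalised by `V`.  Proof: `ProfiniteGrp.exist_openNormalSubgroup_sub_open_nhds_of_one`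
  in the group `V`; map it to `G` by `Subgroup.subtype`.
-/

open Filter Topology Set
open scoped Pointwise

namespace Pool.Agent.H31.S3

variable {G : Type*} [Group G] [TopologicalSpace G] [IsTopologicalGroup G] [T2Space G]
  [TotallyDisconnectedSpace G]

omit [T2Space G] [TotallyDisconnectedSpace G] in
theorem vanD_mul {W : Set G} (hW : IsOpen W) (hWc : IsCompact W) :
    ∃ T ∈ 𝓝 (1 : G), W * T ⊆ W := by
  refine IsCompact.induction_on (p := fun S => ∃ T ∈ 𝓝 (1 : G), S * T ⊆ W) hWc ?_ ?_ ?_ ?_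
  · exact ⟨Set.univ, by simp only [univ_mem, empty_mul, empty_subset, and_self]⟩
  · exact fun _ _ huv ⟨T, hT, mem⟩ => ⟨T, hT, (mul_subset_mul_right huv).trans mem⟩
  · exact fun U V ⟨T₁, hT₁, mem1⟩ ⟨T₂, hT₂, mem2⟩ => ⟨T₁ ∩ T₂, inter_mem hT₁ hT₂, by
      rw [union_mul]
      exact union_subset ((mul_subset_mul_left inter_subset_left).trans mem1)
        ((mul_subset_mul_left inter_subset_right).trans mem2)⟩
  intro x memW
  have h1 : (x, (1 : G)) ∈ (fun p : G × G => p.1 * p.2) ⁻¹' W := by simp [memW]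
  rcases isOpen_prod_iff.mp (continuous_mul.isOpen_preimage W hW) x 1 h1 with
    ⟨U, V, Uopen, Vopen, xmemU, onememV, prodsub⟩
  have h6 : U * V ⊆ W := mul_subset_iff.mpr (fun _ hx _ hy => prodsub (mk_mem_prod hx hy))
  exact ⟨U ∩ W, ⟨U, Uopen.mem_nhds xmemU, W, fun _ a => a, rfl⟩,
    V, IsOpen.mem_nhds Vopen onememV, fun _ a => h6 ((mul_subset_mul_right inter_subset_left) a)⟩

omit [T2Space G] [TotallyDisconnectedSpace G] in
theorem vanD_sub {W : Set G} (hW : IsOpen W) (hWc : IsCompact W) (h1 : (1 : G) ∈ W) :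
    ∃ V : Subgroup G, IsOpen (V : Set G) ∧ (V : Set G) ⊆ W := by
  obtain ⟨T, hT, hWT⟩ := vanD_mul hW hWc
  refine ⟨Subgroup.closure (T ∩ T⁻¹), ?_, ?_⟩
  · refine Subgroup.isOpen_of_mem_nhds _ (g := 1) (mem_of_superset ?_ Subgroup.subset_closure)
    exact inter_mem hT (inv_mem_nhds_one G hT)
  · have hsym : ∀ w ∈ W, ∀ t ∈ T ∩ T⁻¹, w * t ∈ W ∧ w * t⁻¹ ∈ W := by
      intro w hw t ht
      exact ⟨hWT (mul_mem_mul hw ht.1), hWT (mul_mem_mul hw ht.2)⟩
    intro x hx
    have hx' : x ∈ Subgroup.closure (T ∩ T⁻¹) := hx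
    have key : ∀ x ∈ Subgroup.closure (T ∩ T⁻¹),
        (∀ w ∈ W, w * x ∈ W) ∧ (∀ w ∈ W, w * x⁻¹ ∈ W) := by
      intro x hx
      induction hx using Subgroup.closure_induction with
      | mem x hx => exact ⟨fun w hw => (hsym w hw x hx).1, fun w hw => (hsym w hw x hx).2⟩
      | one => exact ⟨fun w hw => by rwa [mul_one], fun w hw => by rwa [inv_one, mul_one]⟩
      | mul x y _ _ hx hy =>
        refine ⟨fun w hw => ?_, fun w hw => ?_⟩
        · rw [← mul_assoc]
          exact hy.1 _ (hx.1 w hw)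
        · rw [mul_inv_rev, ← mul_assoc]
          exact hx.2 _ (hy.2 w hw)
      | inv x _ hx => exact ⟨hx.2, by rw [inv_inv]; exact hx.1⟩
    have h2 := (key x hx').1 1 h1
    rwa [one_mul] at h2

theorem exists_compact_open_subgroup [LocallyCompactSpace G] {U : Set G} (hU : U ∈ 𝓝 (1 : G)) :
    ∃ V : Subgroup G, IsOpen (V : Set G) ∧ IsCompact (V : Set G) ∧ (V : Set G) ⊆ U := by
  obtain ⟨C, hC, hCU, hCc⟩ := local_compact_nhds hU
  obtain ⟨W, hW, h1, hWC⟩ := (loc_compact_Haus_tot_disc_of_zero_dim (H := G)).mem_nhds_iff.1 hC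
  have hW' : IsClopen W := hW
  have hWc : IsCompact W := hCc.of_isClosed_subset hW'.1 hWC
  obtain ⟨V, hVo, hVW⟩ := vanD_sub hW'.2 hWc h1
  refine ⟨V, hVo, ?_, hVW.trans (hWC.trans hCU)⟩
  exact hWc.of_isClosed_subset (Subgroup.isClosed_of_isOpen V hVo) hVW

theorem exists_normal_sub {V : Subgroup G} (hVo : IsOpen (V : Set G)) (hVc : IsCompact (V : Set G))
    {U : Set G} (hU : U ∈ 𝓝 (1 : G)) :
    ∃ N : Subgroup G, IsOpen (N : Set G) ∧ N ≤ V ∧ (N : Set G) ⊆ U ∧
      ∀ v ∈ V, ∀ n ∈ N, v * n * v⁻¹ ∈ N := by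
  obtain ⟨O, hOU, hO, h1O⟩ := mem_nhds_iff.1 hU
  haveI : CompactSpace V := isCompact_iff_compactSpace.1 hVc
  obtain ⟨H, hH⟩ := ProfiniteGrp.exist_openNormalSubgroup_sub_open_nhds_of_one (G := V)
    (U := Subtype.val ⁻¹' O) (hO.preimage continuous_subtype_val) h1O
  refine ⟨H.toSubgroup.map V.subtype, ?_, ?_, ?_, ?_⟩
  · rw [Subgroup.coe_map]
    exact hVo.isOpenEmbedding_subtypeVal.isOpenMap _ H.isOpen'
  · rintro _ ⟨x, _, rfl⟩
    exact x.2
  · rintro _ ⟨x, hx, rfl⟩
    exact hOU (hH hx)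
  · rintro v hv _ ⟨x, hx, rfl⟩
    exact ⟨(⟨v, hv⟩ : V) * x * (⟨v, hv⟩ : V)⁻¹, H.isNormal'.conj_mem x hx _, rfl⟩

end Pool.Agent.H31.S3
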