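import Pool.Agent.H31.S3.Mod
import Pool.Agent.H31.S3.Dbl
import Pool.Agent.H31.S3.VanD

/-!
# The stabiliser of two points is not locally elliptic, abstract form (job S3-Q3)

`Q` a totally disconnected locally compact group, `H` a closed subgroup that is not open, such that `Q \ H`
is a single double coset `H g H`, on which `(a,b) ↦ a g b` is injective and open, and every compact subset
of `H` lies in a compact subgroup of `H`.  Contradiction.

Proof.  `μ` Haar measure (`borelize Q`).  `D` a compact open subgroup of `Q`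
(`exists_compact_open_subgroup`), `C = D ⊓ H`, compact.  For every `c ∈ H` the powers of `c` lie in a
compact set (`hell {c}`), so `hr` of `measure_double_coset` holds by `measure_mul_right`.
(1) `κ u := {x | ∃ c ∈ C, ∃ d ∈ C, x = c * u * d}` for `u ∉ H` is compact, disjoint from `H`, and it is a
neighbourhood of each of its points: `x = c u d`, `ho u` with `U = D` gives `W ∈ 𝓝 u` with
`w = a u b`, `a, b ∈ H ∩ D = C` for `w ∈ W`; so `c W d ⊆ κ u` is a neighbourhood of `x`.  So `κ u` is open and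
`0 < μ (κ u) < ∞`.
(2) All `μ (κ u)`, `u ∉ H`, are equal: `u' = a u b`, `a, b ∈ H` by `hs`; `C'` a compact subgroup of `H`
containing `C ∪ {a, b}` (`hell`), and `measure_double_coset` (`hCo` with `U = D`).  Call the value `m`.
(3) For every `n` there is a finite set `F ⊆ D \ H` with `n` elements and `κ u`, `u ∈ F`, pairwise
disjoint.  Induction: the union `E` of the `κ u`, `u ∈ F`, is compact, hence closed.  If `D \ H ⊆ E` then
`D ∩ Eᶜ ⊆ H` is an open set containing `1` (`1 ∈ H`, `κ u ∩ H = ∅`), so `H` is open: contradiction.  So there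
is `u' ∈ D \ H`, `u' ∉ E`; then `κ u'` is disjoint from each `κ u` (two double cosets of `C` are equal or
disjoint).
(4) `κ u ⊆ D` for `u ∈ D`, so `n * m ≤ μ D < ∞` for all `n`: contradiction to `m > 0`.
-/

open Filter Topology Set MeasureTheory
open scoped Pointwise

namespace Pool.Agent.H31.S3

theorem not_elliptic {Q : Type*} [Group Q] [TopologicalSpace Q] [IsTopologicalGroup Q]
    [LocallyCompactSpace Q] [T2Space Q] [TotallyDisconnectedSpace Q] {H : Subgroup Q}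
    (hcl : IsClosed (H : Set Q)) (hno : ¬ IsOpen (H : Set Q))
    (hs : ∀ g u : Q, g ∉ H → u ∉ H → ∃ a ∈ H, ∃ b ∈ H, u = a * g * b)
    (hf : ∀ g ∉ H, ∀ a ∈ H, ∀ b ∈ H, a * g = g * b → a = 1)
    (ho : ∀ g ∉ H, ∀ U ∈ 𝓝 (1 : Q), ∃ W ∈ 𝓝 g, ∀ w ∈ W,
      ∃ a ∈ H, ∃ b ∈ H, a ∈ U ∧ b ∈ U ∧ w = a * g * b)
    (hell : ∀ S : Set Q, IsCompact S → S ⊆ H →
      ∃ C : Subgroup Q, IsCompact (C : Set Q) ∧ S ⊆ C ∧ C ≤ H) : False := by
  classical
  borelize Q
  obtain ⟨D, hDo, hDc, -⟩ := exists_compact_open_subgroup (G := Q) (U := univ) univ_mem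
  obtain ⟨μ, hμ⟩ : ∃ μ : Measure Q, μ.IsHaarMeasure := ⟨Measure.haar, inferInstance⟩
  have hr : ∀ c ∈ H, ∀ X : Set Q, IsCompact X → μ ((fun x => x * c) '' X) = μ X := by
    intro c hc X hX
    obtain ⟨C, hC, hSC, -⟩ := hell {c} isCompact_singleton (singleton_subset_iff.2 hc)
    exact measure_mul_right μ hDo hDc hC (fun n => pow_mem (hSC rfl) n) hX
  obtain ⟨C, hCdef⟩ : ∃ C : Subgroup Q, C = D ⊓ H := ⟨_, rfl⟩
  have hCmem : ∀ x, x ∈ C ↔ x ∈ D ∧ x ∈ H := by
    intro x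
    rw [hCdef, Subgroup.mem_inf]
  have hCc : IsCompact (C : Set Q) := by
    rw [hCdef]
    exact hDc.inter_right hcl
  have hCo : ∃ U ∈ 𝓝 (1 : Q), ∀ x ∈ U, x ∈ H → x ∈ C :=
    ⟨D, hDo.mem_nhds (one_mem D), fun x hx hxH => (hCmem x).2 ⟨hx, hxH⟩⟩
  obtain ⟨κ, hκ⟩ : ∃ κ : Q → Set Q, κ = fun u => {x | ∃ c ∈ C, ∃ d ∈ C, x = c * u * d} :=
    ⟨_, rfl⟩
  have hκmem : ∀ u x, x ∈ κ u ↔ ∃ c ∈ C, ∃ d ∈ C, x = c * u * d := by
    intro u x
    rw [hκ]
    rfl
  have hself : ∀ u, u ∈ κ u := fun u =>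
    (hκmem u u).2 ⟨1, one_mem _, 1, one_mem _, by rw [one_mul, mul_one]⟩
  have hκc : ∀ u, IsCompact (κ u) := by
    intro u
    have h1 : κ u = (fun p : Q × Q => p.1 * u * p.2) '' ((C : Set Q) ×ˢ (C : Set Q)) := by
      ext x
      rw [hκmem]
      constructor
      · rintro ⟨c, hc, d, hd, rfl⟩
        exact ⟨(c, d), ⟨hc, hd⟩, rfl⟩
      · rintro ⟨⟨c, d⟩, ⟨hc, hd⟩, rfl⟩
        exact ⟨c, hc, d, hd, rfl⟩
    rw [h1]
    exact (hCc.prod hCc).image ((continuous_fst.mul continuous_const).mul continuous_snd)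
  have hκH : ∀ u ∉ H, ∀ x ∈ κ u, x ∉ H := by
    intro u hu x hx hxH
    obtain ⟨c, hc, d, hd, rfl⟩ := (hκmem u x).1 hx
    have hcH := ((hCmem c).1 hc).2
    have hdH := ((hCmem d).1 hd).2
    have h1 := mul_mem (mul_mem (inv_mem hcH) hxH) (inv_mem hdH)
    have h2 : c⁻¹ * (c * u * d) * d⁻¹ = u := by group
    rw [h2] at h1
    exact hu h1
  have hκo : ∀ u ∉ H, IsOpen (κ u) := by
    intro u hu
    rw [isOpen_iff_mem_nhds]
    intro x hx
    obtain ⟨c, hc, d, hd, rfl⟩ := (hκmem u x).1 hx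
    obtain ⟨W, hW, hW2⟩ := ho u hu D (hDo.mem_nhds (one_mem D))
    have hcont : Continuous fun x : Q => c⁻¹ * x * d⁻¹ :=
      (continuous_const.mul continuous_id).mul continuous_const
    have h1 : c⁻¹ * (c * u * d) * d⁻¹ = u := by group
    have h2 : (fun x : Q => c⁻¹ * x * d⁻¹) ⁻¹' W ∈ 𝓝 (c * u * d) := by
      refine hcont.continuousAt.preimage_mem_nhds ?_
      rw [h1]
      exact hW
    refine mem_of_superset h2 fun x hx => ?_
    obtain ⟨a, ha, b, hb, haD, hbD, hab⟩ := hW2 _ hx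
    refine (hκmem u x).2 ⟨c * a, mul_mem hc ((hCmem a).2 ⟨haD, ha⟩), b * d,
      mul_mem ((hCmem b).2 ⟨hbD, hb⟩) hd, ?_⟩
    have hab' : c⁻¹ * x * d⁻¹ = a * u * b := hab
    have h3 : x = c * (c⁻¹ * x * d⁻¹) * d := by group
    rw [h3, hab']
    group
  have hκm : ∀ u ∉ H, ∀ u' ∉ H, μ (κ u') = μ (κ u) := by
    intro u hu u' hu'
    obtain ⟨a, ha, b, hb, rfl⟩ := hs u u' hu hu'
    obtain ⟨C', hC', hSC', hC'H⟩ := hell ((C : Set Q) ∪ {a, b})
      (hCc.union (toFinite _).isCompact) (by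
        rintro x (hx | hx | hx)
        · exact ((hCmem x).1 hx).2
        · rw [hx]; exact ha
        · rw [hx]; exact hb)
    have h1 := measure_double_coset μ hf hr hCc hC' (fun x hx => hSC' (Or.inl hx)) hC'H hCo hu
      (hSC' (Or.inr (Or.inl rfl))) (hSC' (Or.inr (Or.inr rfl)))
    rw [hκ]
    exact h1
  have hF : ∀ n : ℕ, ∃ F : Finset Q, F.card = n ∧ (∀ u ∈ F, u ∈ D ∧ u ∉ H) ∧
      (F : Set Q).PairwiseDisjoint κ := by
    intro n
    induction n with
    | zero => exact ⟨∅, rfl, by simp, by simp⟩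
    | succ n ih =>
      obtain ⟨F, hFc, hFD, hFp⟩ := ih
      have hE : IsCompact (⋃ u ∈ F, κ u) := F.isCompact_biUnion fun u _ => hκc u
      obtain ⟨u', hu'D, hu'H, hu'E⟩ : ∃ u' ∈ D, u' ∉ H ∧ u' ∉ ⋃ u ∈ F, κ u := by
        by_contra hcon
        push Not at hcon
        refine hno (Subgroup.isOpen_of_mem_nhds H (g := 1) ?_)
        have h1E : (1 : Q) ∉ ⋃ u ∈ F, κ u := by
          intro h
          obtain ⟨u, hu, h⟩ := mem_iUnion₂.1 h
          exact hκH u (hFD u hu).2 1 h (one_mem H)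
        refine mem_of_superset (inter_mem (hDo.mem_nhds (one_mem D))
          (hE.isClosed.isOpen_compl.mem_nhds h1E)) ?_
        rintro x ⟨hxD, hxE⟩
        by_contra hxH
        exact hxE (hcon x hxD hxH)
      have hnE : ∀ u ∈ F, u' ∉ κ u := fun u hu h => hu'E (mem_iUnion₂.2 ⟨u, hu, h⟩)
      have hu'F : u' ∉ F := fun h => hnE u' h (hself u')
      refine ⟨insert u' F, by rw [Finset.card_insert_of_notMem hu'F, hFc], ?_, ?_⟩
      · intro u hu
        rcases Finset.mem_insert.1 hu with rfl | hu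
        · exact ⟨hu'D, hu'H⟩
        · exact hFD u hu
      · rw [Finset.coe_insert]
        refine hFp.insert fun u hu _ => disjoint_left.2 fun x hx hx2 => hnE u hu ?_
        obtain ⟨c, hc, d, hd, rfl⟩ := (hκmem u' x).1 hx
        obtain ⟨c', hc', d', hd', h⟩ := (hκmem u _).1 hx2
        refine (hκmem u u').2 ⟨c⁻¹ * c', mul_mem (inv_mem hc) hc', d' * d⁻¹,
          mul_mem hd' (inv_mem hd), ?_⟩
        have h3 : u' = c⁻¹ * (c * u' * d) * d⁻¹ := by group
        rw [h3, h]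
        group
  obtain ⟨u₀, hu₀⟩ : ∃ u₀ : Q, u₀ ∉ H := by
    obtain ⟨F, hFc, hFD, -⟩ := hF 1
    obtain ⟨u, hu⟩ := Finset.card_pos.1 (by rw [hFc]; exact Nat.one_pos)
    exact ⟨u, (hFD u hu).2⟩
  have hpos : μ (κ u₀) ≠ 0 := ((hκo u₀ hu₀).measure_pos μ ⟨u₀, hself u₀⟩).ne'
  obtain ⟨n, hn⟩ := ENNReal.exists_nat_mul_gt hpos (hDc.measure_lt_top (μ := μ)).ne
  obtain ⟨F, hFc, hFD, hFp⟩ := hF n
  have h1 : μ (⋃ u ∈ F, κ u) = n * μ (κ u₀) := by
    rw [measure_biUnion_finset hFp fun u _ => (hκc u).measurableSet,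
      Finset.sum_congr rfl fun u hu => hκm u₀ hu₀ u (hFD u hu).2, Finset.sum_const, hFc,
      nsmul_eq_mul]
  have h2 : (⋃ u ∈ F, κ u) ⊆ (D : Set Q) := by
    intro x hx
    obtain ⟨u, hu, hx⟩ := mem_iUnion₂.1 hx
    obtain ⟨c, hc, d, hd, rfl⟩ := (hκmem u x).1 hx
    exact mul_mem (mul_mem ((hCmem c).1 hc).1 (hFD u hu).1) ((hCmem d).1 hd).1
  have h3 := measure_mono (μ := μ) h2
  rw [h1] at h3
  exact absurd h3 (not_le.2 hn)

end Pool.Agent.H31.S3
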