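import Pool.Agent.H31.S3.Attr
import Pool.Agent.H31.S3.Inf

/-!
# Ping-pong (job S3-P2)

`Y` compact, `p ∈ Y`, `v` preserves `Y` (both directions), `v p ≠ p`, `r ∈ Y` different from `p`, `v p`; for
every neighbourhood `O` of `p` some `a : G` preserving `Y` (both directions) maps `Y \ O` into `O`.  Then
some `g : G` preserving `Y` with `ToInf g` fixes two different points `α, α'` of `Y`.

Proof.  Choose an open `O ∋ p` with `closure O ∩ v • closure O = ∅` and `r ∉ closure O ∪ v • closure O`: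
take disjoint closed neighbourhoods of the three points (`M` is locally compact Hausdorff, hence
regular), and pull back the one of `v p` by `v`.  Let `a` be the element for `O`, `b = v a v⁻¹`, `g = a b`.
(i) `y ∈ Y`, `y ∉ v O` imply `g y ∈ O`: `v⁻¹ y ∈ Y \ O`, so `b y = v a v⁻¹ y ∈ v O`, which is disjoint from
`O`; `b y ∈ Y \ O`, so `a b y ∈ O`.
(ii) `y ∈ Y`, `y ∉ O` imply `a⁻¹ y ∈ O` (otherwise `y = a (a⁻¹ y) ∈ O`), and then
`g⁻¹ y = b⁻¹ (a⁻¹ y) ∈ v O`: `z = v⁻¹ a⁻¹ y ∈ Y` is not in `O` as `a⁻¹ y ∈ O` is not in `v O`, so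
`a⁻¹ z ∈ O` and `b⁻¹ a⁻¹ y = v a⁻¹ z ∈ v O`.
(iii) By induction `g^n x ∈ O` for `n ≥ 1`, `x ∈ {p, r}` (`O` is disjoint from `v O`, `x ∉ v O`) and
`(g⁻¹)^n x ∈ v O` for `n ≥ 1`, `x ∈ {v p, r}`.
(iv) `ToInf g`: `toInf_of_avoid` with the neighbourhood `{h | h r ∉ closure O}` of `1`.  `ToInf g⁻¹`.
(v) `Sys.attract` for `g` gives a fixed point `α`; one of `p`, `r` is `≠ β`, so `α ∈ closure O`.
`Sys.attract` for `g⁻¹` gives `α'` with `g⁻¹ α' = α'`, in the closed set `v • closure O`.  So `α ≠ α'`.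
-/

open Filter Topology Set
open scoped Pointwise

namespace Pool.Agent.H31.S3

theorem Sys.ping_pong {G M : Type*} [Group G] [TopologicalSpace G] [IsTopologicalGroup G]
    [LocallyCompactSpace G] [TopologicalSpace M] [T2Space M] [LocallyCompactSpace M]
    [MulAction G M] [ContinuousSMul G M] (hS : Sys G M) {Y : Set M} (hY : IsCompact Y) {p r : M}
    {v : G} (hp : p ∈ Y) (hr : r ∈ Y) (hvY : ∀ y ∈ Y, v • y ∈ Y) (hvY' : ∀ y ∈ Y, v⁻¹ • y ∈ Y)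
    (hvp : v • p ≠ p) (hrp : r ≠ p) (hrv : r ≠ v • p)
    (ha : ∀ O ∈ 𝓝 p, ∃ a : G, (∀ y ∈ Y, a • y ∈ Y) ∧ (∀ y ∈ Y, a⁻¹ • y ∈ Y) ∧
      ∀ y ∈ Y, y ∉ O → a • y ∈ O) :
    ∃ g : G, ∃ α ∈ Y, ∃ α' ∈ Y, α ≠ α' ∧ g • α = α ∧ g • α' = α' ∧ ToInf g ∧
      (∀ y ∈ Y, g • y ∈ Y) ∧ (∀ y ∈ Y, g⁻¹ • y ∈ Y) := by
  classical
  have hpv : p ≠ v • p := hvp.symm
  -- the closed neighbourhood `D`
  obtain ⟨U1, V1, hU1, hV1, hpU1, hvV1, hd1⟩ := t2_separation hpv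
  obtain ⟨U2, V2, hU2, hV2, hpU2, hrV2, hd2⟩ := t2_separation hrp.symm
  obtain ⟨U3, V3, hU3, hV3, hvU3, hrV3, hd3⟩ := t2_separation hrv.symm
  have hcv : Continuous fun y : M => v • y := continuous_const_smul v
  have hO : U1 ∩ U2 ∩ ((fun y : M => v • y) ⁻¹' (V1 ∩ U3)) ∈ 𝓝 p :=
    ((hU1.inter hU2).inter ((hV1.inter hU3).preimage hcv)).mem_nhds
      ⟨⟨hpU1, hpU2⟩, hvV1, hvU3⟩
  obtain ⟨D, hDp, hDc, hDs⟩ := exists_mem_nhds_isClosed_subset hO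
  have hpD : p ∈ D := mem_of_mem_nhds hDp
  have hdisj : ∀ y ∈ D, v⁻¹ • y ∉ D := by
    intro y hy hy2
    have h1 : y ∈ V1 := by
      have h2 := (hDs hy2).2.1
      change v • v⁻¹ • y ∈ V1 at h2
      rwa [smul_inv_smul] at h2
    exact disjoint_left.1 hd1 (hDs hy).1.1 h1
  have hrD : r ∉ D := fun h => disjoint_left.1 hd2 (hDs h).1.2 hrV2
  have hrD' : v⁻¹ • r ∉ D := by
    intro h
    have h2 := (hDs h).2.2
    change v • v⁻¹ • r ∈ U3 at h2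
    rw [smul_inv_smul] at h2
    exact disjoint_left.1 hd3 h2 hrV3
  have hvpD : v • p ∉ D := by
    intro h
    have h2 := hdisj _ h
    rw [inv_smul_smul] at h2
    exact h2 hpD
  obtain ⟨a, haY, haY', haO⟩ := ha D hDp
  have hai : ∀ y ∈ Y, y ∉ D → a⁻¹ • y ∈ D := by
    intro y hy hyD
    by_contra h
    have h2 := haO _ (haY' y hy) h
    rw [smul_inv_smul] at h2
    exact hyD h2
  obtain ⟨g, hgdef⟩ : ∃ g : G, g = a * (v * a * v⁻¹) := ⟨_, rfl⟩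
  have hgs : ∀ y : M, g • y = a • v • a • v⁻¹ • y := by
    intro y
    rw [hgdef]
    simp only [mul_smul]
  have hgsi : ∀ y : M, g⁻¹ • y = v • a⁻¹ • v⁻¹ • a⁻¹ • y := by
    intro y
    rw [inv_smul_eq_iff, hgs, inv_smul_smul, smul_inv_smul, smul_inv_smul, smul_inv_smul]
  have hgY : ∀ y ∈ Y, g • y ∈ Y := by
    intro y hy
    rw [hgs]
    exact haY _ (hvY _ (haY _ (hvY' y hy)))
  have hgY' : ∀ y ∈ Y, g⁻¹ • y ∈ Y := by
    intro y hy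
    rw [hgsi]
    exact hvY _ (haY' _ (hvY' _ (haY' y hy)))
  -- (i)
  have h1 : ∀ y ∈ Y, v⁻¹ • y ∉ D → g • y ∈ D := by
    intro y hy hy2
    have h3 : a • v⁻¹ • y ∈ D := haO _ (hvY' y hy) hy2
    rw [hgs]
    refine haO _ (hvY _ (haY _ (hvY' y hy))) ?_
    intro h4
    have h5 := hdisj _ h4
    rw [inv_smul_smul] at h5
    exact h5 h3
  -- (ii)
  have h2 : ∀ y ∈ Y, y ∉ D → v⁻¹ • g⁻¹ • y ∈ D := by
    intro y hy hy2
    have h3 : a⁻¹ • y ∈ D := hai y hy hy2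
    rw [hgsi, inv_smul_smul]
    exact hai _ (hvY' _ (haY' y hy)) (hdisj _ h3)
  -- (iii)
  have h3 : ∀ x ∈ Y, v⁻¹ • x ∉ D → ∀ n : ℕ, g ^ n • x ∈ Y ∧ v⁻¹ • g ^ n • x ∉ D := by
    intro x hx hx2 n
    induction n with
    | zero =>
      rw [pow_zero, one_smul]
      exact ⟨hx, hx2⟩
    | succ n ih =>
      rw [pow_succ', mul_smul]
      exact ⟨hgY _ ih.1, hdisj _ (h1 _ ih.1 ih.2)⟩
  have h3' : ∀ x ∈ Y, v⁻¹ • x ∉ D → ∀ n : ℕ, 1 ≤ n → g ^ n • x ∈ D := by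
    intro x hx hx2 n hn
    obtain ⟨n, rfl⟩ : ∃ n', n = n' + 1 := ⟨n - 1, by omega⟩
    rw [pow_succ', mul_smul]
    exact h1 _ (h3 x hx hx2 n).1 (h3 x hx hx2 n).2
  have h4 : ∀ x ∈ Y, x ∉ D → ∀ n : ℕ, (g⁻¹) ^ n • x ∈ Y ∧ (g⁻¹) ^ n • x ∉ D := by
    intro x hx hx2 n
    induction n with
    | zero =>
      rw [pow_zero, one_smul]
      exact ⟨hx, hx2⟩
    | succ n ih =>
      rw [pow_succ', mul_smul]
      refine ⟨hgY' _ ih.1, fun h => hdisj _ h (h2 _ ih.1 ih.2)⟩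
  have h4' : ∀ x ∈ Y, x ∉ D → ∀ n : ℕ, 1 ≤ n → v⁻¹ • (g⁻¹) ^ n • x ∈ D := by
    intro x hx hx2 n hn
    obtain ⟨n, rfl⟩ : ∃ n', n = n' + 1 := ⟨n - 1, by omega⟩
    rw [pow_succ', mul_smul]
    exact h2 _ (h4 x hx hx2 n).1 (h4 x hx hx2 n).2
  -- (iv)
  have hinf : ToInf g := by
    have hcr : Continuous fun h : G => h • r := continuous_id.smul continuous_const
    refine toInf_of_avoid (S := {h : G | h • r ∉ D}) ?_ ?_
    · refine (hDc.isOpen_compl.preimage hcr).mem_nhds ?_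
      change (1 : G) • r ∉ D
      rwa [one_smul]
    · intro n hn h
      exact h (h3' r hr hrD' n hn)
  have hY3 : ∃ x ∈ Y, ∃ y ∈ Y, ∃ z ∈ Y, x ≠ y ∧ x ≠ z ∧ y ≠ z :=
    ⟨p, hp, v • p, hvY p hp, r, hr, hpv, hrp.symm, hrv.symm⟩
  -- (v)
  obtain ⟨α, hα, β, hβ, hgα, hαD⟩ := hS.attract hY hY3 hinf hgY hgY'
  obtain ⟨α', hα', β', hβ', hgα', hαD'⟩ := hS.attract hY hY3 hinf.inv hgY'
    (by rwa [inv_inv])
  have h5 : α ∈ D := by
    by_cases hb : p = β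
    · exact hαD r hr (fun h => hrp (h.trans hb.symm)) D hDc (h3' r hr hrD')
    · exact hαD p hp hb D hDc (h3' p hp (hdisj p hpD))
  have h6 : v⁻¹ • α' ∈ D := by
    have hDc' : IsClosed ((fun y : M => v⁻¹ • y) ⁻¹' D) := hDc.preimage (continuous_const_smul _)
    by_cases hb : r = β'
    · exact hαD' (v • p) (hvY p hp) (fun h => hrv (hb.trans h.symm)) _ hDc'
        (h4' _ (hvY p hp) hvpD)
    · exact hαD' r hr hb _ hDc' (h4' r hr hrD)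
  refine ⟨g, α, hα, α', hα', ?_, hgα, ?_, hinf, hgY, hgY'⟩
  · rintro rfl
    exact hdisj _ h5 h6
  · rw [inv_smul_eq_iff] at hgα'
    exact hgα'.symm

end Pool.Agent.H31.S3
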