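import Pool.Agent.H31.S3.Defs

/-!
# Properness on triples (job S3-B)

`Sys.conv`: if `(x i, y i, z i) → (a,b,c)`, a triple of distinct points, and
`(g i x i, g i y i, g i z i) → (a',b',c')`, a triple of distinct points, then `g i` converges.

Proof.  Let `g₀` be the element with `g₀ (a,b,c) = (a',b',c')` (`Sys.trans`).  Let `𝒲` be a
neighbourhood of `g₀`.  The map `(l,k) ↦ l * g₀ * k⁻¹` is continuous at `(1,1)`: there is `U ∈ 𝓝 1`
with `l * g₀ * k⁻¹ ∈ 𝒲` for `l, k ∈ U`.  By `Sys.opn a b c U`, for `F`-many `i` there is `k ∈ U` with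
`k (a,b,c) = (x i, y i, z i)`, and by `Sys.opn a' b' c' U` there is `l ∈ U` with
`l (a',b',c') = (g i x i, g i y i, g i z i)`.  Then `g i * k` and `l * g₀` agree on `a, b, c`, so
`(l * g₀)⁻¹ * (g i * k) = 1` by `Sys.free`, and `g i = l * g₀ * k⁻¹ ∈ 𝒲`.
-/

open Filter Topology Set

namespace Pool.Agent.H31.S3

theorem Sys.conv {G M : Type*} [Group G] [TopologicalSpace G] [IsTopologicalGroup G]
    [TopologicalSpace M] [MulAction G M] (hS : Sys G M) {ι : Type*} {F : Filter ι} {g : ι → G}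
    {x y z : ι → M} {a b c a' b' c' : M} (hab : a ≠ b) (hac : a ≠ c) (hbc : b ≠ c)
    (hab' : a' ≠ b') (hac' : a' ≠ c') (hbc' : b' ≠ c')
    (hx : Tendsto x F (𝓝 a)) (hy : Tendsto y F (𝓝 b)) (hz : Tendsto z F (𝓝 c))
    (hgx : Tendsto (fun i => g i • x i) F (𝓝 a')) (hgy : Tendsto (fun i => g i • y i) F (𝓝 b'))
    (hgz : Tendsto (fun i => g i • z i) F (𝓝 c')) :
    ∃ g₀ : G, Tendsto g F (𝓝 g₀) ∧ g₀ • a = a' ∧ g₀ • b = b' ∧ g₀ • c = c' := by
  obtain ⟨g₀, hg1, hg2, hg3⟩ := hS.trans a b c a' b' c' hab hac hbc hab' hac' hbc'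
  refine ⟨g₀, ?_, hg1, hg2, hg3⟩
  intro V hV0
  have hc : Tendsto (fun x : G × G => x.1 * g₀ * x.2⁻¹) (𝓝 (1, 1)) (𝓝 (1 * g₀ * 1⁻¹)) :=
    ((continuous_fst.mul continuous_const).mul continuous_snd.inv).continuousAt
  rw [inv_one, mul_one, one_mul] at hc
  have hV := hc hV0
  rw [nhds_prod_eq] at hV
  obtain ⟨U, hU1, hU2⟩ := mem_prod_same_iff.1 (mem_map.1 hV)
  obtain ⟨A, hA, B, hB, C, hC, hABC⟩ := hS.opn a b c hab hac hbc U hU1
  obtain ⟨A', hA', B', hB', C', hC', hABC'⟩ := hS.opn a' b' c' hab' hac' hbc' U hU1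
  have hev : ∀ᶠ i in F, g i ∈ V := by
    filter_upwards [hx.eventually hA, hy.eventually hB, hz.eventually hC, hgx.eventually hA',
      hgy.eventually hB', hgz.eventually hC'] with i h1 h2 h3 h4 h5 h6
    obtain ⟨k, hk, hk1, hk2, hk3⟩ := hABC _ h1 _ h2 _ h3
    obtain ⟨l, hl, hl1, hl2, hl3⟩ := hABC' _ h4 _ h5 _ h6
    have h7 : (l * g₀)⁻¹ * (g i * k) = 1 := by
      refine hS.free a b c hab hac hbc _ ?_ ?_ ?_
      · rw [mul_smul, mul_smul, hk1, inv_smul_eq_iff, mul_smul, hg1, hl1]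
      · rw [mul_smul, mul_smul, hk2, inv_smul_eq_iff, mul_smul, hg2, hl2]
      · rw [mul_smul, mul_smul, hk3, inv_smul_eq_iff, mul_smul, hg3, hl3]
    have h8 : g i = l * g₀ * k⁻¹ := by
      rw [inv_mul_eq_one] at h7
      rw [h7, mul_inv_cancel_right]
    have h9 := hU2 (mk_mem_prod hl hk)
    rw [h8]
    exact h9
  exact hev

end Pool.Agent.H31.S3
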