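import Pool.Agent.H31.S3.Basin
import Pool.Agent.H31.S3.Cpt
import Pool.Agent.H31.S3.DynA
import Pool.Agent.H31.S3.DynB
import Pool.Agent.H31.S3.DynC

/-!
# The dichotomy

`TwoPt.t2`: if `t` contracts at `p` and `t⁻¹` contracts at `q` then `M` is compact.
`TwoPt.alt`: if `M` is not compact, then `t` or `t⁻¹` contracts at both points.
-/

open Filter Topology Set
open scoped Pointwise

namespace Pool.Agent.H31.S3

variable {H M : Type*} [Group H] [TopologicalSpace H] [IsTopologicalGroup H]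
  [LocallyCompactSpace H] [T2Space H] [TopologicalSpace M] [T2Space M] [LocallyCompactSpace M]
  [MulAction H M] [ContinuousSMul H M] {p q : M}

omit [TopologicalSpace H] [IsTopologicalGroup H] [LocallyCompactSpace H] [T2Space H]
  [T2Space M] [LocallyCompactSpace M] [ContinuousSMul H M] in
/-- convergence of the points of the contracted neighbourhood -/
theorem Contr.tendsto {t : H} (h : Contr t p) :
    ∃ O ∈ 𝓝 p, ∀ x ∈ O, Tendsto (fun n : ℕ => t ^ n • x) atTop (𝓝 p) := by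
  obtain ⟨O, hO, h⟩ := h
  refine ⟨O, hO, fun x hx => ?_⟩
  intro U hU
  obtain ⟨N, hN⟩ := h U hU
  exact mem_map.2 (mem_atTop_sets.2 ⟨N, fun n hn => hN n hn x hx⟩)

omit [IsTopologicalGroup H] [LocallyCompactSpace H] [T2Space H]
  [LocallyCompactSpace M] [ContinuousSMul H M] in
theorem TwoPt.exists_contr_point (T : TwoPt H p q) {t : H} (h : Contr t p) :
    ∃ x : M, x ≠ p ∧ x ≠ q ∧ Tendsto (fun n : ℕ => t ^ n • x) atTop (𝓝 p) := by
  obtain ⟨O, hO, h⟩ := h.tendsto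
  have := T.perfp
  have h2 : O ∩ {q}ᶜ ∈ 𝓝[≠] p :=
    mem_nhdsWithin_of_mem_nhds (inter_mem hO (isOpen_compl_singleton.mem_nhds T.ne))
  obtain ⟨x, ⟨hx1, hx2⟩, hx3⟩ :=
    (inter_mem h2 (self_mem_nhdsWithin (a := p) (s := {p}ᶜ)) |> Filter.nonempty_of_mem)
  exact ⟨x, hx3, hx2, h x hx1⟩

theorem TwoPt.t2_half (T : TwoPt H p q) {t : H} (ht : ToInf t) (h1 : Contr t p)
    (h2 : Contr t⁻¹ q) : ∀ y : M, y ≠ q → Tendsto (fun n : ℕ => t ^ n • y) atTop (𝓝 p) := by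
  intro y hy
  obtain ⟨x, hxp, hxq, hx⟩ := T.exists_contr_point h1
  obtain ⟨x', hxq', hxp', hx'⟩ := T.symm.exists_contr_point h2
  by_cases hyp : y = p
  · subst hyp
    simp only [T.fixp]
    exact tendsto_const_nhds
  · obtain ⟨h, rfl⟩ := T.trans x y hxp hxq hyp hy
    exact T.basin ht h1 hxp hxq hxp' hxq' hx hx' h

theorem TwoPt.t2 (T : TwoPt H p q) {t : H} (ht : ToInf t) (h1 : Contr t p)
    (h2 : Contr t⁻¹ q) : CompactSpace M := by
  refine compactSpace_of_basin T.ne (T.fixp t) (T.fixq t) h1 h2 (T.t2_half ht h1 h2) ?_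
  refine T.symm.t2_half ht.inv h2 ?_
  rwa [inv_inv]

theorem TwoPt.contr_or (T : TwoPt H p q) {t : H} (ht : ToInf t) : Contr t p ∨ Contr t⁻¹ p := by
  rcases T.contr_point ht with ⟨x, h1, h2, h3⟩ | ⟨x, h1, h2, h3⟩
  · exact Or.inl (T.contr_of_point ht h1 h2 h3)
  · exact Or.inr (T.contr_of_point ht.inv h1 h2 h3)

theorem TwoPt.alt (T : TwoPt H p q) (hM : ¬ CompactSpace M) {t : H} (ht : ToInf t) :
    (Contr t p ∧ Contr t q) ∨ (Contr t⁻¹ p ∧ Contr t⁻¹ q) := by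
  rcases T.contr_or ht with h1 | h1 <;> rcases T.symm.contr_or ht with h2 | h2
  · exact Or.inl ⟨h1, h2⟩
  · exact absurd (T.t2 ht h1 h2) hM
  · exact absurd (T.symm.t2 ht h2 h1) hM
  · exact Or.inr ⟨h1, h2⟩

end Pool.Agent.H31.S3
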