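import Pool.Agent.H31.S3.Defs

/-!
# Connected or totally disconnected
-/

open Filter Topology Set

namespace Pool.Agent.H31.S3

variable {G M : Type*} [Group G] [TopologicalSpace G] [TopologicalSpace M]
  [MulAction G M] [ContinuousSMul G M]

/-- a third point -/
theorem Sys.third (hS : Sys G M) (a b : M) : ∃ c : M, c ≠ a ∧ c ≠ b := by
  obtain ⟨x, y, z, hxy, hxz, hyz⟩ := hS.three
  by_cases h1 : x ≠ a ∧ x ≠ b
  · exact ⟨x, h1⟩
  by_cases h2 : y ≠ a ∧ y ≠ b
  · exact ⟨y, h2⟩
  refine ⟨z, ?_, ?_⟩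
  · rintro rfl
    have e1 : x = b := by
      by_contra h
      exact h1 ⟨hxz, h⟩
    have e2 : y = b := by
      by_contra h
      exact h2 ⟨hyz, h⟩
    exact hxy (e1.trans e2.symm)
  · rintro rfl
    have e1 : x = a := by
      by_contra h
      exact h1 ⟨h, hxz⟩
    have e2 : y = a := by
      by_contra h
      exact h2 ⟨h, hyz⟩
    exact hxy (e1.trans e2.symm)

/-- `G` is doubly transitive -/
theorem Sys.trans2 (hS : Sys G M) {x y x' y' : M} (h : x ≠ y) (h' : x' ≠ y') :
    ∃ g : G, g • x = x' ∧ g • y = y' := by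
  obtain ⟨z, hz1, hz2⟩ := hS.third x y
  obtain ⟨z', hz1', hz2'⟩ := hS.third x' y'
  obtain ⟨g, h1, h2, -⟩ := hS.trans x y z x' y' z' h hz1.symm hz2.symm h' hz1'.symm hz2'.symm
  exact ⟨g, h1, h2⟩

theorem Sys.totallyDisconnected (hS : Sys G M) (h : ¬ PreconnectedSpace M) :
    TotallyDisconnectedSpace M := by
  constructor
  intro s _ hs x hx y hy
  by_contra hxy
  apply h
  constructor
  refine isPreconnected_of_forall x fun z _ => ?_
  by_cases hz : z = x
  · exact ⟨{x}, subset_univ _, rfl, hz, isPreconnected_singleton⟩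
  obtain ⟨g, h1, h2⟩ := hS.trans2 hxy (fun e => hz e.symm)
  refine ⟨(fun m => g • m) '' s, subset_univ _, ⟨x, hx, h1⟩, ⟨y, hy, h2⟩, ?_⟩
  exact hs.image _ (continuous_const_smul g).continuousOn

theorem Sys.totallyDisconnected_group (hS : Sys G M) [TotallyDisconnectedSpace M] :
    TotallyDisconnectedSpace G := by
  constructor
  intro s _ hs g hg h hh
  obtain ⟨x, y, z, hxy, hxz, hyz⟩ := hS.three
  have key : ∀ w : M, g • w = h • w := by
    intro w
    have h1 : IsPreconnected ((fun k : G => k • w) '' s) :=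
      hs.image _ (continuous_id.smul continuous_const).continuousOn
    exact h1.subsingleton ⟨g, hg, rfl⟩ ⟨h, hh, rfl⟩
  have h2 : h⁻¹ * g = 1 := by
    refine hS.free x y z hxy hxz hyz _ ?_ ?_ ?_ <;> rw [mul_smul, key, inv_smul_smul]
  calc g = h * (h⁻¹ * g) := by group
    _ = h := by rw [h2, mul_one]

end Pool.Agent.H31.S3
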