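import Pool.Agent.H31.S3.Willis
import Pool.Agent.H31.S3.VanD

/-!
# The small subgroup `V` (job S3-K)

`t p = p`, `t q = q`, `Contr t p`, `Contr t q`, `G` totally disconnected.

Proof.  Let `O`, `O'` be the contracted neighbourhoods of `p`, `q`.  By continuity of the action at
`(1,p)`, `(1,q)` and `exists_compact_open_subgroup` there is a compact open subgroup `V₀` with
`V₀ p ⊆ O \ {q}` and `V₀ q ⊆ O'`.  Let `V ≤ V₀` be the subgroup of `willis`.
(1) Elements `a ∈ plus t V` fix `p` and `q`: for `n : ℕ`, `a p = t^n ((t^(-n) a t^n) p)` (as `t^n p = p`)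
with `(t^(-n) a t^n) p ∈ V p ⊆ O`, so `a p` lies in every neighbourhood `U` of `p` (`Contr`), and
`a p = p` (Hausdorff); the same for `q`.
(2) `∀ g ∈ V, ∃ b ∈ minus t V, b p = g p ∧ b q = g q`: `g⁻¹ = a * b₀`, so `g = b₀⁻¹ * a⁻¹`; `b = b₀⁻¹`
(`minus t V` is closed under inverses, `a⁻¹` fixes `p`, `q`).
(3) Contraction: `Contr` with `g p ∈ O`.
(4) Some `a ∈ minus t V` has `a p = p`, `a q ≠ q`: let `r` be a third point (`hS.three`: among three
points one is different from `p`, `q`), `A, B, C` the neighbourhoods of `hS.opn p q r` for `U = V`; take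
`b ∈ B`, `b ≠ q` (`hS.perf q`): there is `g ∈ V` with `g p = p`, `g q = b` (`g r = r`); use (2).
-/

open Filter Topology Set
open scoped Pointwise

namespace Pool.Agent.H31.S3

theorem tidy_pow_smul {G M : Type*} [Group G] [MulAction G M] {t : G} {p : M} (htp : t • p = p)
    (n : ℕ) : t ^ n • p = p := by
  induction n with
  | zero => rw [pow_zero, one_smul]
  | succ n ih => rw [pow_succ, mul_smul, htp, ih]

theorem tidy_plus_fix {G M : Type*} [Group G] [TopologicalSpace M] [T1Space M] [MulAction G M]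
    {V : Subgroup G} {t : G} {p : M} (htp : t • p = p) {O : Set M}
    (hO : ∀ U ∈ 𝓝 p, ∃ N : ℕ, ∀ n ≥ N, ∀ y ∈ O, t ^ n • y ∈ U) (hV : ∀ g ∈ V, g • p ∈ O)
    {a : G} (ha : a ∈ plus t V) : a • p = p := by
  by_contra hne
  obtain ⟨N, hN⟩ := hO ({a • p}ᶜ) (isOpen_compl_singleton.mem_nhds (fun h => hne h.symm))
  have h1 := hN N le_rfl _ (hV _ (ha N))
  apply h1
  change t ^ N • ((t ^ N)⁻¹ * a * t ^ N) • p = a • p
  rw [mul_smul, mul_smul, smul_inv_smul, tidy_pow_smul htp]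

theorem exists_tidy {G M : Type*} [Group G] [TopologicalSpace G] [IsTopologicalGroup G]
    [LocallyCompactSpace G] [T2Space G] [TotallyDisconnectedSpace G] [TopologicalSpace M]
    [T2Space M] [MulAction G M] [ContinuousSMul G M] (hS : Sys G M) {p q : M} (hpq : p ≠ q)
    {t : G} (htp : t • p = p) (htq : t • q = q) (h1 : Contr t p) (h2 : Contr t q) :
    ∃ V : Subgroup G, IsOpen (V : Set G) ∧ IsCompact (V : Set G) ∧
      (∀ g ∈ V, ∃ b ∈ minus t V, b • p = g • p ∧ b • q = g • q) ∧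
      (∀ U ∈ 𝓝 p, ∃ N : ℕ, ∀ n ≥ N, ∀ g ∈ V, t ^ n • g • p ∈ U) ∧
      (∀ g ∈ V, g • p ≠ q) ∧ (∃ a ∈ minus t V, a • p = p ∧ a • q ≠ q) := by
  obtain ⟨O, hO, hOc⟩ := h1
  obtain ⟨O', hO', hO'c⟩ := h2
  have hcont : ∀ x : M, Tendsto (fun g : G => g • x) (𝓝 1) (𝓝 x) := by
    intro x
    have h3 : Continuous (fun g : G => g • x) := continuous_id.smul continuous_const
    have h4 := h3.tendsto 1
    rwa [one_smul] at h4
  have hnb1 : {g : G | g • p ∈ O ∩ {q}ᶜ} ∈ 𝓝 (1 : G) :=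
    hcont p (inter_mem hO (isOpen_compl_singleton.mem_nhds hpq))
  have hnb2 : {g : G | g • q ∈ O'} ∈ 𝓝 (1 : G) := hcont q hO'
  obtain ⟨V₀, hV₀o, hV₀c, hV₀⟩ := exists_compact_open_subgroup (inter_mem hnb1 hnb2)
  obtain ⟨V, hVle, hVo, hVc, hVt⟩ := willis t V₀ hV₀o hV₀c
  have hVO : ∀ g ∈ V, g • p ∈ O := fun g hg => (hV₀ (hVle hg)).1.1
  have hVq : ∀ g ∈ V, g • p ≠ q := fun g hg => (hV₀ (hVle hg)).1.2
  have hVO' : ∀ g ∈ V, g • q ∈ O' := fun g hg => (hV₀ (hVle hg)).2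
  have key : ∀ g ∈ V, ∃ b ∈ minus t V, b • p = g • p ∧ b • q = g • q := by
    intro g hg
    obtain ⟨a, ha, b, hb, hab⟩ := hVt g⁻¹ (V.inv_mem hg)
    have hap : a • p = p := tidy_plus_fix htp hOc hVO ha
    have haq : a • q = q := tidy_plus_fix htq hO'c hVO' ha
    have hg' : g = b⁻¹ * a⁻¹ := by rw [← mul_inv_rev, ← hab, inv_inv]
    refine ⟨b⁻¹, fun n => ?_, ?_, ?_⟩
    · have h3 := V.inv_mem (hb n)
      rwa [mul_inv_rev, mul_inv_rev, inv_inv, ← mul_assoc] at h3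
    · rw [hg', mul_smul]
      congr 1
      rw [eq_inv_smul_iff, hap]
    · rw [hg', mul_smul]
      congr 1
      rw [eq_inv_smul_iff, haq]
  refine ⟨V, hVo, hVc, key, ?_, hVq, ?_⟩
  · intro U hU
    obtain ⟨N, hN⟩ := hOc U hU
    exact ⟨N, fun n hn g hg => hN n hn _ (hVO g hg)⟩
  · obtain ⟨r, hrp, hrq⟩ : ∃ r : M, r ≠ p ∧ r ≠ q := by
      obtain ⟨x, y, z, hxy, hxz, hyz⟩ := hS.three
      by_cases hx : x ≠ p ∧ x ≠ q
      · exact ⟨x, hx⟩
      by_cases hy : y ≠ p ∧ y ≠ q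
      · exact ⟨y, hy⟩
      refine ⟨z, fun h => ?_, fun h => ?_⟩
      · rw [h] at hxz hyz
        have hxq : x = q := by
          by_contra h3
          exact hx ⟨hxz, h3⟩
        have hyq : y = q := by
          by_contra h3
          exact hy ⟨hyz, h3⟩
        exact hxy (hxq.trans hyq.symm)
      · rw [h] at hxz hyz
        have hxq : x = p := by
          by_contra h3
          exact hx ⟨h3, hxz⟩
        have hyq : y = p := by
          by_contra h3
          exact hy ⟨h3, hyz⟩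
        exact hxy (hxq.trans hyq.symm)
    obtain ⟨A, hA, B, hB, C, hC, hopn⟩ := hS.opn p q r hpq hrp.symm hrq.symm (V : Set G)
      (hVo.mem_nhds V.one_mem)
    obtain ⟨b, hbB, hbq⟩ := (hS.perf q).nonempty_of_mem
      (inter_mem (mem_nhdsWithin_of_mem_nhds hB) self_mem_nhdsWithin)
    obtain ⟨g, hg, hgp, hgq, -⟩ := hopn p (mem_of_mem_nhds hA) b hbB r (mem_of_mem_nhds hC)
    obtain ⟨a, ha, hap, haq⟩ := key g hg
    exact ⟨a, ha, hap.trans hgp, fun h => hbq (by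
      rw [haq, hgq] at h
      exact h)⟩

end Pool.Agent.H31.S3
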