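import Pool.Agent.H31.S3.T2
import Pool.Agent.H31.S3.TD
import Pool.Agent.H31.S3.Tidy
import Pool.Agent.H31.S3.Blocks
import Pool.Agent.H31.S3.Lim
import Pool.Agent.H31.S3.Ell
import Pool.Agent.H31.S3.PP
import Pool.Agent.H31.S3.TwoOf

/-!
# The totally disconnected case
-/

open Filter Topology Set
open scoped Pointwise

namespace Pool.Agent.H31.S3

variable {G M : Type*} [Group G] [TopologicalSpace G] [IsTopologicalGroup G]
  [LocallyCompactSpace G] [T2Space G] [TopologicalSpace M] [LocallyCompactSpace M] [T2Space M]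
  [MulAction G M] [ContinuousSMul G M]

/-- a third point of a set with three points -/
theorem third_of_three {Y : Set M} (h3 : ∃ x ∈ Y, ∃ y ∈ Y, ∃ z ∈ Y, x ≠ y ∧ x ≠ z ∧ y ≠ z)
    (a b : M) : ∃ c ∈ Y, c ≠ a ∧ c ≠ b := by
  obtain ⟨x, hx, y, hy, z, hz, hxy, hxz, hyz⟩ := h3
  by_cases h1 : x ≠ a ∧ x ≠ b
  · exact ⟨x, hx, h1⟩
  by_cases h2 : y ≠ a ∧ y ≠ b
  · exact ⟨y, hy, h2⟩
  refine ⟨z, hz, ?_, ?_⟩
  · rintro rfl
    have e1 : x = b := by
      by_contra h
      exact h1 ⟨hxz, h⟩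
    have e2 : y = b := by
      by_contra h
      exact h2 ⟨hyz, h⟩
    exact hxy (e1.trans e2.symm)
  · rintro rfl
    have e1 : x = a := by
      by_contra h
      exact h1 ⟨h, hxz⟩
    have e2 : y = a := by
      by_contra h
      exact h2 ⟨h, hyz⟩
    exact hxy (e1.trans e2.symm)

theorem inv_mem_minus {t : G} {V : Subgroup G} {a : G} (ha : a ∈ minus t V) :
    a⁻¹ ∈ minus t V := by
  intro n
  have h := V.inv_mem (ha n)
  have e : (t ^ n * a * (t ^ n)⁻¹)⁻¹ = t ^ n * a⁻¹ * (t ^ n)⁻¹ := by group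
  rwa [e] at h

theorem conj_pow_mem {t : G} {V : Subgroup G} {a : G} (ha : a ∈ V) (n k : ℕ) :
    ((t ^ n)⁻¹ * a * t ^ n) ^ k ∈ (fun g => (t ^ n)⁻¹ * g * t ^ n) '' (V : Set G) := by
  refine ⟨a ^ k, V.pow_mem ha k, ?_⟩
  have : ∀ k : ℕ, ((t ^ n)⁻¹ * a * t ^ n) ^ k = (t ^ n)⁻¹ * a ^ k * t ^ n := by
    intro k
    induction k with
    | zero => simp
    | succ k ih => rw [pow_succ, ih, pow_succ]; group
  exact (this k).symm

/-- an element of the stabiliser of two points with an invariant compact set with a third point -/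
theorem Sys.bounded_false (hS : Sys G M) (hM : ¬ CompactSpace M) {α α' : M} (hne : α ≠ α')
    {g : G} (hg : g • α = α) (hg' : g • α' = α') (hinf : ToInf g) {Y : Set M} (hY : IsCompact Y)
    (hin : ∀ y ∈ Y, g • y ∈ Y) (hin' : ∀ y ∈ Y, g⁻¹ • y ∈ Y) {r : M} (hr : r ∈ Y)
    (h1 : r ≠ α) (h2 : r ≠ α') : False := by
  haveI := locallyCompact_stab (G := G) α α'
  have T := hS.twoPt hne
  set g' : stab G α α' := ⟨g, mem_stab.2 ⟨hg, hg'⟩⟩ with hgdef
  have hinf' : ToInf g' := (toInf_coe g').1 hinf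
  have hpow : ∀ n : ℕ, g ^ n • r ∈ Y := by
    intro n
    induction n with
    | zero => simpa using hr
    | succ n ih => rw [pow_succ', mul_smul]; exact hin _ ih
  have hpow' : ∀ n : ℕ, (g⁻¹) ^ n • r ∈ Y := by
    intro n
    induction n with
    | zero => simpa using hr
    | succ n ih => rw [pow_succ', mul_smul]; exact hin' _ ih
  rcases T.alt hM hinf' with ⟨c1, c2⟩ | ⟨c1, c2⟩
  · obtain ⟨N, hN⟩ := T.escape hinf' c1 c2 h1 h2 hY
    exact hN N le_rfl (hpow' N)
  · obtain ⟨N, hN⟩ := T.escape hinf'.inv c1 c2 h1 h2 hY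
    have := hN N le_rfl
    rw [inv_inv] at this
    exact this (hpow N)

theorem Sys.td_false (hS : Sys G M) (hM : ¬ CompactSpace M) [TotallyDisconnectedSpace G]
    {p q : M} (hpq : p ≠ q) {t : stab G p q} (ht : ToInf t) (h1 : Contr t p) (h2 : Contr t q) :
    False := by
  haveI := locallyCompact_stab (G := G) p q
  have T := hS.twoPt hpq
  have htp : (t : G) • p = p := (mem_stab.1 t.2).1
  have htq : (t : G) • q = q := (mem_stab.1 t.2).2
  have h1' : Contr (t : G) p := h1
  have h2' : Contr (t : G) q := h2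
  have htn : ∀ n : ℕ, (t : G) ^ n • p = p := by
    intro n
    induction n with
    | zero => simp
    | succ n ih => rw [pow_succ, mul_smul, htp, ih]
  have htnq : ∀ n : ℕ, (t : G) ^ n • q = q := by
    intro n
    induction n with
    | zero => simp
    | succ n ih => rw [pow_succ, mul_smul, htq, ih]
  have hopn : ∀ U ∈ 𝓝 (1 : G), (fun g : G => g • p) '' U ∈ 𝓝 p := by
    intro U hU
    obtain ⟨r, hr1, hr2⟩ := hS.third p q
    obtain ⟨A, hA, B, hB, C, hC, h⟩ := hS.opn p q r hpq hr1.symm hr2.symm U hU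
    refine mem_of_superset hA fun x hx => ?_
    obtain ⟨g, hg, e, -, -⟩ := h x hx q (mem_of_mem_nhds hB) r (mem_of_mem_nhds hC)
    exact ⟨g, hg, e⟩
  obtain ⟨V, hVo, hVc, hmin, hcon, -, a, ha, hap, haq⟩ := exists_tidy hS hpq htp htq h1' h2'
  have hblock := exists_block htp hopn (hS.perf p) hVo hVc
    (fun g hg => (hmin g hg).imp fun b hb => ⟨hb.1, hb.2.1⟩) hcon
  choose Y v h using hblock
  obtain ⟨Y, v, hY, hpY, hYV, hvV, hvt, hvY, hvY', hinvY⟩ := exists_limit hopn hVo hVc Y v h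
  have hvp : v • p ≠ p := by
    intro e
    refine hvt 1 V.one_mem ?_
    rw [one_smul, htp, e]
  have haV : a ∈ V := by
    have := ha 0
    simpa using this
  -- the sequence
  set b : ℕ → G := fun n => ((t : G) ^ n)⁻¹ * a * (t : G) ^ n with hb
  have hbp : ∀ n, b n • p = p := by
    intro n
    simp only [hb, mul_smul, htn, hap]
    rw [inv_smul_eq_iff, htn]
  have hbin : ∀ n, ∀ y ∈ Y, b n • y ∈ Y := fun n y hy => hinvY n a ha hap y hy
  have hbin' : ∀ n, ∀ y ∈ Y, (b n)⁻¹ • y ∈ Y := by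
    intro n y hy
    have e : (b n)⁻¹ = ((t : G) ^ n)⁻¹ * a⁻¹ * (t : G) ^ n := by simp only [hb]; group
    rw [e]
    refine hinvY n a⁻¹ (inv_mem_minus ha) ?_ y hy
    rw [inv_smul_eq_iff, hap]
  -- third point of `Y`
  have hthird : ∃ r ∈ Y, r ≠ p ∧ r ≠ v • p := by
    by_contra hcon3
    push Not at hcon3
    have hfix : ∀ n, b n • (v • p) = v • p := by
      intro n
      by_contra hne
      have h5 := hcon3 _ (hbin n _ (hvY p hpY))
      have h6 : b n • (v • p) ≠ p := by
        intro e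
        have e2 : (b n)⁻¹ • b n • v • p = (b n)⁻¹ • p := by rw [e]
        rw [inv_smul_smul] at e2
        have e3 : (b n)⁻¹ • p = p := by rw [inv_smul_eq_iff, hbp]
        exact hvp (e2.trans e3)
      exact hne (h5 h6)
    have f0 : a • (v • p) = v • p := by
      have := hfix 0
      simpa [hb] using this
    have f1 : a • ((t : G) • v • p) = (t : G) • v • p := by
      have := hfix 1
      simp only [hb, pow_one, mul_smul] at this
      rwa [inv_smul_eq_iff] at this
    have n1 : p ≠ (t : G) • v • p := by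
      intro e
      apply hvp
      have : (t : G)⁻¹ • p = v • p := by rw [inv_smul_eq_iff]; exact e
      rw [← this, inv_smul_eq_iff, htp]
    have n2 : v • p ≠ (t : G) • v • p := by
      obtain ⟨g, hg, e⟩ := hYV _ (hvY p hpY)
      intro e2
      exact hvt g hg (by rw [← e]; exact e2)
    have : a = 1 := hS.free p (v • p) ((t : G) • v • p) hvp.symm n1 n2 a hap f0 f1
    rw [this, one_smul] at haq
    exact haq rfl
  obtain ⟨r, hrY, hrp, hrv⟩ := hthird
  have h3 : ∃ x ∈ Y, ∃ y ∈ Y, ∃ z ∈ Y, x ≠ y ∧ x ≠ z ∧ y ≠ z :=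
    ⟨p, hpY, v • p, hvY p hpY, r, hrY, hvp.symm, hrp.symm, hrv.symm⟩
  -- the sequence tends to infinity
  have haqp : a • q ≠ p := by
    intro e
    have : q = a⁻¹ • p := by rw [← e, inv_smul_smul]
    rw [this] at hpq
    apply hpq
    rw [eq_comm, inv_smul_eq_iff, hap]
  have hbinf : Tendsto b atTop (cocompact G) := by
    rw [hasBasis_cocompact.tendsto_right_iff]
    intro C hC
    obtain ⟨N, hN⟩ := T.escape ht h1 h2 haqp haq
      (hC.image (continuous_id.smul continuous_const) : IsCompact ((fun g : G => g • q) '' C))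
    filter_upwards [eventually_ge_atTop N] with n hn hn2
    refine hN n hn ⟨b n, hn2, ?_⟩
    show b n • q = _
    simp only [hb, mul_smul, htnq]
    show _ = (((t⁻¹ : stab G p q) ^ n : stab G p q) : G) • a • q
    simp
  have hell : ∀ n, ∃ C : Set G, IsCompact C ∧ ∀ k : ℕ, b n ^ k ∈ C := fun n =>
    ⟨(fun g => ((t : G) ^ n)⁻¹ * g * (t : G) ^ n) '' (V : Set G),
      hVc.image (by fun_prop), fun k => conj_pow_mem haV n k⟩
  have hE := hS.elliptic hY h3 hpY hbinf hbp hbin hbin' hell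
  obtain ⟨g, α, hα, α', hα', hne, e1, e2, hginf, hgY, hgY'⟩ :=
    hS.ping_pong hY hpY hrY hvY hvY' hvp hrp hrv fun O hO => by
      obtain ⟨n, hn⟩ := hE O hO
      exact ⟨b n, hbin n, hbin' n, hn⟩
  obtain ⟨s, hs, hs1, hs2⟩ := third_of_three h3 α α'
  exact hS.bounded_false hM hne e1 e2 hginf hY hgY hgY' hs hs1 hs2

end Pool.Agent.H31.S3
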