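import Pool.Agent.H31.S3.Defs

/-!
# Tidy above subgroups (Willis) (job S3-J)

`V` a compact open subgroup of `G`, `t : G`, `α g = t g t⁻¹`.  Some compact open subgroup `V' ≤ V`
satisfies `V' = V'_+ V'_-` (`plus t V'`, `minus t V'`).

Proof.  `W n = {g | ∀ i ≤ n, t^(-i) g t^i ∈ V} = ⋂_{i ≤ n} α^i(V)`, a decreasing sequence of compact open
subgroups with intersection `plus t V`; `α(W n) ∩ V = W (n+1)`.
(1) There is `n` such that every `w ∈ α(W n)` is `w = α(v) u` with `v ∈ plus t V`, `u ∈ W (n+1)`.  The set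
`Ω = α(plus t V) * V` is open and contains `⋂ α(W n) = α(plus t V)`; the compact sets `α(W n)` decrease,
so `α(W n) ⊆ Ω` for some `n` (`IsCompact.nonempty_iInter_of_directed_nonempty_isCompact_isClosed` for
`α(W n) \ Ω`, or `exists_subset_nhds_of_isCompact'`).  If `w = α(v) u`, `v ∈ plus t V`, `u ∈ V`, then
`u = α(v)⁻¹ w ∈ α(W n) ∩ V = W (n+1)`.
(2) `V' = W n`.  `plus t V' = plus t V` (the inclusion `plus t V ⊆ plus t V'` is what is needed).  Let
`w ∈ V'`.  By (1), inductively: `w 0 = w`, `α(w j) = α(v (j+1)) w (j+1)` with `v (j+1) ∈ plus t V`,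
`w (j+1) ∈ W (n+1) ⊆ V'`; that is `w j = v (j+1) α⁻¹(w (j+1))`.  So for `k ≥ 0`, `w = p k * r k` with
`p k = v 1 * α⁻¹(v 2) * ... * α^(-(k-1))(v k) ∈ plus t V` (a group with `α⁻¹(plus) ⊆ plus`) and
`r k = α^(-k)(w k)`; and for `0 ≤ j ≤ k`: `α^j(r k) = α^(-(k-j))(w k) ∈ (plus t V) w j ⊆ V'`.
A convenient form for the induction: for all `k` and all `w ∈ V'` there is `p ∈ plus t V` such that
`r = p⁻¹ w` satisfies `t^j r t^(-j) ∈ V'` for all `j ≤ k` (step: `w = v₁ α⁻¹(w₁)`, apply the hypothesis to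
`w₁`: `p₁`, `r₁ = p₁⁻¹ w₁`; take `p = v₁ α⁻¹(p₁)`, `r = α⁻¹(r₁)`; `α^j(r) = α^(j-1)(r₁)` for `j ≥ 1`, and
`r = p⁻¹ w ∈ V'` for `j = 0`).
(3) The sets `P k = {p ∈ plus t V | ∀ j ≤ k, t^j (p⁻¹ w) t^(-j) ∈ V'}` are compact, nonempty and
decreasing, so they have a common point `p`, and `w = p * (p⁻¹ w)`.
-/

open Filter Topology Set
open scoped Pointwise

namespace Pool.Agent.H31.S3

/-- `⋂_{i ≤ n} t^i V t^(-i)` -/
def wil {G : Type*} [Group G] (t : G) (V : Subgroup G) (n : ℕ) : Subgroup G where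
  carrier := {g | ∀ i ≤ n, (t ^ i)⁻¹ * g * t ^ i ∈ V}
  mul_mem' := by
    intro a b ha hb i hi
    have e : (t ^ i)⁻¹ * (a * b) * t ^ i = ((t ^ i)⁻¹ * a * t ^ i) * ((t ^ i)⁻¹ * b * t ^ i) := by
      group
    rw [e]
    exact V.mul_mem (ha i hi) (hb i hi)
  one_mem' := by
    intro i _
    have e : (t ^ i)⁻¹ * 1 * t ^ i = 1 := by group
    rw [e]
    exact V.one_mem
  inv_mem' := by
    intro a ha i hi
    have e : (t ^ i)⁻¹ * a⁻¹ * t ^ i = ((t ^ i)⁻¹ * a * t ^ i)⁻¹ := by group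
    rw [e]
    exact V.inv_mem (ha i hi)

section

variable {G : Type*} [Group G] {t : G} {V : Subgroup G}

theorem mem_wil {n : ℕ} {g : G} : g ∈ wil t V n ↔ ∀ i ≤ n, (t ^ i)⁻¹ * g * t ^ i ∈ V := Iff.rfl

theorem wil_anti {n m : ℕ} (h : n ≤ m) : wil t V m ≤ wil t V n :=
  fun _ hg i hi => hg i (hi.trans h)

theorem wil_le {n : ℕ} : wil t V n ≤ V := by
  intro g hg
  have := hg 0 (Nat.zero_le _)
  simpa using this

theorem wil_plus {n : ℕ} {g : G} (hg : g ∈ plus t V) : g ∈ wil t V n := fun i _ => hg i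

theorem wil_step {n : ℕ} {g : G} (hg : g ∈ V) (h : t⁻¹ * g * t ∈ wil t V n) :
    g ∈ wil t V (n + 1) := by
  intro i hi
  rcases Nat.eq_zero_or_pos i with h0 | h0
  · subst h0
    simpa using hg
  · obtain ⟨j, rfl⟩ : ∃ j, i = j + 1 := ⟨i - 1, by omega⟩
    have h1 := h j (by omega)
    have e : (t ^ (j + 1))⁻¹ * g * t ^ (j + 1) = (t ^ j)⁻¹ * (t⁻¹ * g * t) * t ^ j := by
      rw [pow_succ', mul_inv_rev]
      group
    rw [e]
    exact h1

theorem wil_plus_mul {a b : G} (ha : a ∈ plus t V) (hb : b ∈ plus t V) : a * b ∈ plus t V := by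
  intro n
  have e : (t ^ n)⁻¹ * (a * b) * t ^ n = ((t ^ n)⁻¹ * a * t ^ n) * ((t ^ n)⁻¹ * b * t ^ n) := by
    group
  rw [e]
  exact V.mul_mem (ha n) (hb n)

theorem wil_plus_conj {a : G} (ha : a ∈ plus t V) : t⁻¹ * a * t ∈ plus t V := by
  intro n
  have e : (t ^ n)⁻¹ * (t⁻¹ * a * t) * t ^ n = (t ^ (n + 1))⁻¹ * a * t ^ (n + 1) := by
    rw [pow_succ', mul_inv_rev]
    group
  rw [e]
  exact ha (n + 1)

theorem wil_plus_sub {n : ℕ} {a : G} (ha : a ∈ plus t V) : a ∈ plus t (wil t V n) := by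
  intro m i _
  have e : (t ^ i)⁻¹ * ((t ^ m)⁻¹ * a * t ^ m) * t ^ i = (t ^ (m + i))⁻¹ * a * t ^ (m + i) := by
    rw [pow_add, mul_inv_rev]
    group
  rw [e]
  exact ha (m + i)

end

theorem wil_open {G : Type*} [Group G] [TopologicalSpace G] [IsTopologicalGroup G]
    {t : G} {V : Subgroup G} (hVo : IsOpen (V : Set G)) (n : ℕ) :
    IsOpen (wil t V n : Set G) := by
  have e : (wil t V n : Set G) =
      ⋂ i ∈ Set.Iic n, (fun g : G => (t ^ i)⁻¹ * g * t ^ i) ⁻¹' (V : Set G) := by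
    ext g
    simp only [SetLike.mem_coe, mem_wil, Set.mem_iInter, Set.mem_Iic, Set.mem_preimage]
  rw [e]
  exact (Set.finite_Iic n).isOpen_biInter fun i _ =>
    hVo.preimage ((continuous_const.mul continuous_id).mul continuous_const)

theorem willis_one {G : Type*} [Group G] [TopologicalSpace G] [IsTopologicalGroup G] [T2Space G]
    (t : G) (V : Subgroup G) (hVo : IsOpen (V : Set G)) (hVc : IsCompact (V : Set G)) :
    ∃ n : ℕ, ∀ w ∈ wil t V n, ∃ v ∈ plus t V, ∃ u ∈ wil t V (n + 1), w = v * (t⁻¹ * u * t) := by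
  have hcl : ∀ n, IsClosed (wil t V n : Set G) := fun n =>
    Subgroup.isClosed_of_isOpen _ (wil_open hVo n)
  have hcomp : ∀ n, IsCompact (wil t V n : Set G) := fun n =>
    hVc.of_isClosed_subset (hcl n) wil_le
  -- the elements `w` of `W n` with `t w t⁻¹ ∉ t plus t⁻¹ V`
  let Ω : Set G := ⋃ v ∈ plus t V, (fun g : G => (t * v * t⁻¹)⁻¹ * (t * g * t⁻¹)) ⁻¹' (V : Set G)
  have hΩ : IsOpen Ω := isOpen_biUnion fun v _ =>
    hVo.preimage (continuous_const.mul ((continuous_const.mul continuous_id).mul continuous_const))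
  have hsub : ∃ n, (wil t V n : Set G) ⊆ Ω := by
    by_contra hno
    push Not at hno
    have hne : (⋂ n, ((wil t V n : Set G) ∩ Ωᶜ)).Nonempty := by
      apply IsCompact.nonempty_iInter_of_sequence_nonempty_isCompact_isClosed
      · intro i
        exact Set.inter_subset_inter_left _ (wil_anti (Nat.le_succ i))
      · intro i
        obtain ⟨x, hx1, hx2⟩ := Set.not_subset.1 (hno i)
        exact ⟨x, hx1, hx2⟩
      · exact (hcomp 0).inter_right hΩ.isClosed_compl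
      · intro i
        exact (hcl i).inter hΩ.isClosed_compl
    obtain ⟨x, hx⟩ := hne
    rw [Set.mem_iInter] at hx
    have hxp : x ∈ plus t V := fun n => (hx n).1 n le_rfl
    apply (hx 0).2
    refine Set.mem_biUnion hxp ?_
    have e : (t * x * t⁻¹)⁻¹ * (t * x * t⁻¹) = 1 := by group
    rw [Set.mem_preimage, e]
    exact V.one_mem
  obtain ⟨n, hn⟩ := hsub
  refine ⟨n, fun w hw => ?_⟩
  obtain ⟨v, hv, hvw⟩ := Set.mem_iUnion₂.1 (hn hw)
  refine ⟨v, hv, (t * v * t⁻¹)⁻¹ * (t * w * t⁻¹), ?_, by group⟩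
  refine wil_step hvw ?_
  have e : t⁻¹ * ((t * v * t⁻¹)⁻¹ * (t * w * t⁻¹)) * t = v⁻¹ * w := by group
  rw [e]
  exact (wil t V n).mul_mem ((wil t V n).inv_mem (wil_plus hv)) hw

theorem willis_two {G : Type*} [Group G] {t : G} {V : Subgroup G} {n : ℕ}
    (h : ∀ w ∈ wil t V n, ∃ v ∈ plus t V, ∃ u ∈ wil t V (n + 1), w = v * (t⁻¹ * u * t)) (k : ℕ) :
    ∀ w ∈ wil t V n, ∃ p ∈ plus t V, ∀ j ≤ k, t ^ j * (p⁻¹ * w) * (t ^ j)⁻¹ ∈ wil t V n := by
  induction k with
  | zero =>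
    intro w hw
    refine ⟨1, ?_, ?_⟩
    · intro m
      have e : (t ^ m)⁻¹ * 1 * t ^ m = 1 := by group
      rw [e]
      exact V.one_mem
    · intro j hj
      obtain rfl : j = 0 := by omega
      simpa using hw
  | succ k ih =>
    intro w hw
    obtain ⟨v, hv, u, hu, hwv⟩ := h w hw
    obtain ⟨p₁, hp₁, h1⟩ := ih u (wil_anti (Nat.le_succ n) hu)
    have hp : v * (t⁻¹ * p₁ * t) ∈ plus t V := wil_plus_mul hv (wil_plus_conj hp₁)
    refine ⟨v * (t⁻¹ * p₁ * t), hp, fun j hj => ?_⟩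
    rcases Nat.eq_zero_or_pos j with h0 | h0
    · subst h0
      have h2 := (wil t V n).mul_mem ((wil t V n).inv_mem (wil_plus hp)) hw
      simpa using h2
    · obtain ⟨i, rfl⟩ : ∃ i, j = i + 1 := ⟨j - 1, by omega⟩
      have h2 := h1 i (by omega)
      have e : t ^ (i + 1) * ((v * (t⁻¹ * p₁ * t))⁻¹ * w) * (t ^ (i + 1))⁻¹ =
          t ^ i * (p₁⁻¹ * u) * (t ^ i)⁻¹ := by
        rw [hwv, pow_succ]
        group
      rw [e]
      exact h2

theorem willis {G : Type*} [Group G] [TopologicalSpace G] [IsTopologicalGroup G] [T2Space G]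
    (t : G) (V : Subgroup G) (hVo : IsOpen (V : Set G)) (hVc : IsCompact (V : Set G)) :
    ∃ V' : Subgroup G, V' ≤ V ∧ IsOpen (V' : Set G) ∧ IsCompact (V' : Set G) ∧
      ∀ g ∈ V', ∃ a ∈ plus t V', ∃ b ∈ minus t V', g = a * b := by
  obtain ⟨n, hn⟩ := willis_one t V hVo hVc
  have hcl : IsClosed (wil t V n : Set G) := Subgroup.isClosed_of_isOpen _ (wil_open hVo n)
  have hVcl : IsClosed (V : Set G) := Subgroup.isClosed_of_isOpen _ hVo
  refine ⟨wil t V n, wil_le, wil_open hVo n, hVc.of_isClosed_subset hcl wil_le, fun w hw => ?_⟩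
  let P : ℕ → Set G := fun k =>
    {p | p ∈ plus t V ∧ ∀ j ≤ k, t ^ j * (p⁻¹ * w) * (t ^ j)⁻¹ ∈ wil t V n}
  have hplcl : IsClosed (plus t V) := by
    have e : plus t V = ⋂ m : ℕ, (fun g : G => (t ^ m)⁻¹ * g * t ^ m) ⁻¹' (V : Set G) := by
      ext g
      simp only [plus, Set.mem_iInter, Set.mem_preimage, SetLike.mem_coe]
      rfl
    rw [e]
    exact isClosed_iInter fun m =>
      hVcl.preimage ((continuous_const.mul continuous_id).mul continuous_const)
  have hPcl : ∀ k, IsClosed (P k) := by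
    intro k
    have e : P k = plus t V ∩ ⋂ j : ℕ, ⋂ (_ : j ≤ k),
        (fun p : G => t ^ j * (p⁻¹ * w) * (t ^ j)⁻¹) ⁻¹' (wil t V n : Set G) := by
      ext p
      simp only [P, Set.mem_inter_iff, Set.mem_iInter, Set.mem_preimage, SetLike.mem_coe]
      rfl
    rw [e]
    exact hplcl.inter (isClosed_iInter fun j => isClosed_iInter fun _ =>
      hcl.preimage ((continuous_const.mul (continuous_inv.mul continuous_const)).mul
        continuous_const))
  have hne : (⋂ k, P k).Nonempty := by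
    apply IsCompact.nonempty_iInter_of_sequence_nonempty_isCompact_isClosed
    · intro i p hp
      exact ⟨hp.1, fun j hj => hp.2 j (hj.trans (Nat.le_succ i))⟩
    · intro i
      obtain ⟨p, hp1, hp2⟩ := willis_two hn i w hw
      exact ⟨p, hp1, hp2⟩
    · refine hVc.of_isClosed_subset (hPcl 0) ?_
      intro p hp
      have := hp.1 0
      simpa using this
    · exact hPcl
  obtain ⟨p, hp⟩ := hne
  rw [Set.mem_iInter] at hp
  refine ⟨p, wil_plus_sub (hp 0).1, p⁻¹ * w, ?_, by group⟩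
  intro j
  exact (hp j).2 j le_rfl

end Pool.Agent.H31.S3
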